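import Mathlib
import Pool.Agent.Lib.MP_ca1492_al.Mod.RMod

namespace CA1492.PA
end CA1492.PA
namespace Pool.Agent.Lib.MP_ca1492_al.P
end Pool.Agent.Lib.MP_ca1492_al.P
namespace Pool.Agent.Lib.MP_ca1492_al.Q
end Pool.Agent.Lib.MP_ca1492_al.Q

/-!
# MP_ca1492_al, L5/Sep: no extensions between modules with different contents

PROOF. z = ∑ w ∈ S, ew w is a central idempotent of R D n (S closed under the maps w ↦ w ∘ sw r: commute
with the generators, `R_induction`); z acts by 1 on M₂ and by 0 on M₁.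
Claim: for every module X and every i: (multiplication by z on X) ∘ α = 0 for α ∈ Ext^i(X, M₁). i = 0: a
homomorphism f satisfies f (z x) = z f x = 0. i → i + 1: α is the composition of the class of a short exact
sequence 0 → K → Q → X → 0, Q free, with some β ∈ Ext^i(K, M₁); the class is natural for the multiplication
by z. For X = M₂ the multiplication by z is the identity.
-/

set_option autoImplicit false

namespace Pool.Agent.Lib.MP_ca1492_al.L

open Topology Matrix TensorProduct ValuativeRel CA1492 CA1492.PA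
open CategoryTheory CategoryTheory.Abelian
open Pool.Agent.Lib.MP_ca1492_al.P Pool.Agent.Lib.MP_ca1492_al.Q

noncomputable section

variable {F : Type} [Field F] [ValuativeRel F] [TopologicalSpace F]
  [IsNonarchimedeanLocalField F]

open Classical in
/-- the central idempotent -/
def Sep_z {D : Dat} {n : ℕ} (S : Set (Wd D n)) : R D n :=
  ∑ w ∈ Finset.univ.filter (fun w => w ∈ S), ew w

theorem Sep_sw_sw {D : Dat} {n : ℕ} (w : Wd D n) (r : ℕ) : (w ∘ sw n r) ∘ sw n r = w := by
  funext k
  show w (sw n r (sw n r k)) = w k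
  congr 1
  unfold sw
  split_ifs
  · rw [← Equiv.Perm.mul_apply, Equiv.swap_mul_self, Equiv.Perm.one_apply]
  · rfl

theorem Sep_comm {D : Dat} {n : ℕ} (S : Set (Wd D n)) (hS : ∀ w ∈ S, ∀ r, w ∘ sw n r ∈ S)
    (a : R D n) : a * Sep_z S = Sep_z S * a := by
  classical
  refine R_induction (p := fun a => a * Sep_z S = Sep_z S * a) ?_ ?_ ?_ ?_ ?_ ?_ a
  · intro c
    exact Algebra.commutes c _
  · intro w
    unfold Sep_z
    rw [Finset.mul_sum, Finset.sum_mul]
    refine Finset.sum_congr rfl fun w' _ => ?_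
    rw [(isRep_R D n).E_mul w w', (isRep_R D n).E_mul w' w]
    by_cases h : w = w'
    · rw [if_pos h, if_pos h.symm, h]
    · rw [if_neg h, if_neg (Ne.symm h)]
  · intro k
    unfold Sep_z
    rw [Finset.mul_sum, Finset.sum_mul]
    exact Finset.sum_congr rfl fun w' _ => (isRep_R D n).Y_E k w'
  · intro r
    unfold Sep_z
    rw [Finset.mul_sum, Finset.sum_mul]
    refine Finset.sum_nbij' (fun w => w ∘ sw n r) (fun w => w ∘ sw n r) ?_ ?_ ?_ ?_ ?_
    · intro w hw
      rw [Finset.mem_filter] at hw ⊢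
      exact ⟨Finset.mem_univ _, hS w hw.2 r⟩
    · intro w hw
      rw [Finset.mem_filter] at hw ⊢
      exact ⟨Finset.mem_univ _, hS w hw.2 r⟩
    · intro w _
      exact Sep_sw_sw w r
    · intro w _
      exact Sep_sw_sw w r
    · intro w _
      exact (isRep_R D n).S_E r w
  · intro x y hx hy
    show (x + y) * Sep_z S = Sep_z S * (x + y)
    rw [add_mul, mul_add, hx, hy]
  · intro x y hx hy
    show x * y * Sep_z S = Sep_z S * (x * y)
    rw [mul_assoc, hy, ← mul_assoc, hx, mul_assoc]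

theorem Sep_one {D : Dat} {n : ℕ} (S : Set (Wd D n)) (M : RMod D n)
    (h : ∀ w, w ∉ S → ∀ x : M.V, (ew w : R D n) • x = 0) (x : M.V) : Sep_z S • x = x := by
  classical
  have h1 : ∑ w : Wd D n, (ew w : R D n) • x = x := by
    rw [← Finset.sum_smul, (isRep_R D n).E_sum, one_smul]
  unfold Sep_z
  rw [Finset.sum_smul, Finset.sum_filter]
  refine Eq.trans (Finset.sum_congr rfl fun w _ => ?_) h1
  split_ifs with hw
  · rfl
  · exact (h w hw x).symm

theorem Sep_zero {D : Dat} {n : ℕ} (S : Set (Wd D n)) (M : RMod D n)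
    (h : ∀ w, w ∈ S → ∀ x : M.V, (ew w : R D n) • x = 0) (x : M.V) : Sep_z S • x = 0 := by
  classical
  unfold Sep_z
  rw [Finset.sum_smul]
  exact Finset.sum_eq_zero fun w hw => h w (Finset.mem_filter.1 hw).2 x

section mul

variable {A : Type} [Ring A] (z : A) (hz : ∀ a : A, a * z = z * a)

/-- multiplication by a central element -/
def Sep_mul (N : ModuleCat.{0} A) : N ⟶ N :=
  ModuleCat.ofHom
    { toFun := fun x => z • x
      map_add' := fun x y => smul_add z x y
      map_smul' := fun a x => by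
        rw [RingHom.id_apply, smul_smul, smul_smul, hz] }

theorem Sep_mul_apply (N : ModuleCat.{0} A) (x : N) : (Sep_mul z hz N).hom x = z • x := rfl

theorem Sep_nat {N N' : ModuleCat.{0} A} (f : N ⟶ N') :
    Sep_mul z hz N ≫ f = f ≫ Sep_mul z hz N' := by
  refine ModuleCat.hom_ext (LinearMap.ext fun x => ?_)
  exact map_smul f.hom z x

/-- multiplication on a short complex -/
def Sep_sc (T : ShortComplex (ModuleCat.{0} A)) : T ⟶ T where
  τ₁ := Sep_mul z hz T.X₁
  τ₂ := Sep_mul z hz T.X₂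
  τ₃ := Sep_mul z hz T.X₃
  comm₁₂ := Sep_nat z hz T.f
  comm₂₃ := Sep_nat z hz T.g

theorem Sep_key (M : ModuleCat.{0} A) (h0 : ∀ x : M, z • x = 0) (i : ℕ) :
    ∀ (N : ModuleCat.{0} A) (α : Ext.{0} N M i),
      (Ext.mk₀ (Sep_mul z hz N)).comp α (zero_add i) = 0 := by
  induction i with
  | zero =>
    intro N α
    obtain ⟨f, rfl⟩ := (Ext.mk₀_bijective N M).2 α
    rw [Ext.mk₀_comp_mk₀]
    have e : Sep_mul z hz N ≫ f = 0 := by
      rw [Sep_nat]
      refine ModuleCat.hom_ext (LinearMap.ext fun x => ?_)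
      exact h0 _
    rw [e, Ext.mk₀_zero]
  | succ i ih =>
    intro N α
    have hT := ModuleCat.shortExact_projectiveShortComplex N
    have hp : Projective N.projectiveShortComplex.X₂ :=
      (IsProjective.iff_projective (R := A) _).1 inferInstance
    obtain ⟨β, hβ⟩ := Ext.contravariant_sequence_exact₃ hT M (n₁ := i + 1) α
      (Ext.eq_zero_of_projective _) (n₀ := i) (by omega)
    have hn := hT.extClass_naturality hT (Sep_sc z hz N.projectiveShortComplex)
    have hn' : hT.extClass.comp (Ext.mk₀ (Sep_mul z hz N.projectiveShortComplex.X₁))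
        (add_zero 1) = (Ext.mk₀ (Sep_mul z hz N.projectiveShortComplex.X₃)).comp hT.extClass
          (zero_add 1) := hn
    rw [← hβ]
    have h3 : (Ext.mk₀ (Sep_mul z hz N.projectiveShortComplex.X₃)).comp
        (hT.extClass.comp β (by omega)) (zero_add (i + 1)) = 0 := by
      rw [← Ext.comp_assoc (a₁₂ := 1) _ _ _ (by omega) (by omega) (by omega), ← hn',
        Ext.comp_assoc_of_second_deg_zero, ih, Ext.comp_zero]
    exact h3

end mul

theorem sep {D : Dat} {n : ℕ} (S : Set (Wd D n)) (hS : ∀ w ∈ S, ∀ r, w ∘ sw n r ∈ S)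
    (M₂ M₁ : RMod D n) (h₂ : ∀ w, w ∉ S → ∀ x : M₂.V, (ew w : R D n) • x = 0)
    (h₁ : ∀ w, w ∈ S → ∀ x : M₁.V, (ew w : R D n) • x = 0) (i : ℕ) :
    Subsingleton (Ext.{0} (ModuleCat.of (R D n) M₂.V) (ModuleCat.of (R D n) M₁.V) i) := by
  have key : ∀ α : Ext.{0} (ModuleCat.of (R D n) M₂.V) (ModuleCat.of (R D n) M₁.V) i, α = 0 := by
    intro α
    have h1 := Sep_key (Sep_z S) (Sep_comm S hS) (ModuleCat.of (R D n) M₁.V)
      (Sep_zero S M₁ h₁) i (ModuleCat.of (R D n) M₂.V) α
    have h2 : Sep_mul (Sep_z S) (Sep_comm S hS) (ModuleCat.of (R D n) M₂.V) = 𝟙 _ := by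
      refine ModuleCat.hom_ext (LinearMap.ext fun x => ?_)
      exact Sep_one S M₂ h₂ x
    rw [h2, Ext.mk₀_id_comp] at h1
    exact h1
  exact ⟨fun a b => by rw [key a, key b]⟩

end

end Pool.Agent.Lib.MP_ca1492_al.L
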