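import Mathlib
import Pool.Agent.Lib.MP_ca1492_al.Mod.RMod
import Pool.Agent.Lib.MP_ca1492_al.P.Statement
import Pool.Agent.Lib.MP_ca1492_al.PA.Defs

/-!
# MP_ca1492_al, last part of D5 (architect helper88): from the systems of cogenerators to `P/Link.lean`

`BD F D v` (block datum of the word v): a smooth injective representation W of `GL κ F` with actions of
the KLR algebra `R D n` and of the power series, `CKLR` (completed KLR algebra) for the algebra of all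
equivariant endomorphisms, and a faithfulness property. `Sys`: a block datum for every word, compatible
with permutations of the letters (`bc`) and with products (`prod`), orthogonality, letters.

The p-adic side (helper27, helper44) constructs `Sys`; the files of this directory construct `Link` from it.
-/

set_option autoImplicit false

namespace Pool.Agent.Lib.MP_ca1492_al.L

open Topology Matrix TensorProduct ValuativeRel CA1492 CA1492.PA
open Pool.Agent.Lib.MP_ca1492_al.P Pool.Agent.Lib.MP_ca1492_al.Q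

noncomputable section

/-! ## General definitions -/

section EndG

variable {G V : Type} [Group G] [AddCommGroup V] [Module ℂ V]

/-- the algebra of the equivariant endomorphisms -/
def EndG (π : Representation ℂ G V) : Subalgebra ℂ (Module.End ℂ V) where
  carrier := {f | Equi π π f}
  mul_mem' := by
    intro a b ha hb g v
    rw [Module.End.mul_apply, Module.End.mul_apply, hb g v, ha g (b v)]
  add_mem' := by
    intro a b ha hb g v
    rw [LinearMap.add_apply, LinearMap.add_apply, ha g v, hb g v, map_add]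
  algebraMap_mem' := by
    intro c g v
    rw [Module.algebraMap_end_apply, Module.algebraMap_end_apply, map_smul]

theorem mem_EndG {π : Representation ℂ G V} {f : Module.End ℂ V} :
    f ∈ EndG π ↔ Equi π π f := Iff.rfl

end EndG

variable {F : Type} [Field F] [ValuativeRel F] [TopologicalSpace F]
  [IsNonarchimedeanLocalField F]

section Prod

variable {κ₁ κ₂ : Type} [Fintype κ₁] [DecidableEq κ₁] [Fintype κ₂] [DecidableEq κ₂]
variable {V₁ V₂ V₁' V₂' : Type} [AddCommGroup V₁] [Module ℂ V₁] [AddCommGroup V₂] [Module ℂ V₂]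
  [AddCommGroup V₁'] [Module ℂ V₁'] [AddCommGroup V₂'] [Module ℂ V₂']

/-- the space of the product of two representations -/
abbrev mulSp (π₁ : Representation ℂ (GL κ₁ F) V₁) (π₂ : Representation ℂ (GL κ₂ F) V₂) :
    Submodule ℂ (GL (κ₁ ⊕ κ₂) F → V₁ ⊗[ℂ] V₂) :=
  GLRep.indSp (⟨κ₁, V₁, π₁⟩ : GLRep F) ⟨κ₂, V₂, π₂⟩

/-- the product of two representations -/
abbrev mulR (π₁ : Representation ℂ (GL κ₁ F) V₁) (π₂ : Representation ℂ (GL κ₂ F) V₂) :
    Representation ℂ (GL (κ₁ ⊕ κ₂) F) (mulSp π₁ π₂) :=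
  GLRep.indRep (⟨κ₁, V₁, π₁⟩ : GLRep F) ⟨κ₂, V₂, π₂⟩

theorem mulMap_aux (π₁ : Representation ℂ (GL κ₁ F) V₁) (π₁' : Representation ℂ (GL κ₁ F) V₁')
    (π₂ : Representation ℂ (GL κ₂ F) V₂) (π₂' : Representation ℂ (GL κ₂ F) V₂')
    (f : V₁ →ₗ[ℂ] V₁') (hf : Equi π₁ π₁' f) (g : V₂ →ₗ[ℂ] V₂') (hg : Equi π₂ π₂' g)
    (g₁ : GL κ₁ F) (g₂ : GL κ₂ F) (c : ℂ) (x y : V₁ ⊗[ℂ] V₂)
    (h : x = c • TensorProduct.map (π₁ g₁) (π₂ g₂) y) :
    TensorProduct.map f g x =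
      c • TensorProduct.map (π₁' g₁) (π₂' g₂) (TensorProduct.map f g y) := by
  have e1 : f ∘ₗ (π₁ g₁) = (π₁' g₁) ∘ₗ f := LinearMap.ext fun v => hf g₁ v
  have e2 : g ∘ₗ (π₂ g₂) = (π₂' g₂) ∘ₗ g := LinearMap.ext fun v => hg g₂ v
  rw [h, map_smul, ← LinearMap.comp_apply, ← TensorProduct.map_comp, e1, e2,
    TensorProduct.map_comp, LinearMap.comp_apply]

/-- functoriality of the product -/
def mulMap (π₁ : Representation ℂ (GL κ₁ F) V₁) (π₁' : Representation ℂ (GL κ₁ F) V₁')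
    (π₂ : Representation ℂ (GL κ₂ F) V₂) (π₂' : Representation ℂ (GL κ₂ F) V₂')
    (f : V₁ →ₗ[ℂ] V₁') (hf : Equi π₁ π₁' f) (g : V₂ →ₗ[ℂ] V₂') (hg : Equi π₂ π₂' g) :
    mulSp π₁ π₂ →ₗ[ℂ] mulSp π₁' π₂' where
  toFun x := ⟨fun h => TensorProduct.map f g (x.1 h), by
    obtain ⟨h1, U, hU, h2⟩ := x.2
    refine ⟨fun g₁ g₂ u h => ?_, U, hU, fun h u hu => ?_⟩
    · exact mulMap_aux π₁ π₁' π₂ π₂' f hf g hg g₁ g₂ _ _ _ (h1 g₁ g₂ u h)
    · exact congrArg (TensorProduct.map f g) (h2 h u hu)⟩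
  map_add' x y := Subtype.ext (funext fun h => map_add (TensorProduct.map f g) (x.1 h) (y.1 h))
  map_smul' c x := Subtype.ext (funext fun h => map_smul (TensorProduct.map f g) c (x.1 h))

theorem mulMap_apply (π₁ : Representation ℂ (GL κ₁ F) V₁) (π₁' : Representation ℂ (GL κ₁ F) V₁')
    (π₂ : Representation ℂ (GL κ₂ F) V₂) (π₂' : Representation ℂ (GL κ₂ F) V₂')
    (f : V₁ →ₗ[ℂ] V₁') (hf : Equi π₁ π₁' f) (g : V₂ →ₗ[ℂ] V₂') (hg : Equi π₂ π₂' g)
    (x : mulSp π₁ π₂) (h : GL (κ₁ ⊕ κ₂) F) :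
    (mulMap π₁ π₁' π₂ π₂' f hf g hg x).1 h = TensorProduct.map f g (x.1 h) := rfl

end Prod

variable (F) in
/-- the representation transported along a bijection of the index sets -/
def reR {κ κ' V : Type} [Fintype κ] [DecidableEq κ] [Fintype κ'] [DecidableEq κ'] [AddCommGroup V]
    [Module ℂ V] (e : κ ≃ κ') (π : Representation ℂ (GL κ' F) V) : Representation ℂ (GL κ F) V :=
  π.comp (GLRep.glRe e).toMonoidHom

/-! ## Block data -/

/-- the words with the same letters -/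
def orb {D : Dat} {n : ℕ} (v : Wd D n) : Set (Wd D n) :=
  {w | ∃ σ : Equiv.Perm (Fin n), w = v ∘ σ}

variable (F) in
/-- block datum of the word `v` -/
structure BD (D : Dat) {n : ℕ} (v : Wd D n) where
  κ : Type
  [fκ : Fintype κ]
  [dκ : DecidableEq κ]
  V : Type
  [aV : AddCommGroup V]
  [mV : Module ℂ V]
  W : Representation ℂ (GL κ F) V
  sm : IsSm W
  inj : IsInjSm W
  φ : R D n →ₐ[ℂ] EndG W
  θ : O n →ₐ[ℂ] EndG W
  cklr : CKLR D n φ θ (orb v)
  faith : ∀ w ∈ orb v, ∀ (X : Submodule ℂ V) (hX : Stab W X),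
    (∀ x ∈ X, (φ (ew w)).1 x = x) → ∀ (U : Type) [AddCommGroup U] [Module ℂ U]
    (π : Representation ℂ (GL κ F) U) (p : X →ₗ[ℂ] U), Equi (subRep W X hX) π p →
    Function.Surjective p → (∃ u : U, u ≠ 0) → ∃ f : U →ₗ[ℂ] V, Equi π W f ∧ f ≠ 0

attribute [instance] BD.fκ BD.dκ BD.aV BD.mV

namespace BD

variable {D : Dat} {n : ℕ} {v : Wd D n} (B : BD F D v)

theorem φ_equi (a : R D n) : Equi B.W B.W (B.φ a).1 := (B.φ a).2

theorem θ_equi (a : O n) : Equi B.W B.W (B.θ a).1 := (B.θ a).2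

/-- the vectors of the word `w` killed by the variables -/
def soc (w : Wd D n) : Submodule ℂ B.V where
  carrier := {x | (B.φ (ew w)).1 x = x ∧ ∀ k, (B.φ (yk k)).1 x = 0}
  add_mem' := by
    rintro a b ⟨h1, h2⟩ ⟨h3, h4⟩
    exact ⟨by rw [map_add, h1, h3], fun k => by rw [map_add, h2 k, h4 k, add_zero]⟩
  zero_mem' := ⟨map_zero _, fun k => map_zero _⟩
  smul_mem' := by
    rintro c a ⟨h1, h2⟩
    exact ⟨by rw [map_smul, h1], fun k => by rw [map_smul, h2 k, smul_zero]⟩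

theorem soc_stab (w : Wd D n) : Stab B.W (B.soc w) := by
  rintro g x ⟨h1, h2⟩
  refine ⟨?_, fun k => ?_⟩
  · rw [B.φ_equi (ew w) g x, h1]
  · rw [B.φ_equi (yk k) g x, h2 k, map_zero]

variable {U : Type} [AddCommGroup U] [Module ℂ U]

/-- the class of the subquotients of the `soc w`, `w ∈ orb v` -/
def Cl (π : Representation ℂ (GL B.κ F) U) : Prop :=
  ∃ w ∈ orb v, ∃ (X : Submodule ℂ B.V) (hX : Stab B.W X) (p : X →ₗ[ℂ] U), X ≤ B.soc w ∧
    Function.Surjective p ∧ Equi (subRep B.W X hX) π p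

/-- `Hom(π, W)` as a module over the KLR algebra -/
abbrev HMod (π : Representation ℂ (GL B.κ F) U) : Module (R D n) (homG π B.W) where
  smul a f := ⟨(B.φ a).1 ∘ₗ f.1, fun g u => by
    rw [LinearMap.comp_apply, LinearMap.comp_apply, f.2 g u, B.φ_equi a g]⟩
  one_smul f := Subtype.ext (by
    show (B.φ 1).1 ∘ₗ f.1 = f.1
    rw [map_one]
    rfl)
  mul_smul a b f := Subtype.ext (by
    show (B.φ (a * b)).1 ∘ₗ f.1 = (B.φ a).1 ∘ₗ ((B.φ b).1 ∘ₗ f.1)
    rw [map_mul]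
    rfl)
  smul_zero a := Subtype.ext (LinearMap.comp_zero _)
  smul_add a f g := Subtype.ext (LinearMap.comp_add _ _ _)
  add_smul a b f := Subtype.ext (by
    show (B.φ (a + b)).1 ∘ₗ f.1 = (B.φ a).1 ∘ₗ f.1 + (B.φ b).1 ∘ₗ f.1
    rw [map_add]
    rfl)
  zero_smul f := Subtype.ext (by
    show (B.φ 0).1 ∘ₗ f.1 = 0
    rw [map_zero]
    rfl)

/-- `Hom(π, W)`, bundled -/
def H (π : Representation ℂ (GL B.κ F) U) : RMod D n :=
  letI := B.HMod π
  { V := homG π B.W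
    modR := B.HMod π
    tower := ⟨fun c a f => Subtype.ext (by
      show (B.φ (c • a)).1 ∘ₗ f.1 = c • ((B.φ a).1 ∘ₗ f.1)
      rw [map_smul]
      rfl)⟩ }

theorem H_smul (π : Representation ℂ (GL B.κ F) U) (a : R D n) (f : (B.H π).V) :
    (a • f : (B.H π).V).1 = (B.φ a).1 ∘ₗ f.1 := rfl

theorem H_smulC (π : Representation ℂ (GL B.κ F) U) (a : ℂ) (f : (B.H π).V) :
    (a • f : (B.H π).V).1 = a • f.1 := rfl

/-- isomorphic block data (for words with the same letters) -/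
def Bc {v' : Wd D n} (B : BD F D v) (B' : BD F D v') : Prop :=
  ∃ (e : B.κ ≃ B'.κ) (f : B.V ≃ₗ[ℂ] B'.V),
    (∀ (g : GL B.κ F) (x : B.V), f (B.W g x) = B'.W (GLRep.glRe e g) (f x)) ∧
    ∀ (a : R D n) (x : B.V), f ((B.φ a).1 x) = (B'.φ a).1 (f x)

/-- no equivariant maps -/
def Orth {m : ℕ} {v' : Wd D m} (B : BD F D v) (B' : BD F D v') : Prop :=
  ∀ (e : B.κ ≃ B'.κ) (f : B.V →ₗ[ℂ] B'.V),
    (∀ (g : GL B.κ F) (x : B.V), f (B.W g x) = B'.W (GLRep.glRe e g) (f x)) → f = 0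

/-- `Ξ` identifies the product of `W` and `W'` with a direct summand of `W''` -/
structure IsXi {m k : ℕ} {v : Wd D m} {v' : Wd D k} {v'' : Wd D (m + k)} (B : BD F D v)
    (B' : BD F D v') (B'' : BD F D v'') (e : B.κ ⊕ B'.κ ≃ B''.κ)
    (Ξ : mulSp B.W B'.W →ₗ[ℂ] B''.V) : Prop where
  equi : ∀ (g : GL (B.κ ⊕ B'.κ) F) (x : mulSp B.W B'.W),
    Ξ (mulR B.W B'.W g x) = B''.W (GLRep.glRe e g) (Ξ x)
  inj : Function.Injective Ξ
  surj : ∀ w ∈ orb v, ∀ w' ∈ orb v', ∀ z : B''.V,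
    (B''.φ (ew (Fin.append w w'))).1 z = z → ∃ x, Ξ x = z
  act : ∀ (a : R D m) (b : R D k) (x : mulSp B.W B'.W),
    Ξ (mulMap B.W B.W B'.W B'.W (B.φ a).1 (B.φ_equi a) (B'.φ b).1 (B'.φ_equi b) x) =
      (B''.φ (iota D m k (a ⊗ₜ[ℂ] b))).1 (Ξ x)

/-- `A` is isomorphic to `soc v` -/
def IsSoc (B : BD F D v) (A : GLRep F) : Prop :=
  ∃ (e : A.κ ≃ B.κ) (f : A.V →ₗ[ℂ] B.V), Function.Injective f ∧
    (∀ x, x ∈ B.soc v ↔ ∃ y, f y = x) ∧
    ∀ (g : GL A.κ F) (x : A.V), f (A.π g x) = B.W (GLRep.glRe e g) (f x)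

end BD

theorem orb_self {D : Dat} {n : ℕ} (v : Wd D n) : v ∈ orb v := ⟨1, rfl⟩

/-! ## Systems -/

/-- A system of block data for the letters `ρ`. -/
structure Sys (D : Dat) (ρ : D.J → GLRep F) where
  B : ∀ {n : ℕ} (v : Wd D n), BD F D v
  /-- permutations of the letters -/
  bc : ∀ {n : ℕ} (v : Wd D n) (σ : Equiv.Perm (Fin n)), (B v).Bc (B (v ∘ σ))
  /-- different letters -/
  orth : ∀ {n m : ℕ} (v : Wd D n) (w : Wd D m),
    (List.ofFn v : Multiset D.J) ≠ (List.ofFn w : Multiset D.J) → (B v).Orth (B w)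
  /-- products -/
  prod : ∀ {m k : ℕ} (v : Wd D m) (v' : Wd D k),
    ∃ (e : (B v).κ ⊕ (B v').κ ≃ (B (Fin.append v v')).κ)
      (Ξ : mulSp (B v).W (B v').W →ₗ[ℂ] (B (Fin.append v v')).V),
      (B v).IsXi (B v') (B (Fin.append v v')) e Ξ
  /-- one letter -/
  letter : ∀ j : D.J, (B (fun _ : Fin 1 => j)).IsSoc (ρ j)
  /-- no letters -/
  one : ∀ v : Wd D 0, (B v).IsSoc GLRep.one

/-- the relation of `P/Link.lean` -/
def RelS {D : Dat} {ρ : D.J → GLRep F} (S : Sys D ρ) (n : ℕ) (A : GLRep F) (M : RMod D n) : Prop :=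
  ∃ (v : Wd D n) (e : A.κ ≃ (S.B v).κ), (S.B v).Cl (reR F e.symm A.π) ∧
    RIso M ((S.B v).H (reR F e.symm A.π))

end

end Pool.Agent.Lib.MP_ca1492_al.L
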