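import Mathlib
import Pool.Agent.Lib.MP_ca1492_al.L5.Defs
import Pool.Agent.Lib.MP_ca1492_al.PA.FBC

/-!
# MP_ca1492_al, L5/Dens: the action of the completed algebra on a finite dimensional `Hom(π, W)`

* `H_nil`: `nil_of_finite` (PA/FBC) for the `EndG W`-module `homG π W` (local instance: a • f = a ∘ f).
* `dens`: `cklr.span`: a = ∑ φ (CQ p) * θ (f p w) * φ (ew w). Write f p w = h p w + t p w, h a polynomial
  and t without terms of degree < K (`HO_trunc`, PA/Ord), K from `H_nil`; θ (t) kills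
  φ (ew w) ∘ f (f ∈ H, φ (ew w) ∘ f ∈ H; `HO_decomp`) and θ (h) = φ (pol h) (`θ_X`; two algebra maps on
  polynomials); r = ∑ CQ p * pol (h p w) * ew w.
-/

set_option autoImplicit false

namespace Pool.Agent.Lib.MP_ca1492_al.L

open Topology Matrix TensorProduct ValuativeRel CA1492 CA1492.PA
open Pool.Agent.Lib.MP_ca1492_al.P Pool.Agent.Lib.MP_ca1492_al.Q

noncomputable section

variable {F : Type} [Field F] [ValuativeRel F] [TopologicalSpace F]
  [IsNonarchimedeanLocalField F]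

namespace BD

variable {D : Dat} {n : ℕ} {v : Wd D n} (B : BD F D v)
variable {U : Type} [AddCommGroup U] [Module ℂ U]

/-- `Hom(π, W)` over the completed algebra -/
abbrev Dens_mod (π : Representation ℂ (GL B.κ F) U) : Module (EndG B.W) (homG π B.W) where
  smul a f := ⟨a.1 ∘ₗ f.1, fun g u => by
    rw [LinearMap.comp_apply, LinearMap.comp_apply, f.2 g u, mem_EndG.1 a.2 g]⟩
  one_smul f := rfl
  mul_smul a b f := rfl
  smul_zero a := Subtype.ext (LinearMap.comp_zero _)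
  smul_add a f g := Subtype.ext (LinearMap.comp_add _ _ _)
  add_smul a b f := Subtype.ext (LinearMap.add_comp _ _ _)
  zero_smul f := Subtype.ext (LinearMap.zero_comp _)

theorem H_nil (π : Representation ℂ (GL B.κ F) U) [hfin : Module.Finite ℂ (B.H π).V] :
    ∃ K : ℕ, ∀ d : Fin n →₀ ℕ, K ≤ d.degree → ∀ f : (B.H π).V,
      (B.θ (MvPowerSeries.monomial d (1 : ℂ))).1 ∘ₗ f.1 = 0 := by
  letI := B.Dens_mod π
  have hT : IsScalarTower ℂ (EndG B.W) (homG π B.W) := ⟨fun c a f => rfl⟩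
  have hF : Module.Finite ℂ (homG π B.W) := hfin
  obtain ⟨K, hK⟩ := nil_of_finite B.θ (homG π B.W)
  exact ⟨K, fun d hd f => congrArg Subtype.val (hK d hd f)⟩

/-- power series without terms of small degree act by zero -/
theorem Dens_HO (π : Representation ℂ (GL B.κ F) U) (K : ℕ)
    (hK : ∀ d : Fin n →₀ ℕ, K ≤ d.degree → ∀ f : (B.H π).V,
      (B.θ (MvPowerSeries.monomial d (1 : ℂ))).1 ∘ₗ f.1 = 0) (t : O n) (ht : HO K t)
    (f : (B.H π).V) : (B.θ t).1 ∘ₗ f.1 = 0 := by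
  obtain ⟨s, c, hs, rfl⟩ := HO_decomp K ht
  refine LinearMap.ext fun u => ?_
  rw [map_sum, LinearMap.comp_apply]
  have h1 : ((∑ d ∈ s, B.θ (c d * MvPowerSeries.monomial d (1 : ℂ)) : EndG B.W) :
      Module.End ℂ B.V) = ∑ d ∈ s, (B.θ (c d * MvPowerSeries.monomial d (1 : ℂ))).1 :=
    AddSubmonoidClass.coe_finsetSum _ _
  rw [h1, LinearMap.sum_apply, LinearMap.zero_apply]
  refine Finset.sum_eq_zero fun d hd => ?_
  have h2 : (B.θ (c d * MvPowerSeries.monomial d (1 : ℂ))).1 (f.1 u) =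
      (B.θ (c d)).1 ((B.θ (MvPowerSeries.monomial d (1 : ℂ))).1 (f.1 u)) := by
    rw [map_mul]
    rfl
  have h3 := LinearMap.congr_fun (hK d (hs d hd).ge f) u
  rw [LinearMap.comp_apply, LinearMap.zero_apply] at h3
  rw [h2, h3, map_zero]

theorem dens (π : Representation ℂ (GL B.κ F) U) [Module.Finite ℂ (B.H π).V]
    (a : EndG B.W) : ∃ r : R D n, ∀ f : (B.H π).V, a.1 ∘ₗ f.1 = (r • f : (B.H π).V).1 := by
  obtain ⟨K, hK⟩ := B.H_nil π
  obtain ⟨g, hg⟩ := B.cklr.span a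
  choose h hh using fun (p : Sq n) (w : Wd D n) => HO_trunc K (g p w)
  refine ⟨∑ p, ∑ w, CQ p * pol (h p w) * ew w, fun f => ?_⟩
  rw [H_smul, map_sum, hg]
  refine LinearMap.ext fun u => ?_
  rw [LinearMap.comp_apply, LinearMap.comp_apply, AddSubmonoidClass.coe_finsetSum,
    AddSubmonoidClass.coe_finsetSum, LinearMap.sum_apply, LinearMap.sum_apply]
  refine Finset.sum_congr rfl fun p _ => ?_
  rw [map_sum, AddSubmonoidClass.coe_finsetSum,
    AddSubmonoidClass.coe_finsetSum, LinearMap.sum_apply, LinearMap.sum_apply]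
  refine Finset.sum_congr rfl fun w _ => ?_
  rw [map_mul, map_mul, ← θ_pol B.cklr (h p w)]
  have h1 : (B.θ (g p w)).1 ((B.φ (ew w)).1 (f.1 u)) =
      (B.θ ((h p w : O n))).1 ((B.φ (ew w)).1 (f.1 u)) := by
    have h2 := LinearMap.congr_fun (B.Dens_HO π K hK _ (hh p w) (ew w • f)) u
    rw [LinearMap.comp_apply, LinearMap.zero_apply, map_sub] at h2
    exact sub_eq_zero.1 h2
  show (B.φ (CQ p)).1 ((B.θ (g p w)).1 ((B.φ (ew w)).1 (f.1 u))) =
    (B.φ (CQ p)).1 ((B.θ ((h p w : O n))).1 ((B.φ (ew w)).1 (f.1 u)))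
  rw [h1]

end BD

end

end Pool.Agent.Lib.MP_ca1492_al.L
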