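import Mathlib
import Pool.Agent.Lib.MP_ca1492_al.L5.Defs

/-!
# MP_ca1492_al, L5/HFun: functoriality and exactness of `Hom(-, W)`

* `Hmap_surj`: f injective; on the stable subspace `range f` of U' the map g ∘ f⁻¹ is equivariant
  (`LinearEquiv.ofInjective`), it extends to U' (`BD.inj`).
* `Hmap_exact`: g with g ∘ i = 0 factors through the surjection p (kernel of p = range of i).
* `H_rank`: `Hmap_inj`, `Hmap_surj`, `Hmap_exact` and rank-nullity (all maps are ℂ-linear,
  `R_lin_C`; or use `Module.length`-free: `LinearMap.finrank_range_add_finrank_ker`).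
-/

set_option autoImplicit false

namespace Pool.Agent.Lib.MP_ca1492_al.L

open Topology Matrix TensorProduct ValuativeRel CA1492 CA1492.PA
open Pool.Agent.Lib.MP_ca1492_al.P Pool.Agent.Lib.MP_ca1492_al.Q

noncomputable section

variable {F : Type} [Field F] [ValuativeRel F] [TopologicalSpace F]
  [IsNonarchimedeanLocalField F]

namespace BD

variable {D : Dat} {n : ℕ} {v : Wd D n} (B : BD F D v)
variable {U U' U'' : Type} [AddCommGroup U] [Module ℂ U] [AddCommGroup U'] [Module ℂ U']
  [AddCommGroup U''] [Module ℂ U'']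

/-- functoriality -/
def Hmap (π : Representation ℂ (GL B.κ F) U) (π' : Representation ℂ (GL B.κ F) U')
    (f : U →ₗ[ℂ] U') (hf : Equi π π' f) : (B.H π').V →ₗ[R D n] (B.H π).V where
  toFun g := ⟨g.1 ∘ₗ f, fun a u => by
    rw [LinearMap.comp_apply, LinearMap.comp_apply, hf a u, g.2 a (f u)]⟩
  map_add' g h := Subtype.ext (LinearMap.add_comp _ _ _)
  map_smul' a g := rfl

theorem Hmap_apply (π : Representation ℂ (GL B.κ F) U) (π' : Representation ℂ (GL B.κ F) U')
    (f : U →ₗ[ℂ] U') (hf : Equi π π' f) (g : (B.H π').V) :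
    (B.Hmap π π' f hf g).1 = g.1 ∘ₗ f := rfl

theorem Hmap_inj (π : Representation ℂ (GL B.κ F) U) (π' : Representation ℂ (GL B.κ F) U')
    (f : U →ₗ[ℂ] U') (hf : Equi π π' f) (hs : Function.Surjective f) :
    Function.Injective (B.Hmap π π' f hf) := by
  intro g h hgh
  refine Subtype.ext (LinearMap.ext fun u => ?_)
  obtain ⟨x, rfl⟩ := hs u
  exact LinearMap.congr_fun (congrArg Subtype.val hgh) x

theorem Hmap_surj (π : Representation ℂ (GL B.κ F) U) (π' : Representation ℂ (GL B.κ F) U')
    (hπ' : IsSm π') (f : U →ₗ[ℂ] U') (hf : Equi π π' f) (hi : Function.Injective f) :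
    Function.Surjective (B.Hmap π π' f hf) := by
  intro g
  have hX : Stab π' (LinearMap.range f) := by
    rintro a _ ⟨x, rfl⟩
    exact ⟨π a x, hf a x⟩
  have hE : Equi (subRep π' (LinearMap.range f) hX) B.W
      (g.1 ∘ₗ ((LinearEquiv.ofInjective f hi).symm : LinearMap.range f →ₗ[ℂ] U)) := by
    intro a x
    obtain ⟨u, rfl⟩ := (LinearEquiv.ofInjective f hi).surjective x
    have h1 : subRep π' (LinearMap.range f) hX a (LinearEquiv.ofInjective f hi u) =
        LinearEquiv.ofInjective f hi (π a u) := Subtype.ext (hf a u).symm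
    rw [h1, LinearMap.comp_apply, LinearMap.comp_apply]
    show g.1 ((LinearEquiv.ofInjective f hi).symm (LinearEquiv.ofInjective f hi (π a u))) =
      B.W a (g.1 ((LinearEquiv.ofInjective f hi).symm (LinearEquiv.ofInjective f hi u)))
    rw [LinearEquiv.symm_apply_apply, LinearEquiv.symm_apply_apply]
    exact g.2 a u
  obtain ⟨G, hG, hG'⟩ := B.inj U' π' hπ' (LinearMap.range f) hX _ hE
  refine ⟨⟨G, hG⟩, Subtype.ext (LinearMap.ext fun u => ?_)⟩
  have h2 := hG' (LinearEquiv.ofInjective f hi u)
  rw [LinearMap.comp_apply] at h2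
  have h3 : ((LinearEquiv.ofInjective f hi).symm : LinearMap.range f →ₗ[ℂ] U)
      (LinearEquiv.ofInjective f hi u) = u := LinearEquiv.symm_apply_apply _ _
  rw [h3] at h2
  exact h2

theorem Hmap_exact (π : Representation ℂ (GL B.κ F) U) (π' : Representation ℂ (GL B.κ F) U')
    (π'' : Representation ℂ (GL B.κ F) U'') (i : U' →ₗ[ℂ] U) (hi : Equi π' π i)
    (p : U →ₗ[ℂ] U'') (hp : Equi π π'' p) (hs : Function.Surjective p)
    (hex : ∀ u, p u = 0 ↔ ∃ u', i u' = u) (g : (B.H π).V) :
    B.Hmap π' π i hi g = 0 ↔ ∃ h, B.Hmap π π'' p hp h = g := by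
  constructor
  · intro h0
    have hk : LinearMap.ker p ≤ LinearMap.ker g.1 := by
      intro u hu
      obtain ⟨u', rfl⟩ := (hex u).1 hu
      exact LinearMap.congr_fun (congrArg Subtype.val h0) u'
    choose s hsec using hs
    have hkey : ∀ u u' : U, p u = p u' → g.1 u = g.1 u' := by
      intro u u' h
      have h1 : u - u' ∈ LinearMap.ker p := by
        rw [LinearMap.mem_ker, map_sub, h, sub_self]
      have h2 := hk h1
      rw [LinearMap.mem_ker, map_sub] at h2
      exact sub_eq_zero.1 h2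
    refine ⟨⟨{ toFun := fun x => g.1 (s x)
               map_add' := fun x y => ?_
               map_smul' := fun c x => ?_ }, fun a x => ?_⟩, Subtype.ext (LinearMap.ext fun u => ?_)⟩
    · rw [← map_add]
      apply hkey
      rw [map_add, hsec, hsec, hsec]
    · rw [RingHom.id_apply, ← map_smul]
      apply hkey
      rw [map_smul, hsec, hsec]
    · show g.1 (s (π'' a x)) = B.W a (g.1 (s x))
      rw [← g.2 a (s x)]
      apply hkey
      rw [hsec, hp a (s x), hsec]
    · show g.1 (s (p u)) = g.1 u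
      exact hkey _ _ (hsec _)
  · rintro ⟨h, rfl⟩
    refine Subtype.ext (LinearMap.ext fun u => ?_)
    show h.1 (p (i u)) = 0
    rw [(hex (i u)).2 ⟨u, rfl⟩, map_zero]

theorem H_rank (π : Representation ℂ (GL B.κ F) U) (π' : Representation ℂ (GL B.κ F) U')
    (π'' : Representation ℂ (GL B.κ F) U'') (hπ : IsSm π) (i : U' →ₗ[ℂ] U) (hi : Equi π' π i)
    (hii : Function.Injective i) (p : U →ₗ[ℂ] U'') (hp : Equi π π'' p)
    (hs : Function.Surjective p) (hex : ∀ u, p u = 0 ↔ ∃ u', i u' = u)
    [Module.Finite ℂ (B.H π).V] :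
    Module.Finite ℂ (B.H π').V ∧ Module.Finite ℂ (B.H π'').V ∧
      Module.finrank ℂ (B.H π).V =
        Module.finrank ℂ (B.H π').V + Module.finrank ℂ (B.H π'').V := by
  let a : (B.H π).V →ₗ[ℂ] (B.H π').V :=
    { toFun := B.Hmap π' π i hi
      map_add' := map_add _
      map_smul' := fun c x => R_lin_C (B.H π) (B.H π') (B.Hmap π' π i hi) c x }
  let b : (B.H π'').V →ₗ[ℂ] (B.H π).V :=
    { toFun := B.Hmap π π'' p hp
      map_add' := map_add _
      map_smul' := fun c x => R_lin_C (B.H π'') (B.H π) (B.Hmap π π'' p hp) c x }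
  have ha : Function.Surjective a := B.Hmap_surj π' π hπ i hi hii
  have hb : Function.Injective b := B.Hmap_inj π π'' p hp hs
  haveI h1 : Module.Finite ℂ (B.H π').V := Module.Finite.of_surjective a ha
  haveI h2 : Module.Finite ℂ (B.H π'').V := Module.Finite.of_injective b hb
  refine ⟨h1, h2, ?_⟩
  have h3 := LinearMap.finrank_range_add_finrank_ker a
  have h4 : LinearMap.ker a = LinearMap.range b := by
    ext g
    rw [LinearMap.mem_ker, LinearMap.mem_range]
    exact B.Hmap_exact π π' π'' i hi p hp hs hex g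
  rw [LinearMap.range_eq_top.2 ha, h4, finrank_top, LinearMap.finrank_range_of_inj hb] at h3
  exact h3.symm

end BD

end

end Pool.Agent.Lib.MP_ca1492_al.L
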