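import Mathlib
import Pool.Agent.Lib.MP_ca1492_al.L5.Defs
import Pool.Agent.Lib.MP_ca1492_al.PA.Ord

/-!
# MP_ca1492_al, L5/Soc: equivariant maps from the socle of a word

* `soc_gen`: f : soc w → W extends to an equivariant g : W → W (`BD.inj`), g ∈ EndG W,
  g * φ (ew w) = ∑ p, φ (CQ p) * θ (h p) * φ (ew w) (`cklr.span`, multiply by φ (ew w) on the right,
  `θ_E`, `ew_facts`). On x ∈ soc w: φ (ew w) x = x and θ h x = (constant coefficient of h) • x, because
  h = C + ∑ X k * h k (`HO_decomp` of PA/Ord with degree 1, or `MvPowerSeries` lemma) and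
  θ (X k) x = φ (yk k) x = 0.
* `soc_ind`: a = ∑ p, c p • φ (CQ p) * φ (ew w) kills soc w. The map Y : range φ(ew w) → (Fin n → W),
  x ↦ (φ (yk k) x)_k has kernel soc w; a factors through the image of Y (a stable subspace of the
  representation Fin n → W, smooth by `smooth` of finite products), extends to Fin n → W by `BD.inj`
  for the representation `Fin n → B.V` (pointwise): so a = ∑ k, b k * φ (yk k) * φ (ew w) with b k ∈ EndG W.
  Expand b k * φ (ew w) = ∑ p, φ (CQ p) * θ (f k p) * φ (ew w) (as in `soc_gen`) and note that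
  φ (yk k) = θ (X k) commutes with φ (ew w): a = ∑ p, φ (CQ p) * θ (∑ k, f k p * X k) * φ (ew w); `cklr.uniq`
  (function of p and w', zero for w' ≠ w): C (c p) = ∑ k, f k p * X k, so c p = 0 (constant coefficient).
* `soc_rank`: the maps φ (CQ p) restricted to soc w are a basis of H (soc w), `card_Sq`.
-/

set_option autoImplicit false

namespace Pool.Agent.Lib.MP_ca1492_al.L

open Topology Matrix TensorProduct ValuativeRel CA1492 CA1492.PA
open Pool.Agent.Lib.MP_ca1492_al.P Pool.Agent.Lib.MP_ca1492_al.Q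

noncomputable section

variable {F : Type} [Field F] [ValuativeRel F] [TopologicalSpace F]
  [IsNonarchimedeanLocalField F]

namespace BD

variable {D : Dat} {n : ℕ} {v : Wd D n} (B : BD F D v)

/-- the representation on soc w -/
abbrev socR (w : Wd D n) : Representation ℂ (GL B.κ F) (B.soc w) :=
  subRep B.W (B.soc w) (B.soc_stab w)

/-! ### auxiliary facts -/

/-- evaluation at a vector -/
def Soc_ev (x : B.V) : EndG B.W →ₗ[ℂ] B.V where
  toFun a := a.1 x
  map_add' _ _ := rfl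
  map_smul' _ _ := rfl

theorem Soc_mul (a b : R D n) (x : B.V) :
    (B.φ (a * b)).1 x = (B.φ a).1 ((B.φ b).1 x) := by
  rw [map_mul]
  rfl

theorem Soc_ew {w : Wd D n} {x : B.V} (hx : x ∈ B.soc w) (w' : Wd D n) :
    (B.φ (ew w')).1 x = if w' = w then x else 0 := by
  by_cases h : w' = w
  · rw [if_pos h, h]
    exact hx.1
  · rw [if_neg h]
    have h1 : (B.φ (ew w')).1 ((B.φ (ew w)).1 x) = 0 := by
      rw [← B.Soc_mul, ew_facts.1, if_neg h, map_zero]
      rfl
    rw [hx.1] at h1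
    exact h1

theorem Soc_degree {d : Fin n →₀ ℕ} (h : d.degree = 1) : ∃ k, d = Finsupp.single k 1 := by
  have h0 : d ≠ 0 := by
    rintro rfl
    simp at h
  obtain ⟨k, hk⟩ := Finsupp.ne_iff.1 h0
  refine ⟨k, ?_⟩
  have hk1 : Finsupp.single k 1 ≤ d := by
    rw [Finsupp.single_le_iff]
    have h1 : d k ≠ 0 := hk
    omega
  have h2 : d = Finsupp.single k 1 + (d - Finsupp.single k 1) := (add_tsub_cancel_of_le hk1).symm
  have h3 : (d - Finsupp.single k 1).degree = 0 := by
    have h4 := congrArg Finsupp.degree h2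
    rw [map_add, Finsupp.degree_single, h] at h4
    omega
  rw [Finsupp.degree_eq_zero_iff] at h3
  rw [h3, add_zero] at h2
  exact h2

theorem Soc_C (c : ℂ) (x : B.V) : (B.θ (MvPowerSeries.C c)).1 x = c • x := by
  have h1 : (MvPowerSeries.C c : O n) = algebraMap ℂ (O n) c := rfl
  rw [h1, AlgHom.commutes]
  rfl

theorem Soc_theta {w : Wd D n} {x : B.V} (hx : x ∈ B.soc w) (h : O n) :
    (B.θ h).1 x = MvPowerSeries.constantCoeff h • x := by
  have h1 : HO 1 (h - MvPowerSeries.C (MvPowerSeries.constantCoeff h)) := by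
    rw [HO_iff]
    intro d hd
    have h2 : d = 0 := by
      rw [← Finsupp.degree_eq_zero_iff]
      omega
    rw [h2, map_sub, MvPowerSeries.coeff_zero_C, MvPowerSeries.coeff_zero_eq_constantCoeff_apply,
      sub_self]
  obtain ⟨s, t, hs, ht⟩ := HO_decomp 1 h1
  have h2 : B.Soc_ev x (B.θ (h - MvPowerSeries.C (MvPowerSeries.constantCoeff h))) = 0 := by
    rw [ht, map_sum, map_sum]
    refine Finset.sum_eq_zero fun d hd => ?_
    obtain ⟨k, hk⟩ := Soc_degree (hs d hd)
    rw [map_mul]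
    show (B.θ (t d)).1 ((B.θ (MvPowerSeries.monomial d 1)).1 x) = 0
    rw [hk]
    have h3 : (MvPowerSeries.monomial (Finsupp.single k 1) (1 : ℂ) : O n) = MvPowerSeries.X k := rfl
    rw [h3, B.cklr.θ_X, hx.2 k, map_zero]
  rw [map_sub, map_sub, sub_eq_zero] at h2
  exact h2.trans (B.Soc_C _ x)

/-- the value of a standard element -/
theorem Soc_std {w : Wd D n} {x : B.V} (hx : x ∈ B.soc w) (F : Sq n → Wd D n → O n) :
    B.Soc_ev x (∑ p, ∑ w', B.φ (CQ p) * B.θ (F p w') * B.φ (ew w')) =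
      ∑ p, MvPowerSeries.constantCoeff (F p w) • (B.φ (CQ p)).1 x := by
  rw [map_sum]
  refine Finset.sum_congr rfl fun p _ => ?_
  rw [map_sum, Finset.sum_eq_single w]
  · show (B.φ (CQ p)).1 ((B.θ (F p w)).1 ((B.φ (ew w)).1 x)) = _
    rw [hx.1, B.Soc_theta hx, map_smul]
  · intro w' _ hw'
    show (B.φ (CQ p)).1 ((B.θ (F p w')).1 ((B.φ (ew w')).1 x)) = 0
    rw [B.Soc_ew hx, if_neg hw', map_zero, map_zero]
  · intro h
    exact absurd (Finset.mem_univ w) h

theorem soc_gen (w : Wd D n) (hw : w ∈ orb v) (f : (B.H (B.socR w)).V) :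
    ∃ c : Sq n → ℂ, ∀ x : B.soc w, f.1 x = ∑ p, c p • (B.φ (CQ p)).1 x := by
  obtain ⟨g, hg, hgf⟩ := B.inj B.V B.W B.sm (B.soc w) (B.soc_stab w) f.1 f.2
  obtain ⟨F, hF⟩ := B.cklr.span ⟨g, hg⟩
  refine ⟨fun p => MvPowerSeries.constantCoeff (F p w), fun x => ?_⟩
  rw [← hgf x, ← B.Soc_std x.2 F, ← hF]
  rfl

/-- n copies of W -/
def SocP : Representation ℂ (GL B.κ F) (Fin n → B.V) where
  toFun g := LinearMap.pi fun k => (B.W g) ∘ₗ LinearMap.proj k
  map_one' := by
    refine LinearMap.ext fun z => funext fun k => ?_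
    show B.W 1 (z k) = z k
    rw [map_one]
    rfl
  map_mul' a b := by
    refine LinearMap.ext fun z => funext fun k => ?_
    show B.W (a * b) (z k) = B.W a (B.W b (z k))
    rw [map_mul]
    rfl

theorem SocP_sm : IsSm B.SocP := by
  intro z
  have h1 : {g : GL B.κ F | B.SocP g z = z} = ⋂ k : Fin n, {g | B.W g (z k) = z k} := by
    ext g
    rw [Set.mem_iInter]
    exact ⟨fun h k => congrFun h k, fun h => funext h⟩
  rw [h1]
  exact isOpen_iInter_of_finite fun k => B.sm (z k)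

/-- all variables on the word w -/
def SocT (w : Wd D n) : B.V →ₗ[ℂ] (Fin n → B.V) :=
  LinearMap.pi fun k => (B.φ (yk k)).1 ∘ₗ (B.φ (ew w)).1

theorem SocT_equi (w : Wd D n) : Equi B.W B.SocP (B.SocT w) := by
  intro g x
  funext k
  show (B.φ (yk k)).1 ((B.φ (ew w)).1 (B.W g x)) = B.W g ((B.φ (yk k)).1 ((B.φ (ew w)).1 x))
  rw [B.φ_equi (ew w) g x, B.φ_equi (yk k) g]

theorem Soc_exp (b : EndG B.W) (g : Sq n → Wd D n → O n)
    (hb : b = ∑ p, ∑ w, B.φ (CQ p) * B.θ (g p w) * B.φ (ew w)) (k : Fin n) (w : Wd D n) :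
    b * B.φ (yk k) * B.φ (ew w) =
      ∑ p, B.φ (CQ p) * B.θ (g p w * MvPowerSeries.X k) * B.φ (ew w) := by
  have e1 : ∀ w' : Wd D n, B.φ (ew w') * B.θ (MvPowerSeries.X k) * B.φ (ew w) =
      if w' = w then B.θ (MvPowerSeries.X k) * B.φ (ew w') else 0 := by
    intro w'
    rw [← B.cklr.θ_E, mul_assoc, ← map_mul B.φ, ew_facts.1]
    by_cases h : w' = w
    · rw [if_pos h, if_pos h]
    · rw [if_neg h, if_neg h, map_zero, mul_zero]
  rw [hb, Finset.sum_mul, Finset.sum_mul]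
  refine Finset.sum_congr rfl fun p _ => ?_
  rw [Finset.sum_mul, Finset.sum_mul, Finset.sum_eq_single w]
  · rw [← B.cklr.θ_X]
    have h2 : B.φ (CQ p) * B.θ (g p w) * B.φ (ew w) * B.θ (MvPowerSeries.X k) * B.φ (ew w) =
        B.φ (CQ p) * B.θ (g p w) *
          (B.φ (ew w) * B.θ (MvPowerSeries.X k) * B.φ (ew w)) := by
      simp only [mul_assoc]
    rw [h2, e1, if_pos rfl, map_mul]
    simp only [mul_assoc]
  · intro w' _ hw'
    rw [← B.cklr.θ_X]
    have h2 : B.φ (CQ p) * B.θ (g p w') * B.φ (ew w') * B.θ (MvPowerSeries.X k) * B.φ (ew w) =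
        B.φ (CQ p) * B.θ (g p w') *
          (B.φ (ew w') * B.θ (MvPowerSeries.X k) * B.φ (ew w)) := by
      simp only [mul_assoc]
    rw [h2, e1, if_neg hw', mul_zero]
  · intro h
    exact absurd (Finset.mem_univ w) h

/-- an equivariant endomorphism which vanishes on the vectors of the word w killed by the variables -/
theorem Soc_factor (w : Wd D n) (a : EndG B.W)
    (ha : ∀ x, (∀ k, (B.φ (yk k)).1 ((B.φ (ew w)).1 x) = 0) → a.1 x = 0) :
    ∃ b : Fin n → EndG B.W, a = ∑ k, b k * B.φ (yk k) * B.φ (ew w) := by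
  have hst : Stab B.SocP (LinearMap.range (B.SocT w)) := by
    rintro g _ ⟨x, rfl⟩
    exact ⟨B.W g x, B.SocT_equi w g x⟩
  have hker : LinearMap.ker (B.SocT w) ≤ LinearMap.ker a.1 := by
    intro x hx
    rw [LinearMap.mem_ker] at hx ⊢
    exact ha x fun k => congrFun hx k
  let b0 : LinearMap.range (B.SocT w) →ₗ[ℂ] B.V :=
    (LinearMap.ker (B.SocT w)).liftQ a.1 hker ∘ₗ
      ((B.SocT w).quotKerEquivRange.symm : LinearMap.range (B.SocT w) →ₗ[ℂ] _)
  have hb0 : ∀ (x : B.V) (h : B.SocT w x ∈ LinearMap.range (B.SocT w)),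
      b0 ⟨B.SocT w x, h⟩ = a.1 x := by
    intro x h
    show (LinearMap.ker (B.SocT w)).liftQ a.1 hker
      ((B.SocT w).quotKerEquivRange.symm ⟨B.SocT w x, h⟩) = _
    rw [LinearMap.quotKerEquivRange_symm_apply_image]
    rfl
  obtain ⟨b, hb, hbe⟩ := B.inj (Fin n → B.V) B.SocP B.SocP_sm (LinearMap.range (B.SocT w)) hst b0 (by
    intro g z
    obtain ⟨x, hx⟩ := LinearMap.mem_range.1 z.2
    have hz : z = ⟨B.SocT w x, LinearMap.mem_range_self _ x⟩ := Subtype.ext hx.symm
    have h1 : (subRep B.SocP (LinearMap.range (B.SocT w)) hst) g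
        ⟨B.SocT w x, LinearMap.mem_range_self _ x⟩ =
        ⟨B.SocT w (B.W g x), LinearMap.mem_range_self _ _⟩ := Subtype.ext (B.SocT_equi w g x).symm
    rw [hz, h1, hb0, hb0]
    exact a.2 g x)
  refine ⟨fun k => ⟨b ∘ₗ LinearMap.single ℂ (fun _ => B.V) k, ?_⟩, ?_⟩
  · intro g x
    show b (Pi.single k (B.W g x)) = B.W g (b (Pi.single k x))
    rw [← hb g]
    congr 1
    funext j
    show _ = B.W g ((Pi.single k x : Fin n → B.V) j)
    by_cases h : j = k
    · subst h
      rw [Pi.single_eq_same, Pi.single_eq_same]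
    · rw [Pi.single_eq_of_ne h, Pi.single_eq_of_ne h, map_zero]
  · refine Subtype.ext (LinearMap.ext fun x => ?_)
    show B.Soc_ev x a = B.Soc_ev x _
    rw [map_sum]
    show a.1 x = ∑ k, b (Pi.single k ((B.φ (yk k)).1 ((B.φ (ew w)).1 x)))
    rw [← map_sum, ← hb0 x (LinearMap.mem_range_self _ x), ← hbe]
    congr 1
    exact (Finset.univ_sum_single (B.SocT w x)).symm

theorem soc_ind (w : Wd D n) (hw : w ∈ orb v) (c : Sq n → ℂ)
    (h : ∀ x ∈ B.soc w, ∑ p, c p • (B.φ (CQ p)).1 x = 0) : c = 0 := by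
  obtain ⟨b, hb⟩ := B.Soc_factor w
    (∑ p, B.φ (CQ p) * B.θ (MvPowerSeries.C (c p)) * B.φ (ew w)) (by
      intro x hx
      have h1 : (B.φ (ew w)).1 x ∈ B.soc w := by
        refine ⟨?_, hx⟩
        rw [← B.Soc_mul, ew_facts.1, if_pos rfl]
      show B.Soc_ev x _ = 0
      rw [map_sum, ← h _ h1]
      refine Finset.sum_congr rfl fun p _ => ?_
      show (B.φ (CQ p)).1 ((B.θ (MvPowerSeries.C (c p))).1 ((B.φ (ew w)).1 x)) = _
      rw [B.Soc_C, map_smul])
  have hex : ∀ k, ∃ g : Sq n → Wd D n → O n,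
      b k = ∑ p, ∑ w, B.φ (CQ p) * B.θ (g p w) * B.φ (ew w) := fun k => B.cklr.span (b k)
  choose g hg using hex
  have h2 : ∑ p, ∑ w', B.φ (CQ p) * B.θ ((fun p w' => if w' = w then
      MvPowerSeries.C (c p) - ∑ k, g k p w * MvPowerSeries.X k else 0) p w') * B.φ (ew w') = 0 := by
    have h3 : ∀ p, ∑ w', B.φ (CQ p) * B.θ ((fun p w' => if w' = w then
      MvPowerSeries.C (c p) - ∑ k, g k p w * MvPowerSeries.X k else 0) p w') * B.φ (ew w') =
        B.φ (CQ p) * B.θ (MvPowerSeries.C (c p)) * B.φ (ew w) -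
          ∑ k, B.φ (CQ p) * B.θ (g k p w * MvPowerSeries.X k) * B.φ (ew w) := by
      intro p
      rw [Finset.sum_eq_single w]
      · show B.φ (CQ p) * B.θ (if w = w then
          MvPowerSeries.C (c p) - ∑ k, g k p w * MvPowerSeries.X k else 0) * B.φ (ew w) = _
        rw [if_pos rfl, map_sub, map_sum, mul_sub, sub_mul, Finset.mul_sum, Finset.sum_mul]
      · intro w' _ hw'
        show B.φ (CQ p) * B.θ (if w' = w then
          MvPowerSeries.C (c p) - ∑ k, g k p w * MvPowerSeries.X k else 0) * B.φ (ew w') = _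
        rw [if_neg hw', map_zero, mul_zero, zero_mul]
      · intro h
        exact absurd (Finset.mem_univ w) h
    rw [Finset.sum_congr rfl fun p _ => h3 p, Finset.sum_sub_distrib, hb, Finset.sum_comm,
      sub_eq_zero]
    exact Finset.sum_congr rfl fun k _ => B.Soc_exp (b k) (g k) (hg k) k w
  funext p
  have h4 := B.cklr.uniq _ h2 p w hw
  have h5 : MvPowerSeries.C (c p) - ∑ k, g k p w * MvPowerSeries.X k = (0 : O n) := by
    have h6 : (if w = w then
      MvPowerSeries.C (c p) - ∑ k, g k p w * MvPowerSeries.X k else 0 : O n) = 0 := h4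
    rw [if_pos rfl] at h6
    exact h6
  have h7 := congrArg MvPowerSeries.constantCoeff h5
  rw [map_sub, map_sum, map_zero] at h7
  simpa using h7

/-- evaluation -/
def Soc_evH (w : Wd D n) (x : B.soc w) : (B.H (B.socR w)).V →ₗ[ℂ] B.V where
  toFun f := f.1 x
  map_add' _ _ := rfl
  map_smul' _ _ := rfl

/-- the inclusion -/
def socI (w : Wd D n) : (B.H (B.socR w)).V := ⟨(B.soc w).subtype, fun _ _ => rfl⟩

/-- the parametrization of the equivariant maps -/
def Soc_L (w : Wd D n) : (Sq n → ℂ) →ₗ[ℂ] (B.H (B.socR w)).V :=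
  Fintype.linearCombination ℂ (fun p => (CQ p : R D n) • B.socI w)

theorem Soc_L_apply (w : Wd D n) (c : Sq n → ℂ) (x : B.soc w) :
    (B.Soc_L w c).1 x = ∑ p, c p • (B.φ (CQ p)).1 x := by
  show B.Soc_evH w x (Fintype.linearCombination ℂ (fun p => (CQ p : R D n) • B.socI w) c) = _
  rw [Fintype.linearCombination_apply, map_sum]
  refine Finset.sum_congr rfl fun p _ => ?_
  rw [map_smul]
  rfl

theorem Soc_L_bij (w : Wd D n) (hw : w ∈ orb v) : Function.Bijective (B.Soc_L w) := by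
  constructor
  · rw [← LinearMap.ker_eq_bot, LinearMap.ker_eq_bot']
    intro c hc
    refine B.soc_ind w hw c fun x hx => ?_
    rw [← B.Soc_L_apply w c ⟨x, hx⟩, hc]
    rfl
  · intro f
    obtain ⟨c, hc⟩ := B.soc_gen w hw f
    refine ⟨c, Subtype.ext (LinearMap.ext fun x => ?_)⟩
    rw [B.Soc_L_apply, hc]

theorem soc_rank (w : Wd D n) (hw : w ∈ orb v) :
    Module.Finite ℂ (B.H (B.socR w)).V ∧
      Module.finrank ℂ (B.H (B.socR w)).V = n.factorial := by
  have e := LinearEquiv.ofBijective (B.Soc_L w) (B.Soc_L_bij w hw)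
  refine ⟨Module.Finite.of_surjective (B.Soc_L w) (B.Soc_L_bij w hw).2, ?_⟩
  rw [← e.finrank_eq, Module.finrank_fintype_fun_eq_card, card_Sq]

/-- PROOF: `soc_gen`. -/
theorem soc_cyc (w : Wd D n) (hw : w ∈ orb v) (f : (B.H (B.socR w)).V) :
    ∃ a : R D n, f = a • B.socI w := by
  obtain ⟨c, hc⟩ := B.soc_gen w hw f
  refine ⟨∑ p, c p • CQ p, Subtype.ext (LinearMap.ext fun x => ?_)⟩
  rw [hc x, B.H_smul]
  show _ = B.Soc_ev (x : B.V) (B.φ (∑ p, c p • CQ p))
  rw [map_sum, map_sum]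
  refine Finset.sum_congr rfl fun p _ => ?_
  rw [map_smul, map_smul]
  rfl

end BD

end

end Pool.Agent.Lib.MP_ca1492_al.L
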