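import Mathlib
import Pool.Agent.Lib.MP_ca1492_al.L5.Dens
import Pool.Agent.Lib.MP_ca1492_al.L5.HFun
import Pool.Agent.Lib.MP_ca1492_al.L5.Soc

/-!
# MP_ca1492_al, L5/ClB: the class of the subquotients of the `soc w`, `w ∈ orb v`

* `Cl.sm`: `smooth_sub`, `smooth_of_surj`. `Cl.sub`: replace X by p⁻¹ (range f). `Cl.quo`: compose.
* `Cl.fin`: H(X) is a quotient of H(soc w) (`Hmap_surj`, `soc_rank`), H(π) embeds in H(X) (`Hmap_inj`).
* `Cl.pos`: `BD.faith`.
* `Cl.emb`: H(π) is a nonzero finite dimensional space with commuting nilpotent operators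
  f ↦ θ (X k) ∘ f (`H_nil`): take d of maximal degree with θ (monomial d 1) ∘ f ≠ 0 for some f and put
  f₀ = θ (monomial d 1) ∘ f: θ (X k) ∘ f₀ = 0 for all k. f₀ = ∑ w, φ (ew w) ∘ f₀ (`ew_facts`), choose w with
  φ (ew w) ∘ f₀ ≠ 0; w ∈ orb v by `E_out`. It is injective since π is irreducible (`irr_equi` or the kernel).
* `Cl.simple`: N ≤ H(π) a submodule, f ∈ N, f ≠ 0, g ∈ H(π). f is injective, so g = a ∘ f with
  a ∈ EndG W (`BD.inj` for the stable subspace range f of B.V), and a ∘ f = r • f ∈ N by `dens`.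
  Nontrivial by `Cl.pos` (π ≠ 0).
-/

set_option autoImplicit false

namespace Pool.Agent.Lib.MP_ca1492_al.L

open Topology Matrix TensorProduct ValuativeRel CA1492 CA1492.PA
open Pool.Agent.Lib.MP_ca1492_al.P Pool.Agent.Lib.MP_ca1492_al.Q

noncomputable section

variable {F : Type} [Field F] [ValuativeRel F] [TopologicalSpace F]
  [IsNonarchimedeanLocalField F]

/-- the ℂ-linear map underlying an R-linear one -/
def ClB_lin {D : Dat} {n : ℕ} (M N : RMod D n) (f : M.V →ₗ[R D n] N.V) : M.V →ₗ[ℂ] N.V where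
  toFun := f
  map_add' := map_add f
  map_smul' c v := R_lin_C M N f c v

/-- a nonzero equivariant map from an irreducible representation is injective -/
theorem ClB_inj {G V W : Type} [Group G] [AddCommGroup V] [Module ℂ V] [AddCommGroup W]
    [Module ℂ W] {π : Representation ℂ G V} {σ : Representation ℂ G W} (hi : Irr π)
    (f : V →ₗ[ℂ] W) (hf : Equi π σ f) (h0 : f ≠ 0) : Function.Injective f := by
  rw [← LinearMap.ker_eq_bot]
  rcases hi.2 (LinearMap.ker f) (by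
    intro g x hx
    rw [LinearMap.mem_ker] at hx ⊢
    rw [hf g x, hx, map_zero]) with h | h
  · exact h
  · exact absurd (LinearMap.ker_eq_top.1 h) h0

namespace BD

variable {D : Dat} {n : ℕ} {v : Wd D n} (B : BD F D v)
variable {U U' : Type} [AddCommGroup U] [Module ℂ U] [AddCommGroup U'] [Module ℂ U']

theorem Cl.sm {π : Representation ℂ (GL B.κ F) U} (h : B.Cl π) : IsSm π := by
  obtain ⟨w, hw, X, hX, p, hXs, hp, hE⟩ := h
  exact smooth_of_surj _ π (smooth_sub B.W B.sm X hX) p hE hp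

theorem Cl.sub {π : Representation ℂ (GL B.κ F) U} {π' : Representation ℂ (GL B.κ F) U'}
    (h : B.Cl π) (f : U' →ₗ[ℂ] U) (hf : Equi π' π f) (hi : Function.Injective f) : B.Cl π' := by
  obtain ⟨w, hw, X, hX, p, hXs, hp, hE⟩ := h
  have hle : (Submodule.comap p (LinearMap.range f)).map X.subtype ≤ X := by
    rintro _ ⟨x, -, rfl⟩
    exact x.2
  have hmem : ∀ x (hx : x ∈ X), x ∈ (Submodule.comap p (LinearMap.range f)).map X.subtype ↔
      ∃ u', f u' = p ⟨x, hx⟩ := by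
    intro x hx
    constructor
    · rintro ⟨y, hy, rfl⟩
      exact hy
    · rintro ⟨u', hu'⟩
      exact ⟨⟨x, hx⟩, ⟨u', hu'⟩, rfl⟩
  set X' : Submodule ℂ B.V := (Submodule.comap p (LinearMap.range f)).map X.subtype with hX'
  have hst : Stab B.W X' := by
    intro g x hx
    have hxX : x ∈ X := hle hx
    obtain ⟨u', hu'⟩ := (hmem x hxX).1 hx
    refine (hmem _ (hX g x hxX)).2 ⟨π' g u', ?_⟩
    rw [hf g u', hu']
    exact (hE g ⟨x, hxX⟩).symm
  have hcod : ∀ x : X', (p ∘ₗ Submodule.inclusion hle) x ∈ LinearMap.range f := by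
    intro x
    obtain ⟨u', hu'⟩ := (hmem x.1 (hle x.2)).1 x.2
    exact ⟨u', hu'⟩
  let p' : X' →ₗ[ℂ] U' := ((LinearEquiv.ofInjective f hi).symm : LinearMap.range f →ₗ[ℂ] U') ∘ₗ
    (p ∘ₗ Submodule.inclusion hle).codRestrict (LinearMap.range f) hcod
  have hp' : ∀ x : X', f (p' x) = p (Submodule.inclusion hle x) := by
    intro x
    have h1 := (LinearEquiv.ofInjective f hi).apply_symm_apply
      ((p ∘ₗ Submodule.inclusion hle).codRestrict (LinearMap.range f) hcod x)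
    exact congrArg Subtype.val h1
  refine ⟨w, hw, X', hst, p', hle.trans hXs, ?_, ?_⟩
  · intro u'
    obtain ⟨x, hx⟩ := hp (f u')
    have hx' : x.1 ∈ X' := (hmem x.1 x.2).2 ⟨u', hx.symm⟩
    refine ⟨⟨x.1, hx'⟩, hi ?_⟩
    rw [hp']
    exact hx
  · intro g x
    apply hi
    rw [hp', hf g (p' x), hp']
    exact hE g (Submodule.inclusion hle x)

theorem Cl.quo {π : Representation ℂ (GL B.κ F) U} {π' : Representation ℂ (GL B.κ F) U'}
    (h : B.Cl π) (f : U →ₗ[ℂ] U') (hf : Equi π π' f) (hs : Function.Surjective f) :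
    B.Cl π' := by
  obtain ⟨w, hw, X, hX, p, hXs, hp, hE⟩ := h
  refine ⟨w, hw, X, hX, f ∘ₗ p, hXs, hs.comp hp, fun g x => ?_⟩
  rw [LinearMap.comp_apply, LinearMap.comp_apply, hE g x, hf g (p x)]

theorem Cl_soc (w : Wd D n) (hw : w ∈ orb v) : B.Cl (B.socR w) :=
  ⟨w, hw, B.soc w, B.soc_stab w, LinearMap.id, le_rfl, Function.surjective_id, fun _ _ => rfl⟩

theorem Cl.fin {π : Representation ℂ (GL B.κ F) U} (h : B.Cl π) :
    Module.Finite ℂ (B.H π).V := by
  obtain ⟨w, hw, X, hX, p, hXs, hp, hE⟩ := h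
  have h1 := (B.soc_rank w hw).1
  have h2 : Function.Surjective (B.Hmap (subRep B.W X hX) (B.socR w) (Submodule.inclusion hXs)
      (fun _ _ => rfl)) :=
    B.Hmap_surj _ _ (smooth_sub B.W B.sm _ (B.soc_stab w)) _ _ (Submodule.inclusion_injective hXs)
  have h3 : Module.Finite ℂ (B.H (subRep B.W X hX)).V :=
    Module.Finite.of_surjective (ClB_lin _ _ (B.Hmap (subRep B.W X hX) (B.socR w)
      (Submodule.inclusion hXs) (fun _ _ => rfl))) h2
  exact Module.Finite.of_injective (ClB_lin _ _ (B.Hmap (subRep B.W X hX) π p hE))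
    (B.Hmap_inj _ _ p hE hp)

theorem Cl.pos {π : Representation ℂ (GL B.κ F) U} (h : B.Cl π) (hU : ∃ u : U, u ≠ 0) :
    ∃ f : (B.H π).V, f ≠ 0 := by
  obtain ⟨w, hw, X, hX, p, hXs, hp, hE⟩ := h
  obtain ⟨f, hf, h0⟩ := B.faith w hw X hX (fun x hx => (hXs hx).1) U π p hE hp hU
  exact ⟨⟨f, hf⟩, fun h1 => h0 (congrArg Subtype.val h1)⟩

/-- the composition with an equivariant endomorphism -/
theorem ClB_comp {π : Representation ℂ (GL B.κ F) U} (a : EndG B.W) (f : (B.H π).V) :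
    ∃ g : (B.H π).V, g.1 = a.1 ∘ₗ f.1 :=
  ⟨⟨a.1 ∘ₗ f.1, fun g u => by
    rw [LinearMap.comp_apply, LinearMap.comp_apply, f.2 g u]
    exact a.2 g (f.1 u)⟩, rfl⟩

theorem Cl.emb {π : Representation ℂ (GL B.κ F) U} (h : B.Cl π) (hi : Irr π) :
    ∃ w ∈ orb v, ∃ f : U →ₗ[ℂ] B.V, Equi π B.W f ∧ Function.Injective f ∧
      ∀ u, f u ∈ B.soc w := by
  classical
  have hfin := h.fin
  obtain ⟨f0, hf0⟩ := h.pos B hi.1
  obtain ⟨K, hK⟩ := B.H_nil π
  -- a vector killed by all variables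
  have hex : ∃ k : ℕ, ¬ ∃ d : Fin n →₀ ℕ, d.degree = k ∧ ∃ f : (B.H π).V,
      (B.θ (MvPowerSeries.monomial d (1 : ℂ))).1 ∘ₗ f.1 ≠ 0 := by
    refine ⟨K, ?_⟩
    rintro ⟨d, hd, f, hf⟩
    exact hf (hK d hd.ge f)
  have hk0 : Nat.find hex ≠ 0 := by
    intro h0
    have h1 := Nat.find_spec hex
    rw [h0] at h1
    apply h1
    refine ⟨0, by simp, f0, fun h2 => hf0 (Subtype.ext ?_)⟩
    have h3 : (MvPowerSeries.monomial (0 : Fin n →₀ ℕ) (1 : ℂ)) = 1 := rfl
    rw [h3, map_one] at h2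
    exact h2
  have h1 := Nat.find_spec hex
  have h2 : ∃ d : Fin n →₀ ℕ, d.degree = Nat.find hex - 1 ∧ ∃ f : (B.H π).V,
      (B.θ (MvPowerSeries.monomial d (1 : ℂ))).1 ∘ₗ f.1 ≠ 0 := by
    by_contra h3
    exact Nat.find_min hex (Nat.sub_lt (Nat.pos_of_ne_zero hk0) one_pos) h3
  obtain ⟨d, hd, f, hf⟩ := h2
  obtain ⟨g, hg⟩ := B.ClB_comp (B.θ (MvPowerSeries.monomial d (1 : ℂ))) f
  have hg0 : g.1 ≠ 0 := by
    rw [hg]
    exact hf
  have hgk : ∀ k, (B.θ (MvPowerSeries.X k)).1 ∘ₗ g.1 = 0 := by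
    intro k
    by_contra h3
    apply h1
    refine ⟨Finsupp.single k 1 + d, ?_, f, ?_⟩
    · rw [map_add, hd, Finsupp.degree_single]
      omega
    · intro h4
      apply h3
      have h5 : (MvPowerSeries.X k : MvPowerSeries (Fin n) ℂ) * MvPowerSeries.monomial d (1 : ℂ) =
          MvPowerSeries.monomial (Finsupp.single k 1 + d) (1 : ℂ) := by
        rw [MvPowerSeries.X, MvPowerSeries.monomial_mul_monomial, one_mul]
      rw [← h5, map_mul] at h4
      rw [hg, ← LinearMap.comp_assoc]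
      exact h4
  -- the word
  have h3 : ∃ w : Wd D n, (B.φ (ew w)).1 ∘ₗ g.1 ≠ 0 := by
    by_contra hcon
    push Not at hcon
    apply hg0
    refine LinearMap.ext fun u => ?_
    have h4 : ((∑ w : Wd D n, B.φ (ew w) : EndG B.W) : Module.End ℂ B.V) (g.1 u) = 0 := by
      rw [AddSubmonoidClass.coe_finsetSum, LinearMap.sum_apply]
      exact Finset.sum_eq_zero fun w _ => LinearMap.congr_fun (hcon w) u
    have h5 : (∑ w : Wd D n, B.φ (ew w) : EndG B.W) = 1 := by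
      rw [← map_sum, (isRep_R D n).E_sum, map_one]
    rw [h5] at h4
    exact h4
  obtain ⟨w, hw⟩ := h3
  have hwv : w ∈ orb v := by
    by_contra hn
    apply hw
    rw [B.cklr.E_out w hn]
    exact LinearMap.zero_comp _
  obtain ⟨q, hq⟩ := B.ClB_comp (B.φ (ew w)) g
  refine ⟨w, hwv, q.1, q.2, ClB_inj hi q.1 q.2 (by rw [hq]; exact hw), fun u => ⟨?_, fun k => ?_⟩⟩
  · rw [hq]
    have h4 : B.φ (ew w) * B.φ (ew w) = B.φ (ew w) := by
      rw [← map_mul, (isRep_R D n).E_mul, if_pos rfl]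
    exact LinearMap.congr_fun (congrArg Subtype.val h4) (g.1 u)
  · rw [hq]
    have h4 : B.φ (yk k) * B.φ (ew w) = B.φ (ew w) * B.θ (MvPowerSeries.X k) := by
      rw [B.cklr.θ_X k, ← map_mul, ← map_mul, (isRep_R D n).Y_E]
    have h5 := LinearMap.congr_fun (congrArg Subtype.val h4) (g.1 u)
    have h6 : (B.φ (ew w)).1 ((B.θ (MvPowerSeries.X k)).1 (g.1 u)) = 0 := by
      have h7 : (B.θ (MvPowerSeries.X k)).1 (g.1 u) = 0 := LinearMap.congr_fun (hgk k) u
      rw [h7, map_zero]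
    exact h5.trans h6

theorem Cl.simple {π : Representation ℂ (GL B.κ F) U} (h : B.Cl π) (hi : Irr π) :
    IsSimpleModule (R D n) (B.H π).V := by
  have hfin := h.fin
  obtain ⟨f0, hf0⟩ := h.pos B hi.1
  have hnt : Nontrivial (B.H π).V := ⟨⟨f0, 0, hf0⟩⟩
  refine { exists_pair_ne := ⟨⊥, ⊤, bot_ne_top⟩, eq_bot_or_eq_top := fun N => ?_ }
  by_cases hN : N = ⊥
  · exact Or.inl hN
  refine Or.inr (eq_top_iff.2 fun g _ => ?_)
  obtain ⟨f, hf, hf1⟩ := Submodule.exists_mem_ne_zero_of_ne_bot hN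
  have hf2 : Function.Injective f.1 := ClB_inj hi f.1 f.2 fun h1 => hf1 (Subtype.ext h1)
  obtain ⟨a, ha⟩ := B.Hmap_surj π B.W B.sm f.1 f.2 hf2 g
  obtain ⟨r, hr⟩ := B.dens π ⟨a.1, a.2⟩
  have h1 : g = r • f := by
    rw [← ha]
    exact Subtype.ext (hr f)
  rw [h1]
  exact N.smul_mem r hf

end BD

end

end Pool.Agent.Lib.MP_ca1492_al.L
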