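import Mathlib
import Pool.Agent.Lib.MP_ca1492_al.L5.ClB
import Pool.Agent.Lib.MP_ca1492_al.P.CGLa
import Pool.Agent.Lib.MP_ca1492_al.P.GLRepB

/-!
# MP_ca1492_al, L5/Conj: transport of representations, independence of the bijections

* `glRe` is a functor: `glRe_trans`, `glRe_refl`; entries: `Matrix.reindexAlgEquiv`.
* `reR_conj`: e, e' : κ ≃ κ'. Let τ = e.symm.trans e' : κ' ≃ κ' and p ∈ GL κ' F the permutation matrix with
  p * g * p⁻¹ = glRe τ g for all g. Then glRe e' g = glRe τ (glRe e g) = p * glRe e g * p⁻¹, so T = π p.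
* `H_iso`: Hmap of T and of T⁻¹. `Cl_iso`: `Cl.quo`.
* `Bc.H`, `Bc.Cl`: composition with f : B.V ≃ B'.V; f maps soc w onto soc w; orb v = orb v' is a hypothesis;
  for `Bc.Cl` map the stable subspace X of B.V to f X.
* `IsSoc.cl`: A is isomorphic to soc v.
-/

set_option autoImplicit false

namespace Pool.Agent.Lib.MP_ca1492_al.L

open Topology Matrix TensorProduct ValuativeRel CA1492 CA1492.PA
open Pool.Agent.Lib.MP_ca1492_al.P Pool.Agent.Lib.MP_ca1492_al.Q

noncomputable section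

variable {F : Type} [Field F] [ValuativeRel F] [TopologicalSpace F]
  [IsNonarchimedeanLocalField F]

section

variable {κ κ' κ'' : Type} [Fintype κ] [DecidableEq κ] [Fintype κ'] [DecidableEq κ'] [Fintype κ'']
  [DecidableEq κ''] {V V' : Type} [AddCommGroup V] [Module ℂ V] [AddCommGroup V'] [Module ℂ V']

theorem glRe_trans' (e : κ ≃ κ') (e' : κ' ≃ κ'') (g : GL κ F) :
    GLRep.glRe (e.trans e') g = GLRep.glRe e' (GLRep.glRe e g) :=
  (GLRep.GLRepB_trans e e' g).symm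

theorem glRe_refl' (g : GL κ F) : GLRep.glRe (Equiv.refl κ) g = g := GLRep.GLRepB_refl g

theorem glRe_symm' (e : κ ≃ κ') (g : GL κ' F) : GLRep.glRe e (GLRep.glRe e.symm g) = g :=
  GLRep.GLRepB_symm' e g

theorem glRe_symm_l (e : κ ≃ κ') (g : GL κ F) : GLRep.glRe e.symm (GLRep.glRe e g) = g :=
  GLRep.GLRepB_symm e g

theorem reR_apply (e : κ ≃ κ') (π : Representation ℂ (GL κ' F) V) (g : GL κ F) :
    reR F e π g = π (GLRep.glRe e g) := rfl

theorem reR_trans (e : κ ≃ κ') (e' : κ' ≃ κ'') (π : Representation ℂ (GL κ'' F) V) :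
    reR F e (reR F e' π) = reR F (e.trans e') π := by
  refine MonoidHom.ext fun g => ?_
  rw [reR_apply, reR_apply, reR_apply, glRe_trans']

theorem reR_refl (π : Representation ℂ (GL κ F) V) : reR F (Equiv.refl κ) π = π := by
  refine MonoidHom.ext fun g => ?_
  rw [reR_apply, glRe_refl']

theorem reR_sm (e : κ ≃ κ') (π : Representation ℂ (GL κ' F) V) (h : IsSm π) :
    IsSm (reR F e π) := fun v => (h v).preimage (GLRep.GLRepB_cont e)

theorem reR_irr (e : κ ≃ κ') (π : Representation ℂ (GL κ' F) V) (h : Irr π) :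
    Irr (reR F e π) := by
  refine ⟨h.1, fun U hU => h.2 U fun g v hv => ?_⟩
  have h1 := hU (GLRep.glRe e.symm g) v hv
  rwa [reR_apply, glRe_symm'] at h1

theorem reR_equi (e : κ ≃ κ') (π : Representation ℂ (GL κ' F) V)
    (π' : Representation ℂ (GL κ' F) V') (f : V →ₗ[ℂ] V') (h : Equi π π' f) :
    Equi (reR F e π) (reR F e π') f := fun g v => h (GLRep.glRe e g) v

theorem Conj_perm (e e' : κ ≃ κ') (g : GL κ F) :
    permG F (e.symm.trans e') * GLRep.glRe e g = GLRep.glRe e' g * permG F (e.symm.trans e') := by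
  rw [← mul_inv_eq_iff_eq_mul]
  apply Units.ext
  ext i j
  obtain ⟨i, rfl⟩ := (e.symm.trans e').surjective i
  obtain ⟨j, rfl⟩ := (e.symm.trans e').surjective j
  rw [permG_conj, GLRep.GLRepB_val, GLRep.GLRepB_val, Matrix.submatrix_apply,
    Matrix.submatrix_apply]
  simp

/-- the transport does not depend on the bijection -/
theorem reR_conj (e e' : κ ≃ κ') (π : Representation ℂ (GL κ' F) V) :
    ∃ T : V ≃ₗ[ℂ] V, Equi (reR F e π) (reR F e' π) (T : V →ₗ[ℂ] V) := by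
  have h1 : ∀ (p : GL κ' F) (v : V), π p (π p⁻¹ v) = v := fun p v => by
    rw [← Module.End.mul_apply, ← map_mul, mul_inv_cancel, map_one, Module.End.one_apply]
  have h2 : ∀ (p : GL κ' F) (v : V), π p⁻¹ (π p v) = v := fun p v => by
    rw [← Module.End.mul_apply, ← map_mul, inv_mul_cancel, map_one, Module.End.one_apply]
  refine ⟨LinearEquiv.ofLinear (π (permG F (e.symm.trans e')))
    (π (permG F (e.symm.trans e'))⁻¹) (LinearMap.ext fun v => h1 _ v)
    (LinearMap.ext fun v => h2 _ v), fun g v => ?_⟩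
  show π (permG F (e.symm.trans e')) (π (GLRep.glRe e g) v) =
    π (GLRep.glRe e' g) (π (permG F (e.symm.trans e')) v)
  rw [← Module.End.mul_apply, ← map_mul, Conj_perm, map_mul, Module.End.mul_apply]

end

namespace BD

variable {D : Dat} {n : ℕ} {v v' : Wd D n} (B : BD F D v) (B' : BD F D v')
variable {U U' : Type} [AddCommGroup U] [Module ℂ U] [AddCommGroup U'] [Module ℂ U']

theorem Conj_symm {G : Type} [Group G] (π : Representation ℂ G U) (π' : Representation ℂ G U')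
    (T : U ≃ₗ[ℂ] U') (hT : Equi π π' (T : U →ₗ[ℂ] U')) :
    Equi π' π (T.symm : U' →ₗ[ℂ] U) := by
  intro g v
  show T.symm (π' g v) = π g (T.symm v)
  rw [LinearEquiv.symm_apply_eq]
  have h1 : T (π g (T.symm v)) = π' g (T (T.symm v)) := hT g (T.symm v)
  rw [h1, T.apply_symm_apply]

theorem H_iso (π : Representation ℂ (GL B.κ F) U) (π' : Representation ℂ (GL B.κ F) U')
    (T : U ≃ₗ[ℂ] U') (hT : Equi π π' (T : U →ₗ[ℂ] U')) : RIso (B.H π) (B.H π') := by
  have hT' := Conj_symm π π' T hT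
  refine ⟨LinearEquiv.ofLinear (B.Hmap π' π _ hT') (B.Hmap π π' _ hT) ?_ ?_⟩
  · refine LinearMap.ext fun g => Subtype.ext (LinearMap.ext fun u => ?_)
    show g.1 (T (T.symm u)) = g.1 u
    rw [T.apply_symm_apply]
  · refine LinearMap.ext fun g => Subtype.ext (LinearMap.ext fun u => ?_)
    show g.1 (T.symm (T u)) = g.1 u
    rw [T.symm_apply_apply]

theorem Cl_iso (π : Representation ℂ (GL B.κ F) U) (π' : Representation ℂ (GL B.κ F) U')
    (T : U ≃ₗ[ℂ] U') (hT : Equi π π' (T : U →ₗ[ℂ] U')) (h : B.Cl π) : B.Cl π' :=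
  Cl.quo B h T hT T.surjective

/-- another bijection of the index sets -/
theorem H_bij {κ : Type} [Fintype κ] [DecidableEq κ] (e e' : κ ≃ B.κ)
    (π : Representation ℂ (GL κ F) U) : RIso (B.H (reR F e.symm π)) (B.H (reR F e'.symm π)) := by
  obtain ⟨T, hT⟩ := reR_conj e.symm e'.symm π
  exact B.H_iso _ _ T hT

theorem Cl_bij {κ : Type} [Fintype κ] [DecidableEq κ] (e e' : κ ≃ B.κ)
    (π : Representation ℂ (GL κ F) U) (h : B.Cl (reR F e.symm π)) :
    B.Cl (reR F e'.symm π) := by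
  obtain ⟨T, hT⟩ := reR_conj e.symm e'.symm π
  exact B.Cl_iso _ _ T hT h

theorem Bc.H_iso {B : BD F D v} {B' : BD F D v'} (h : B.Bc B') {κ : Type} [Fintype κ]
    [DecidableEq κ] (e : κ ≃ B.κ) (e' : κ ≃ B'.κ) (π : Representation ℂ (GL κ F) U) :
    RIso (B.H (reR F e.symm π)) (B'.H (reR F e'.symm π)) := by
  obtain ⟨ε, f, hf, hφ⟩ := h
  refine RIso.trans ?_ (B'.H_bij (e.trans ε) e' π)
  have hf' : ∀ (g : GL B'.κ F) (x : B'.V), f.symm (B'.W g x) = B.W (GLRep.glRe ε.symm g)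
      (f.symm x) := by
    intro g x
    rw [LinearEquiv.symm_apply_eq, hf, f.apply_symm_apply, glRe_symm']
  refine ⟨{ toFun := fun g => ⟨(f : B.V →ₗ[ℂ] B'.V) ∘ₗ g.1, fun a u => ?_⟩
            invFun := fun g => ⟨(f.symm : B'.V →ₗ[ℂ] B.V) ∘ₗ g.1, fun a u => ?_⟩
            map_add' := fun g h => Subtype.ext (LinearMap.comp_add _ _ _)
            map_smul' := fun a g => Subtype.ext (LinearMap.ext fun u => ?_)
            left_inv := fun g => Subtype.ext (LinearMap.ext fun u => f.symm_apply_apply _)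
            right_inv := fun g => Subtype.ext (LinearMap.ext fun u => f.apply_symm_apply _) }⟩
  · show f (g.1 (π (GLRep.glRe (e.trans ε).symm a) u)) = B'.W a (f (g.1 u))
    have h1 : g.1 (π (GLRep.glRe e.symm (GLRep.glRe ε.symm a)) u) =
        B.W (GLRep.glRe ε.symm a) (g.1 u) := g.2 (GLRep.glRe ε.symm a) u
    have h2 : (e.trans ε).symm = ε.symm.trans e.symm := rfl
    rw [h2, glRe_trans', h1, hf, glRe_symm']
  · exact hφ a (g.1 u)
  · show f.symm (g.1 (π (GLRep.glRe e.symm a) u)) = B.W a (f.symm (g.1 u))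
    have h1 : g.1 (π (GLRep.glRe (e.trans ε).symm (GLRep.glRe ε a)) u) =
        B'.W (GLRep.glRe ε a) (g.1 u) := g.2 (GLRep.glRe ε a) u
    have h2 : GLRep.glRe (F := F) (e.trans ε).symm (GLRep.glRe ε a) = GLRep.glRe e.symm a := by
      rw [show (e.trans ε).symm = ε.symm.trans e.symm from rfl, glRe_trans', glRe_symm_l]
    rw [h2] at h1
    rw [h1, hf', glRe_symm_l]

theorem Bc.Cl_iso {B : BD F D v} {B' : BD F D v'} (h : B.Bc B') (ho : orb v = orb v')
    {κ : Type} [Fintype κ] [DecidableEq κ] (e : κ ≃ B.κ) (e' : κ ≃ B'.κ)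
    (π : Representation ℂ (GL κ F) U) (hc : B.Cl (reR F e.symm π)) :
    B'.Cl (reR F e'.symm π) := by
  obtain ⟨ε, f, hf, hφ⟩ := h
  refine B'.Cl_bij (e.trans ε) e' π ?_
  obtain ⟨w, hw, X, hX, p, hXs, hp, hpe⟩ := hc
  have hX' : Stab B'.W (X.map (f : B.V →ₗ[ℂ] B'.V)) := by
    rintro g _ ⟨x, hx, rfl⟩
    refine ⟨B.W (GLRep.glRe ε.symm g) x, hX _ x hx, ?_⟩
    show f (B.W (GLRep.glRe ε.symm g) x) = B'.W g (f x)
    rw [hf, glRe_symm']
  refine ⟨w, ho ▸ hw, X.map (f : B.V →ₗ[ℂ] B'.V), hX',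
    p ∘ₗ ((f.submoduleMap X).symm : X.map (f : B.V →ₗ[ℂ] B'.V) →ₗ[ℂ] X), ?_, ?_, ?_⟩
  · rintro _ ⟨x, hx, rfl⟩
    obtain ⟨h1, h2⟩ := hXs hx
    refine ⟨?_, fun k => ?_⟩
    · show (B'.φ (ew w)).1 (f x) = f x
      rw [← hφ, h1]
    · show (B'.φ (yk k)).1 (f x) = 0
      rw [← hφ, h2 k, map_zero]
  · exact hp.comp (f.submoduleMap X).symm.surjective
  · intro g x
    obtain ⟨x, rfl⟩ := (f.submoduleMap X).surjective x
    have h1 : subRep B'.W (X.map (f : B.V →ₗ[ℂ] B'.V)) hX' g (f.submoduleMap X x) =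
        f.submoduleMap X (subRep B.W X hX (GLRep.glRe ε.symm g) x) := by
      apply Subtype.ext
      show B'.W g (f x.1) = f (B.W (GLRep.glRe ε.symm g) x.1)
      rw [hf, glRe_symm']
    show p ((f.submoduleMap X).symm (subRep B'.W _ hX' g (f.submoduleMap X x))) =
      π (GLRep.glRe (e.trans ε).symm g) (p ((f.submoduleMap X).symm (f.submoduleMap X x)))
    rw [h1, LinearEquiv.symm_apply_apply, LinearEquiv.symm_apply_apply, hpe]
    have h2 : (e.trans ε).symm = ε.symm.trans e.symm := rfl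
    rw [h2, glRe_trans']
    rfl

theorem IsSoc.cl {B : BD F D v} {A : GLRep F} (h : B.IsSoc A) :
    ∃ e : A.κ ≃ B.κ, B.Cl (reR F e.symm A.π) ∧
      ∃ T : A.V ≃ₗ[ℂ] B.soc v, Equi (reR F e.symm A.π) (B.socR v) (T : A.V →ₗ[ℂ] B.soc v) := by
  obtain ⟨e, f, hf, hs, hE⟩ := h
  have hmem : ∀ y, f y ∈ B.soc v := fun y => (hs _).2 ⟨y, rfl⟩
  have hT : Equi (reR F e.symm A.π) (B.socR v)
      ((LinearEquiv.ofBijective (f.codRestrict (B.soc v) hmem)
        ⟨fun x y hxy => hf (congrArg Subtype.val hxy), fun x => by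
          obtain ⟨y, hy⟩ := (hs x.1).1 x.2
          exact ⟨y, Subtype.ext hy⟩⟩ : A.V ≃ₗ[ℂ] B.soc v) : A.V →ₗ[ℂ] B.soc v) := by
    intro g x
    apply Subtype.ext
    show f (A.π (GLRep.glRe e.symm g) x) = B.W g (f x)
    rw [hE, glRe_symm']
  exact ⟨e, B.Cl_iso _ _ _ (Conj_symm _ _ _ hT) (Cl_soc B v (orb_self v)), _, hT⟩

end BD

theorem orb_comp {D : Dat} {n : ℕ} (v : Wd D n) (σ : Equiv.Perm (Fin n)) :
    orb (v ∘ σ) = orb v := by
  ext w
  constructor
  · rintro ⟨τ, rfl⟩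
    exact ⟨τ.trans σ, rfl⟩
  · rintro ⟨τ, rfl⟩
    refine ⟨τ.trans σ.symm, funext fun i => ?_⟩
    simp

theorem orb_of_multiset {D : Dat} {n : ℕ} (v w : Wd D n)
    (h : (List.ofFn v : Multiset D.J) = (List.ofFn w : Multiset D.J)) :
    ∃ σ : Equiv.Perm (Fin n), w = v ∘ σ := by
  classical
  rw [← Fin.univ_val_map, ← Fin.univ_val_map] at h
  have h1 : ∀ j : D.J, Fintype.card {i // w i = j} = Fintype.card {i // v i = j} := by
    intro j
    have h2 := congrArg (Multiset.count j) h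
    rw [Multiset.count_map, Multiset.count_map] at h2
    rw [Fintype.card_subtype, Fintype.card_subtype, Finset.card, Finset.card, Finset.filter_val,
      Finset.filter_val]
    simp only [eq_comm (a := j)] at h2
    exact h2.symm
  refine ⟨Equiv.ofFiberEquiv (f := w) (g := v) fun j => Fintype.equivOfCardEq (h1 j),
    funext fun i => ?_⟩
  exact (Equiv.ofFiberEquiv_map _ i).symm

theorem multiset_of_orb {D : Dat} {n : ℕ} (v w : Wd D n) (h : w ∈ orb v) :
    (List.ofFn v : Multiset D.J) = (List.ofFn w : Multiset D.J) := by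
  obtain ⟨σ, rfl⟩ := h
  exact (Multiset.coe_eq_coe.2 (Equiv.Perm.ofFn_comp_perm σ v)).symm

end

end Pool.Agent.Lib.MP_ca1492_al.L
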