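import Mathlib
import Pool.Agent.Lib.MP_ca1492_al.Cat.Noeth
import Pool.Agent.Lib.MP_ca1492_al.L5.Defs
import Pool.Agent.Lib.MP_ca1492_al.PA.FBC

/-!
# MP_ca1492_al, L5/TrA: Ext of smooth representations and Ext over the KLR algebra, abstract form

`G` a topological group, `W` a smooth injective representation with actions of `R D n` and of the
power series as in `BD`.
-/

set_option autoImplicit false

namespace Pool.Agent.Lib.MP_ca1492_al.L

open Topology CA1492 CA1492.PA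
open CategoryTheory CategoryTheory.Abelian
open Pool.Agent.Lib.MP_ca1492_al.P Pool.Agent.Lib.MP_ca1492_al.Q

noncomputable section

section cklr

variable {D : Dat} {n : ℕ} {A A' : Type} [Ring A] [Algebra ℂ A] [Ring A'] [Algebra ℂ A']
  {φ : R D n →ₐ[ℂ] A} {θ : O n →ₐ[ℂ] A} {Ws : Set (Wd D n)}

/-- transport of `CKLR` -/
theorem TrA_cklr (e : A ≃ₐ[ℂ] A') (h : CKLR D n φ θ Ws) :
    CKLR D n ((e : A →ₐ[ℂ] A').comp φ) ((e : A →ₐ[ℂ] A').comp θ) Ws where
  θ_X k := by
    show e (θ _) = e (φ _)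
    rw [h.θ_X]
  θ_E f w := by
    show e (θ _) * e (φ _) = e (φ _) * e (θ _)
    rw [← map_mul, ← map_mul, h.θ_E]
  comm := by
    intro r hr f f' hf w
    show e (φ _) * e (θ _) * e (φ _) = e (θ _) * e (φ _) * e (φ _) +
      (if w ⟨r, by omega⟩ = w ⟨r + 1, hr⟩ then e (θ _) * e (φ _) else 0)
    have h1 := h.comm r hr f f' hf w
    beta_reduce at h1
    have h2 := congrArg e h1
    rw [map_add, map_mul, map_mul, map_mul, map_mul] at h2
    rw [h2]
    split_ifs
    · rw [map_mul]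
    · rw [map_zero]
  Ws_sw := h.Ws_sw
  E_out w hw := by
    show e (φ _) = 0
    rw [h.E_out w hw, map_zero]
  span a := by
    obtain ⟨f, hf⟩ := h.span (e.symm a)
    refine ⟨f, ?_⟩
    have h1 : a = e (e.symm a) := (e.apply_symm_apply a).symm
    rw [h1, hf, map_sum]
    refine Finset.sum_congr rfl fun p _ => ?_
    rw [map_sum]
    refine Finset.sum_congr rfl fun w _ => ?_
    rw [map_mul, map_mul]
    rfl
  uniq f hf := by
    refine h.uniq f (e.injective ?_)
    rw [map_zero, ← hf, map_sum]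
    refine Finset.sum_congr rfl fun p _ => ?_
    rw [map_sum]
    refine Finset.sum_congr rfl fun w _ => ?_
    rw [map_mul, map_mul]
    rfl

end cklr

variable {D : Dat} {n : ℕ} {G V : Type} [Group G] [TopologicalSpace G] [IsTopologicalGroup G]
  [AddCommGroup V] [Module ℂ V] {W : Representation ℂ G V}

/-- the faithfulness property for the words of Ws -/
def TrA_faith (φ : R D n →ₐ[ℂ] EndG W) (Ws : Set (Wd D n)) : Prop :=
  ∀ w ∈ Ws, ∀ (X : Submodule ℂ V) (hX : Stab W X),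
    (∀ x ∈ X, (φ (ew w)).1 x = x) → ∀ (U : Type) [AddCommGroup U] [Module ℂ U]
    (π : Representation ℂ G U) (p : X →ₗ[ℂ] U), Equi (subRep W X hX) π p →
    Function.Surjective p → (∃ u : U, u ≠ 0) → ∃ f : U →ₗ[ℂ] V, Equi π W f ∧ f ≠ 0

/-- finite families of maps with values in the e(w)W -/
theorem TrA_fam (hinj : IsInjSm W) (φ : R D n →ₐ[ℂ] EndG W) (Ws : Set (Wd D n))
    (hf : TrA_faith φ Ws) (N : ℕ) :
    ∀ (U : Type) [AddCommGroup U] [Module ℂ U] (π : Representation ℂ G U)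
      (f : Fin N → (U →ₗ[ℂ] V)) (_ : ∀ j, Equi π W (f j)) (w : Fin N → Wd D n)
      (_ : ∀ j, w j ∈ Ws) (_ : ∀ j u, (φ (ew (w j))).1 (f j u) = f j u)
      (_ : ∀ u, (∀ j, f j u = 0) → u = 0)
      (K : Type) [AddCommGroup K] [Module ℂ K] (κ : Representation ℂ G K) (_ : IsSm κ)
      (p : U →ₗ[ℂ] K) (_ : Equi π κ p) (_ : Function.Surjective p) (_ : ∃ u : K, u ≠ 0),
      ∃ g : K →ₗ[ℂ] V, Equi κ W g ∧ g ≠ 0 := by
  induction N with
  | zero =>
    intro U _ _ π f _ w _ _ hj K _ _ κ _ p _ hs h0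
    obtain ⟨u, hu⟩ := h0
    obtain ⟨u', rfl⟩ := hs u
    exact absurd (by rw [hj u' (fun j => j.elim0), map_zero]) hu
  | succ N ih =>
    intro U _ _ π f hfe w hw hfw hj K _ _ κ hκ p hp hs h0
    have hst : Stab π (LinearMap.ker (f (Fin.last N))) := ker_stab π W _ (hfe (Fin.last N))
    let U₁ : Submodule ℂ U := LinearMap.ker (f (Fin.last N))
    let K₁ : Submodule ℂ K := U₁.map p
    have hK₁ : Stab κ K₁ := by
      rintro g _ ⟨u, hu, rfl⟩
      exact ⟨π g u, hst g u hu, hp g u⟩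
    by_cases hK : ∃ u ∈ K₁, u ≠ 0
    · let p₁ : U₁ →ₗ[ℂ] K₁ := p.restrict (fun u hu => ⟨u, hu, rfl⟩)
      obtain ⟨u, hu, hu0⟩ := hK
      obtain ⟨g, hg, hg0⟩ := ih U₁ (subRep π U₁ hst)
        (fun j => f j.castSucc ∘ₗ U₁.subtype)
        (fun j a x => hfe j.castSucc a x.1) (fun j => w j.castSucc) (fun j => hw _)
        (fun j x => hfw j.castSucc x.1)
        (fun x hx => Subtype.ext (hj x.1 (fun j => Fin.lastCases x.2 hx j)))
        K₁ (subRep κ K₁ hK₁) (smooth_sub κ hκ K₁ hK₁) p₁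
        (fun a x => Subtype.ext (hp a x.1))
        (by
          rintro ⟨_, x, hx, rfl⟩
          exact ⟨⟨x, hx⟩, rfl⟩)
        ⟨⟨u, hu⟩, fun h => hu0 (congrArg Subtype.val h)⟩
      obtain ⟨F, hF1, hF2⟩ := hinj K κ hκ K₁ hK₁ g hg
      refine ⟨F, hF1, fun h => hg0 (LinearMap.ext fun x => ?_)⟩
      rw [← hF2 x, h]
      rfl
    · push Not at hK
      have hker : LinearMap.ker (f (Fin.last N)) ≤ LinearMap.ker p := by
        intro u hu
        exact hK (p u) ⟨u, hu, rfl⟩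
      let X : Submodule ℂ V := LinearMap.range (f (Fin.last N))
      have hX : Stab W X := range_stab π W _ (hfe _)
      let q : X →ₗ[ℂ] K := ((LinearMap.ker (f (Fin.last N))).liftQ p hker) ∘ₗ
        (f (Fin.last N)).quotKerEquivRange.symm.toLinearMap
      have hq : ∀ u, q ⟨f (Fin.last N) u, ⟨u, rfl⟩⟩ = p u := by
        intro u
        show ((LinearMap.ker (f (Fin.last N))).liftQ p hker)
          ((f (Fin.last N)).quotKerEquivRange.symm ⟨f (Fin.last N) u, ⟨u, rfl⟩⟩) = p u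
        have h1 : (f (Fin.last N)).quotKerEquivRange.symm ⟨f (Fin.last N) u, ⟨u, rfl⟩⟩ =
            (LinearMap.ker (f (Fin.last N))).mkQ u := by
          rw [LinearEquiv.symm_apply_eq]
          rfl
        rw [h1]
        rfl
      refine hf (w (Fin.last N)) (hw _) X hX ?_ K κ q ?_ ?_ h0
      · rintro _ ⟨u, rfl⟩
        exact hfw _ u
      · rintro a ⟨_, u, rfl⟩
        have h1 : (subRep W X hX a ⟨f (Fin.last N) u, ⟨u, rfl⟩⟩ : X) =
            ⟨f (Fin.last N) (π a u), ⟨π a u, rfl⟩⟩ := Subtype.ext (hfe (Fin.last N) a u).symm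
        rw [hq u]
        refine Eq.trans (congrArg q h1) ?_
        rw [hq, hp]
      · intro k
        obtain ⟨u, rfl⟩ := hs k
        exact ⟨_, hq u⟩

theorem TrA_fam' (hinj : IsInjSm W) (φ : R D n →ₐ[ℂ] EndG W) (Ws : Set (Wd D n))
    (hf : TrA_faith φ Ws) {J : Type} [Finite J]
    (U : Type) [AddCommGroup U] [Module ℂ U] (π : Representation ℂ G U)
    (f : J → (U →ₗ[ℂ] V)) (hfe : ∀ j, Equi π W (f j)) (w : J → Wd D n)
    (hw : ∀ j, w j ∈ Ws) (hfw : ∀ j u, (φ (ew (w j))).1 (f j u) = f j u)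
    (hj : ∀ u, (∀ j, f j u = 0) → u = 0)
    (K : Type) [AddCommGroup K] [Module ℂ K] (κ : Representation ℂ G K) (hκ : IsSm κ)
    (p : U →ₗ[ℂ] K) (hp : Equi π κ p) (hs : Function.Surjective p) (h0 : ∃ u : K, u ≠ 0) :
    ∃ g : K →ₗ[ℂ] V, Equi κ W g ∧ g ≠ 0 := by
  obtain ⟨N, ⟨e⟩⟩ := Finite.exists_equiv_fin J
  refine TrA_fam hinj φ Ws hf N U π (fun i => f (e.symm i)) (fun i => hfe _)
    (fun i => w (e.symm i)) (fun i => hw _) (fun i u => hfw _ u) ?_ K κ hκ p hp hs h0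
  intro u hu
  refine hj u fun j => ?_
  have := hu (e j)
  rwa [e.symm_apply_apply] at this

/-! ## morphisms of `SmRep` -/

/-- the linear map underlying a morphism -/
def lin {X Y : SmRep G} (f : X ⟶ Y) : X.obj →ₗ[ℂ] Y.obj := f.hom.hom.toLinearMap

theorem lin_equi {X Y : SmRep G} (f : X ⟶ Y) : Equi X.obj.ρ Y.obj.ρ (lin f) :=
  fun a v => Rep.hom_comm_apply f.hom a v

theorem lin_comp {X Y Z : SmRep G} (f : X ⟶ Y) (g : Y ⟶ Z) (x : X.obj) :
    lin (f ≫ g) x = lin g (lin f x) := rfl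

theorem lin_zero {X Y : SmRep G} (x : X.obj) : lin (0 : X ⟶ Y) x = 0 := rfl

theorem lin_add {X Y : SmRep G} (f g : X ⟶ Y) (x : X.obj) : lin (f + g) x = lin f x + lin g x :=
  rfl

theorem lin_ext {X Y : SmRep G} {f g : X ⟶ Y} (h : ∀ x, lin f x = lin g x) : f = g := by
  apply ObjectProperty.hom_ext
  apply Rep.hom_ext
  apply Representation.IntertwiningMap.ext
  exact LinearMap.ext h

theorem lin_mono {X Y : SmRep G} (f : X ⟶ Y) [hf : Mono f] : Function.Injective (lin f) := by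
  have hpm := (smP G).preservesMonomorphisms_ι_of_isNormalEpiCategory
  have h1 : Mono f.hom := hpm.preserves f
  exact (Rep.mono_iff_injective _).1 h1

theorem lin_epi {X Y : SmRep G} (f : X ⟶ Y) [hf : Epi f] : Function.Surjective (lin f) := by
  have hpm := (smP G).preservesEpimorphisms_ι_of_isNormalMonoCategory
  have h1 : Epi f.hom := hpm.preserves f
  exact (Rep.epi_iff_surjective _).1 h1

/-- a morphism from an equivariant map -/
def toSm {X Y : SmRep G} (f : X.obj →ₗ[ℂ] Y.obj) (hf : Equi X.obj.ρ Y.obj.ρ f) : X ⟶ Y :=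
  (smP G).homMk (Rep.ofHom (ρ := X.obj.ρ) (σ := Y.obj.ρ) ⟨f, fun g => LinearMap.ext fun v => hf g v⟩)

theorem lin_toSm {X Y : SmRep G} (f : X.obj →ₗ[ℂ] Y.obj) (hf : Equi X.obj.ρ Y.obj.ρ f)
    (x : X.obj) : lin (toSm f hf) x = f x := rfl

theorem isZero_of {K : SmRep G} (h : ∀ x : K.obj, x = 0) : Limits.IsZero K := by
  rw [Limits.IsZero.iff_id_eq_zero]
  exact lin_ext fun x => by rw [h x, map_zero, map_zero]

/-- morphisms `ofSm π ⟶ ofSm W` are the equivariant maps -/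
def homE {U : Type} [AddCommGroup U] [Module ℂ U] (π : Representation ℂ G U) (hπ : IsSm π)
    (sm : IsSm W) : homG π W ≃+ (ofSm π hπ ⟶ ofSm W sm) where
  toFun f := toSm (X := ofSm π hπ) (Y := ofSm W sm) f.1 f.2
  invFun g := ⟨lin g, lin_equi g⟩
  left_inv _ := rfl
  right_inv _ := lin_ext fun _ => rfl
  map_add' _ _ := lin_ext fun _ => rfl

/-- the ring of endomorphisms -/
def endE (sm : IsSm W) : EndG W ≃+* End (ofSm W sm) where
  toFun f := toSm (X := ofSm W sm) (Y := ofSm W sm) f.1 f.2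
  invFun g := ⟨lin g, lin_equi g⟩
  left_inv _ := rfl
  right_inv _ := lin_ext fun _ => rfl
  map_add' _ _ := lin_ext fun _ => rfl
  map_mul' _ _ := lin_ext fun _ => rfl

/-- the algebra structure transported -/
abbrev endA (sm : IsSm W) : Algebra ℂ (End (ofSm W sm)) :=
  RingHom.toAlgebra' (((endE sm : EndG W ≃+* End (ofSm W sm)) : EndG W →+* End (ofSm W sm)).comp
    (algebraMap ℂ (EndG W))) (by
      intro c x
      obtain ⟨y, rfl⟩ := (endE sm).surjective x
      show endE sm _ * endE sm _ = endE sm _ * endE sm _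
      rw [← map_mul, ← map_mul]
      exact congrArg (endE sm) (Algebra.commutes c y))

theorem endE_smul_homE {U : Type} [AddCommGroup U] [Module ℂ U] (π : Representation ℂ G U)
    (hπ : IsSm π) (sm : IsSm W) (a : EndG W) (f : homG π W)
    (h : Equi π W (a.1 ∘ₗ f.1)) :
    (endE sm a) • (homE π hπ sm f) = homE π hπ sm ⟨a.1 ∘ₗ f.1, h⟩ := rfl

theorem TrA_sq (sm : IsSm W) (inj : IsInjSm W) (φ : R D n →ₐ[ℂ] EndG W)
    (θ : O n →ₐ[ℂ] EndG W) (Ws : Set (Wd D n)) (cklr : CKLR D n φ θ Ws) (hf : TrA_faith φ Ws)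
    (K : SmRep G) (hK : Cat.SQ (ofSm W sm) K) (h0 : ∀ f : K ⟶ ofSm W sm, f = 0) :
    Limits.IsZero K := by
  obtain ⟨I, K', m, e, ⟨N, ι, π, hs⟩, hm, he⟩ := hK
  by_contra hne
  have hne' : ∃ u : K.obj, u ≠ 0 := by
    by_contra hcon
    push Not at hcon
    exact hne (isZero_of hcon)
  have hsum : ∑ w : Wd D n, φ (ew w) = 1 := by
    rw [← map_sum, (isRep_R D n).E_sum, map_one]
  have hmem : ∀ w : Wd D n, φ (ew w) * φ (ew w) = φ (ew w) := by
    intro w
    rw [← map_mul, (isRep_R D n).E_mul, if_pos rfl]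
  obtain ⟨g, hg, hg0⟩ := TrA_fam' (W := W) inj φ Ws hf (J := Fin N × {w : Wd D n // w ∈ Ws})
    K'.obj K'.obj.ρ (fun j => (φ (ew j.2.1)).1 ∘ₗ lin (m ≫ π j.1))
    (fun j a x => by
      show (φ (ew j.2.1)).1 (lin (m ≫ π j.1) (K'.obj.ρ a x)) = W a _
      have h1 : lin (m ≫ π j.1) (K'.obj.ρ a x) = W a (lin (m ≫ π j.1) x) :=
        lin_equi (m ≫ π j.1) a x
      rw [h1]
      exact (φ (ew j.2.1)).2 a _)
    (fun j => j.2.1) (fun j => j.2.2)
    (fun j x => by
      show (φ (ew j.2.1)).1 ((φ (ew j.2.1)).1 _) = (φ (ew j.2.1)).1 _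
      have h1 := congrArg (fun z : EndG W => z.1 (lin (m ≫ π j.1) x)) (hmem j.2.1)
      exact h1)
    (fun x hx => by
      have h1 : ∀ k, lin (m ≫ π k) x = 0 := by
        intro k
        have h2 : (∑ w : Wd D n, φ (ew w)).1 (lin (m ≫ π k) x) = lin (m ≫ π k) x := by
          rw [hsum]
          rfl
        rw [← h2, AddSubmonoidClass.coe_finset_sum, LinearMap.sum_apply]
        refine Finset.sum_eq_zero fun w _ => ?_
        by_cases hw : w ∈ Ws
        · exact hx (k, ⟨w, hw⟩)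
        · rw [cklr.E_out w hw]
          rfl
      -- the subrepresentation of the common kernel
      let T : Submodule ℂ K'.obj := ⨅ k, LinearMap.ker (lin (m ≫ π k))
      have hT : Stab K'.obj.ρ T := by
        intro a y hy
        simp only [T, Submodule.mem_iInf, LinearMap.mem_ker] at hy ⊢
        intro k
        have h2 := lin_equi (m ≫ π k) a y
        rw [h2, hy k, map_zero]
      let i : ofSm (subRep K'.obj.ρ T hT) (smooth_sub K'.obj.ρ K'.property T hT) ⟶ K' :=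
        toSm (X := ofSm (subRep K'.obj.ρ T hT) (smooth_sub K'.obj.ρ K'.property T hT))
          T.subtype (fun _ _ => rfl)
      have h3 : ∀ k, i ≫ m ≫ π k = 0 := by
        intro k
        refine lin_ext fun y => ?_
        have hy := y.2
        simp only [T, Submodule.mem_iInf, LinearMap.mem_ker] at hy
        exact hy k
      have h4 : i ≫ m = 0 := by
        have h5 : (i ≫ m) ≫ 𝟙 I = 0 := by
          rw [← hs, Preadditive.comp_sum]
          refine Finset.sum_eq_zero fun k _ => ?_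
          rw [← Category.assoc, Category.assoc i m, h3 k, Limits.zero_comp]
        rwa [Category.comp_id] at h5
      have h6 : i = 0 := by
        rw [← cancel_mono m, h4, Limits.zero_comp]
      have hxT : x ∈ T := by
        simp only [T, Submodule.mem_iInf, LinearMap.mem_ker]
        exact h1
      have h7 : lin i ⟨x, hxT⟩ = 0 := by
        rw [h6]
        rfl
      exact h7)
    K.obj K.obj.ρ K.property (lin e) (lin_equi e) (lin_epi e) hne'
  refine hg0 (LinearMap.ext fun x => ?_)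
  have h8 := h0 (toSm (X := K) (Y := ofSm W sm) g hg)
  have h9 := congrArg (fun z : K ⟶ ofSm W sm => lin z x) h8
  exact h9

theorem tr_abs (sm : IsSm W) (inj : IsInjSm W) (φ : R D n →ₐ[ℂ] EndG W)
    (θ : O n →ₐ[ℂ] EndG W) (Ws : Set (Wd D n)) (cklr : CKLR D n φ θ Ws) (hf : TrA_faith φ Ws)
    {U₁ U₂ : Type} [AddCommGroup U₁] [Module ℂ U₁] [AddCommGroup U₂] [Module ℂ U₂]
    (π₁ : Representation ℂ G U₁) (π₂ : Representation ℂ G U₂) (h₁ : IsSm π₁) (h₂ : IsSm π₂)
    (hpos : ∀ (K : Type) [AddCommGroup K] [Module ℂ K] (κ : Representation ℂ G K)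
      (i : K →ₗ[ℂ] U₂), Equi κ π₂ i → Function.Injective i → (∃ u : K, u ≠ 0) →
      ∃ g : K →ₗ[ℂ] V, Equi κ W g ∧ g ≠ 0)
    (hfin : Module.Finite ℂ (homG π₂ W))
    (hnil : ∃ K : ℕ, ∀ d : Fin n →₀ ℕ, K ≤ d.degree → ∀ f : homG π₂ W,
      (θ (MvPowerSeries.monomial d (1 : ℂ))).1 ∘ₗ f.1 = 0)
    (M₁ M₂ : ModuleCat.{0} (R D n)) (e₁ : M₁ ≃+ homG π₁ W) (e₂ : M₂ ≃+ homG π₂ W)
    (he₁ : ∀ (r : R D n) (x : M₁), (e₁ (r • x)).1 = (φ r).1 ∘ₗ (e₁ x).1)
    (he₂ : ∀ (r : R D n) (x : M₂), (e₂ (r • x)).1 = (φ r).1 ∘ₗ (e₂ x).1) (i : ℕ) :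
    letI := HasExt.standard (SmRep G)
    (Subsingleton (Ext.{1} (ofSm π₁ h₁) (ofSm π₂ h₂) i) ↔ Subsingleton (Ext.{0} M₂ M₁ i)) := by
  letI := HasExt.standard (SmRep G)
  letI := endA (W := W) sm
  have hI : Injective (ofSm W sm) := injective_of_isInjSm W sm inj
  let E : EndG W ≃ₐ[ℂ] End (ofSm W sm) := AlgEquiv.ofRingEquiv (f := endE sm) (fun c => rfl)
  have ck := TrA_cklr E cklr
  have hno : IsNoetherianRing (End (ofSm W sm)) := noeth ck
  have hfg : Module.Finite (End (ofSm W sm)) (ofSm π₂ h₂ ⟶ ofSm W sm) := by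
    obtain ⟨s, hs⟩ := hfin.fg_top
    classical
    refine ⟨⟨s.image (homE π₂ h₂ sm), ?_⟩⟩
    rw [eq_top_iff]
    intro g _
    obtain ⟨f, rfl⟩ := (homE π₂ h₂ sm).surjective g
    have hfs : f ∈ Submodule.span ℂ (s : Set (homG π₂ W)) := by
      rw [hs]
      trivial
    induction hfs using Submodule.span_induction with
    | mem x hx =>
      refine Submodule.subset_span ?_
      rw [Finset.coe_image]
      exact ⟨x, hx, rfl⟩
    | zero => rw [map_zero]; exact Submodule.zero_mem _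
    | add x y _ _ hx hy => rw [map_add]; exact Submodule.add_mem _ (hx trivial) (hy trivial)
    | smul c x _ hx =>
      have h3 : homE π₂ h₂ sm (c • x) = (endE sm (algebraMap ℂ (EndG W) c)) • homE π₂ h₂ sm x := by
        refine lin_ext fun u => ?_
        show (c • x).1 u = (algebraMap ℂ (EndG W) c).1 (x.1 u)
        rfl
      rw [h3]
      exact Submodule.smul_mem _ _ (hx trivial)
  have key := Cat.transfer_main.{1, 0} (ofSm W sm)
    (fun K hK h0 => TrA_sq sm inj φ θ Ws cklr hf K hK h0) (ofSm π₁ h₁) (ofSm π₂ h₂) hfg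
    (fun K i hi h0 => by
      by_contra hne
      have hne' : ∃ u : K.obj, u ≠ 0 := by
        by_contra hcon
        push Not at hcon
        exact hne (isZero_of hcon)
      obtain ⟨g, hg, hg0⟩ := hpos K.obj K.obj.ρ (lin i) (lin_equi i) (lin_mono i) hne'
      refine hg0 (LinearMap.ext fun x => ?_)
      have h8 := h0 (toSm (X := K) (Y := ofSm W sm) g hg)
      exact congrArg (fun z : K ⟶ ofSm W sm => lin z x) h8) i
  rw [key]
  refine fbc ck (Cat.EE (ofSm W sm) (ofSm π₂ h₂)) (Cat.EE (ofSm W sm) (ofSm π₁ h₁)) M₂ M₁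
    (e₂.trans (homE π₂ h₂ sm)) (e₁.trans (homE π₁ h₁ sm)) ?_ ?_ ?_ i
  · intro r x
    refine lin_ext (X := ofSm π₂ h₂) (Y := ofSm W sm) fun u => ?_
    show (e₂ (r • x)).1 u = (φ r).1 ((e₂ x).1 u)
    rw [he₂]
    rfl
  · intro r x
    refine lin_ext (X := ofSm π₁ h₁) (Y := ofSm W sm) fun u => ?_
    show (e₁ (r • x)).1 u = (φ r).1 ((e₁ x).1 u)
    rw [he₁]
    rfl
  · obtain ⟨K, hK⟩ := hnil
    refine ⟨K, fun d hd x => ?_⟩
    obtain ⟨f, rfl⟩ := (homE π₂ h₂ sm).surjective x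
    refine lin_ext (X := ofSm π₂ h₂) (Y := ofSm W sm) fun u => ?_
    exact LinearMap.congr_fun (hK d hd f) u

end

end Pool.Agent.Lib.MP_ca1492_al.L
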