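import Mathlib
import Pool.Agent.Lib.MP_ca1492_al.L5.Conj
import Pool.Agent.Lib.MP_ca1492_al.L5.TrA

/-!
# MP_ca1492_al, L5/Tr: Ext of representations and Ext over the KLR algebra

* `tr`: let 𝒲 = ofSm B.W B.sm, an injective object of SmRep (`BD.inj`; monomorphisms of SmRep are
  injective). The ring `End 𝒲` is isomorphic to `EndG B.W`; so `End 𝒲` is noetherian (PA/LSpan `noeth`,
  B.cklr) and CKLR holds for it. Hypothesis h2 of `transfer_main`: a subquotient K ≠ 0 of a finite power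
  of 𝒲 (of a summand of it) has a nonzero map to 𝒲: W is the finite direct sum of the
  e(w)W, w ∈ orb v (`E_out`, `ew_facts`); K = X / Y, Y ≤ X ≤ ⨁_j e(w_j) W; take the smallest j such that
  X_j = X ∩ (first j summands) is not contained in Y; X_j / (X_j ∩ Y) embeds in K and is a quotient of the
  image of X_j in e(w_j)W (X_{j-1} ≤ Y), so `BD.faith` gives a nonzero map, which extends to K (injectivity).
  Subobjects K of Y = ofSm π₂ with no nonzero maps to 𝒲 are zero: K ∈ Cl (`Cl.sub`), `Cl.pos`. hfg: finite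
  dimensional (`Cl.fin`). Then `fbc` (PA/FBC) with A = End 𝒲, M = EE 𝒲 Y, N = EE 𝒲 X, M' = B.H π₂,
  N' = B.H π₁, hnil from `nil_of_finite`.
-/

set_option autoImplicit false

namespace Pool.Agent.Lib.MP_ca1492_al.L

open Topology Matrix TensorProduct ValuativeRel CA1492 CA1492.PA
open CategoryTheory CategoryTheory.Abelian
open Pool.Agent.Lib.MP_ca1492_al.P Pool.Agent.Lib.MP_ca1492_al.Q

noncomputable section

variable {F : Type} [Field F] [ValuativeRel F] [TopologicalSpace F]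
  [IsNonarchimedeanLocalField F]

namespace BD

variable {D : Dat} {n : ℕ} {v : Wd D n} (B : BD F D v)

theorem Tr_pos {U : Type} [AddCommGroup U] [Module ℂ U]
    (π : Representation ℂ (GL B.κ F) U) (hc : B.Cl π) (K : Type) [AddCommGroup K] [Module ℂ K]
    (κ : Representation ℂ (GL B.κ F) K) (i : K →ₗ[ℂ] U) (hi : Equi κ π i)
    (hj : Function.Injective i) (h0 : ∃ u : K, u ≠ 0) :
    ∃ g : K →ₗ[ℂ] B.V, Equi κ B.W g ∧ g ≠ 0 := by
  obtain ⟨f, hf⟩ := Cl.pos B (Cl.sub B hc i hi hj) h0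
  exact ⟨f.1, f.2, fun h => hf (Subtype.ext h)⟩

theorem tr {U₁ U₂ : Type} [AddCommGroup U₁] [Module ℂ U₁] [AddCommGroup U₂] [Module ℂ U₂]
    (π₁ : Representation ℂ (GL B.κ F) U₁) (π₂ : Representation ℂ (GL B.κ F) U₂)
    (h₁ : IsSm π₁) (h₂ : IsSm π₂) (hc : B.Cl π₂) (hf : Module.Finite ℂ (B.H π₁).V) (i : ℕ) :
    letI := HasExt.standard (SmRep (GL B.κ F))
    (Subsingleton (Ext.{1} (ofSm π₁ h₁) (ofSm π₂ h₂) i) ↔
      Subsingleton (Ext.{0} (ModuleCat.of (R D n) (B.H π₂).V)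
        (ModuleCat.of (R D n) (B.H π₁).V) i)) := by
  have hfin : Module.Finite ℂ (B.H π₂).V := Cl.fin B hc
  exact tr_abs B.sm B.inj B.φ B.θ (orb v) B.cklr B.faith π₁ π₂ h₁ h₂
    (fun K _ _ κ i hi hj h0 => B.Tr_pos π₂ hc K κ i hi hj h0) hfin (B.H_nil π₂)
    (ModuleCat.of (R D n) (B.H π₁).V) (ModuleCat.of (R D n) (B.H π₂).V)
    (AddEquiv.refl _) (AddEquiv.refl _) (fun _ _ => rfl) (fun _ _ => rfl) i

/-- the equality of the algebras of endomorphisms -/
def Tr_end {κ' : Type} [Fintype κ'] [DecidableEq κ'] (e : κ' ≃ B.κ) :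
    EndG B.W ≃ₐ[ℂ] EndG (reR F e B.W) :=
  Subalgebra.equivOfEq _ _ (by
    ext f
    constructor
    · intro h g x
      exact h (GLRep.glRe e g) x
    · intro h g x
      have h1 := h (GLRep.glRe e.symm g) x
      rw [reR_apply, glRe_symm'] at h1
      exact h1)

/-- PROOF: the block datum on `GL κ' F` with W' = reR e B.W (same V); apply `tr` to it (H and Cl are
literally the same sets of linear maps for B' and reR e.symm π). -/
theorem tr_re {κ' : Type} [Fintype κ'] [DecidableEq κ'] (e : κ' ≃ B.κ) {U₁ U₂ : Type}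
    [AddCommGroup U₁] [Module ℂ U₁] [AddCommGroup U₂] [Module ℂ U₂]
    (π₁ : Representation ℂ (GL κ' F) U₁) (π₂ : Representation ℂ (GL κ' F) U₂)
    (h₁ : IsSm π₁) (h₂ : IsSm π₂) (hc : B.Cl (reR F e.symm π₂))
    (hf : Module.Finite ℂ (B.H (reR F e.symm π₁)).V) (i : ℕ) :
    letI := HasExt.standard (SmRep (GL κ' F))
    (Subsingleton (Ext.{1} (ofSm π₁ h₁) (ofSm π₂ h₂) i) ↔
      Subsingleton (Ext.{0} (ModuleCat.of (R D n) (B.H (reR F e.symm π₂)).V)
        (ModuleCat.of (R D n) (B.H (reR F e.symm π₁)).V) i)) := by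
  have hfin : Module.Finite ℂ (B.H (reR F e.symm π₂)).V := Cl.fin B hc
  -- equivariance over GL κ' and over GL κ
  have hE : ∀ {U : Type} [AddCommGroup U] [Module ℂ U] (π : Representation ℂ (GL κ' F) U)
      (f : U →ₗ[ℂ] B.V), Equi π (reR F e B.W) f ↔ Equi (reR F e.symm π) B.W f := by
    intro U _ _ π f
    constructor
    · intro h g x
      have h1 := h (GLRep.glRe e.symm g) x
      rw [reR_apply, glRe_symm'] at h1
      exact h1
    · intro h g x
      have h1 := h (GLRep.glRe e g) x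
      rw [reR_apply, glRe_symm_l] at h1
      exact h1
  have hHom : ∀ {U : Type} [AddCommGroup U] [Module ℂ U] (π : Representation ℂ (GL κ' F) U),
      homG (reR F e.symm π) B.W = homG π (reR F e B.W) := by
    intro U _ _ π
    ext f
    exact (hE π f).symm
  have hSt : ∀ X : Submodule ℂ B.V, Stab (reR F e B.W) X → Stab B.W X := by
    intro X hX g x hx
    have h1 := hX (GLRep.glRe e.symm g) x hx
    rw [reR_apply, glRe_symm'] at h1
    exact h1
  refine tr_abs (W := reR F e B.W) (reR_sm e B.W B.sm) ?_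
    (((B.Tr_end e : EndG B.W ≃ₐ[ℂ] EndG (reR F e B.W)) : EndG B.W →ₐ[ℂ] _).comp B.φ)
    (((B.Tr_end e : EndG B.W ≃ₐ[ℂ] EndG (reR F e B.W)) : EndG B.W →ₐ[ℂ] _).comp B.θ)
    (orb v) (TrA_cklr (B.Tr_end e) B.cklr) ?_ π₁ π₂ h₁ h₂ ?_ ?_ ?_
    (ModuleCat.of (R D n) (B.H (reR F e.symm π₁)).V)
    (ModuleCat.of (R D n) (B.H (reR F e.symm π₂)).V)
    (LinearEquiv.ofEq _ _ (hHom π₁)).toAddEquiv (LinearEquiv.ofEq _ _ (hHom π₂)).toAddEquiv
    (fun _ _ => rfl) (fun _ _ => rfl) i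
  · -- injectivity
    intro E _ _ π hπ X hX f hf'
    have hX' : Stab (reR F e.symm π) X := fun g x hx => hX (GLRep.glRe e.symm g) x hx
    obtain ⟨F', h1, h2⟩ := B.inj E (reR F e.symm π) (reR_sm e.symm π hπ) X hX' f
      ((hE (subRep π X hX) f).1 hf')
    exact ⟨F', (hE π F').2 h1, h2⟩
  · -- faithfulness
    intro w hw X hX hx U _ _ π p hp hs h0
    obtain ⟨f, h1, h2⟩ := B.faith w hw X (hSt X hX) hx U (reR F e.symm π) p (by
      intro g x
      have h1 := hp (GLRep.glRe e.symm g) x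
      rw [reR_apply, ← h1]
      congr 1
      refine Subtype.ext ?_
      show B.W g x.1 = B.W (GLRep.glRe e (GLRep.glRe e.symm g)) x.1
      rw [glRe_symm']) hs h0
    exact ⟨f, (hE π f).2 h1, h2⟩
  · intro K _ _ κ i hi hj h0
    obtain ⟨g, h1, h2⟩ := B.Tr_pos (reR F e.symm π₂) hc K (reR F e.symm κ) i
      (fun g x => hi (GLRep.glRe e.symm g) x) hj h0
    exact ⟨g, (hE κ g).2 h1, h2⟩
  · rw [← hHom π₂]
    exact hfin
  · obtain ⟨K, hK⟩ := B.H_nil (reR F e.symm π₂)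
    exact ⟨K, fun d hd f => hK d hd ⟨f.1, (hE π₂ f.1).1 f.2⟩⟩

end BD

end

end Pool.Agent.Lib.MP_ca1492_al.L
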