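import Mathlib
import Pool.Agent.Lib.MP_ca1492_al.L5.Sep
import Pool.Agent.Lib.MP_ca1492_al.L5.Tr

/-!
# MP_ca1492_al, L5/FExt: the fields ext and ext_wt of Link

* `ext_riso`: isomorphic modules have the same Ext (`CA1492.Cat.ext_iso`).
* `fext`: RelS gives v₁, e₁ : Fin N ≃ (S.B v₁).κ and v₂, e₂. If the words v₁, v₂ have different multisets
  of letters: `sep` with the set orb v₂ (ew w acts by 0 on H for w ∉ orb v: `E_out`) contradicts the
  hypothesis. Otherwise v₂ = v₁ ∘ σ (`orb_of_multiset`), `Sys.bc`, `Bc.H_iso`, `Bc.Cl_iso` (the inverse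
  direction: Bc is symmetric): H and Cl of π₂ for S.B v₁ and the bijection e₁; then `tr_re` for B = S.B v₁,
  e = e₁ (`Cl.fin` for π₁).
* `fext_wt`: Ext(π₁, π₂) ≠ 0. If the multisets of v₁, v₂ are different, then H of π₁ for S.B v₂, e₂ is zero:
  π₁ is a quotient of a stable X ≤ (S.B v₁).V (transported); an equivariant map π₁ → (S.B v₂).W gives
  X → (S.B v₂).V equivariant along a bijection of the index sets, which extends to (S.B v₁).V
  (`BD.inj` of S.B v₂ for the transported representation), so it is 0 by `Sys.orth`. `tr_re` for S.B v₂, e₂: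
  all Ext(π₁, π₂) vanish (Ext over R D n with a zero module), contradiction. So the multisets agree. π₁ and π₂
  are nonzero (Ext of a zero object vanishes: `Ext.subsingleton` or `tr_re`), `Cl.pos` gives f ≠ 0 in
  H, f = ∑ w, ew w • f (`ew_facts`), so some ew w • f ≠ 0, w ∈ orb v_i (`E_out`), and the multiset of
  w is that of v_i (`multiset_of_orb`). Transport by RIso.
-/

set_option autoImplicit false

namespace Pool.Agent.Lib.MP_ca1492_al.L

open Topology Matrix TensorProduct ValuativeRel CA1492 CA1492.PA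
open CategoryTheory CategoryTheory.Abelian
open Pool.Agent.Lib.MP_ca1492_al.P Pool.Agent.Lib.MP_ca1492_al.Q

noncomputable section

variable {F : Type} [Field F] [ValuativeRel F] [TopologicalSpace F]
  [IsNonarchimedeanLocalField F]

variable {D : Dat} {ρ : D.J → GLRep F} (S : Sys D ρ)

theorem ext_riso {n : ℕ} {M M' N N' : RMod D n} (h : RIso M M') (h' : RIso N N') (i : ℕ) :
    Subsingleton (Ext.{0} (ModuleCat.of (R D n) M.V) (ModuleCat.of (R D n) N.V) i) ↔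
      Subsingleton (Ext.{0} (ModuleCat.of (R D n) M'.V) (ModuleCat.of (R D n) N'.V) i) := by
  obtain ⟨e⟩ := h
  obtain ⟨e'⟩ := h'
  exact ⟨CA1492.Cat.ext_iso e.toModuleIso e'.toModuleIso i,
    CA1492.Cat.ext_iso e.toModuleIso.symm e'.toModuleIso.symm i⟩

/-- Ext of an object whose identity is zero -/
theorem FExt_zero_left {C : Type*} [Category* C] [Abelian C] [HasExt C] {X Y : C}
    (h : 𝟙 X = 0) (i : ℕ) : Subsingleton (Ext X Y i) := by
  refine ⟨fun a b => ?_⟩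
  have key : ∀ a : Ext X Y i, a = 0 := by
    intro a
    have h1 := Ext.mk₀_id_comp a
    rw [h, Ext.mk₀_zero, Ext.zero_comp] at h1
    exact h1.symm
  rw [key a, key b]

theorem FExt_zero_right {C : Type*} [Category* C] [Abelian C] [HasExt C] {X Y : C}
    (h : 𝟙 Y = 0) (i : ℕ) : Subsingleton (Ext X Y i) := by
  refine ⟨fun a b => ?_⟩
  have key : ∀ a : Ext X Y i, a = 0 := by
    intro a
    have h1 := Ext.comp_mk₀_id a
    rw [h, Ext.mk₀_zero, Ext.comp_zero] at h1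
    exact h1.symm
  rw [key a, key b]

/-- the idempotents outside the orbit act by zero -/
theorem FExt_out {n : ℕ} {v : Wd D n} (B : BD F D v) {U : Type} [AddCommGroup U] [Module ℂ U]
    (π : Representation ℂ (GL B.κ F) U) (M : RMod D n) (h : RIso M (B.H π)) (w : Wd D n)
    (hw : w ∉ orb v) (x : M.V) : (ew w : R D n) • x = 0 := by
  obtain ⟨e⟩ := h
  apply e.injective
  rw [map_smul, map_zero]
  apply Subtype.ext
  rw [B.H_smul, B.cklr.E_out w hw]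
  rfl

/-- a nonzero representation in the class has a nonzero weight space -/
theorem FExt_pos {n : ℕ} {v : Wd D n} (B : BD F D v) {U : Type} [AddCommGroup U] [Module ℂ U]
    (π : Representation ℂ (GL B.κ F) U) (hc : B.Cl π) (hU : ∃ u : U, u ≠ 0) (M : RMod D n)
    (h : RIso M (B.H π)) : ∃ w : Wd D n, (∃ x : M.V, (ew w : R D n) • x ≠ 0) ∧
      (List.ofFn v : Multiset D.J) = (List.ofFn w : Multiset D.J) := by
  obtain ⟨f, hf⟩ := BD.Cl.pos B hc hU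
  have h1 : f = ∑ w : Wd D n, (ew w : R D n) • f := by
    rw [← Finset.sum_smul, ew_facts.2.1, one_smul]
  obtain ⟨w, -, hw⟩ : ∃ w ∈ (Finset.univ : Finset (Wd D n)), (ew w : R D n) • f ≠ 0 := by
    refine Finset.exists_ne_zero_of_sum_ne_zero ?_
    rw [← h1]
    exact hf
  have hwo : w ∈ orb v := by
    by_contra hn
    exact hw (FExt_out B π (B.H π) (RIso.refl _) w hn f)
  obtain ⟨e⟩ := h
  refine ⟨w, ⟨e.symm f, fun h2 => hw ?_⟩, multiset_of_orb v w hwo⟩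
  have h3 := congrArg e h2
  rw [map_smul, e.apply_symm_apply, map_zero] at h3
  exact h3

theorem FExt_bc_symm {n : ℕ} {v v' : Wd D n} {B : BD F D v} {B' : BD F D v'} (h : B.Bc B') :
    B'.Bc B := by
  obtain ⟨ε, f, hf, hφ⟩ := h
  refine ⟨ε.symm, f.symm, fun g x => ?_, fun a x => ?_⟩
  · rw [LinearEquiv.symm_apply_eq, hf, f.apply_symm_apply, glRe_symm']
  · rw [LinearEquiv.symm_apply_eq, hφ, f.apply_symm_apply]

theorem fext (n N : ℕ) (V₁ V₂ : Type) [AddCommGroup V₁] [Module ℂ V₁] [AddCommGroup V₂]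
    [Module ℂ V₂] (π₁ : Representation ℂ (GL (Fin N) F) V₁)
    (π₂ : Representation ℂ (GL (Fin N) F) V₂) (h₁ : IsSm π₁) (h₂ : IsSm π₂) (M₁ M₂ : RMod D n)
    (hr₁ : RelS S n ⟨Fin N, V₁, π₁⟩ M₁) (hr₂ : RelS S n ⟨Fin N, V₂, π₂⟩ M₂)
    (h : ∃ i, Nontrivial (Ext.{0} (ModuleCat.of (R D n) M₂.V)
      (ModuleCat.of (R D n) M₁.V) i)) :
    letI := HasExt.standard (SmRep (GL (Fin N) F))
    ∃ i, Nontrivial (Ext.{1} (ofSm π₁ h₁) (ofSm π₂ h₂) i) := by
  obtain ⟨v₁, e₁, hc₁, hi₁⟩ := hr₁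
  obtain ⟨v₂, e₂, hc₂, hi₂⟩ := hr₂
  obtain ⟨i, hi⟩ := h
  by_cases hm : (List.ofFn v₁ : Multiset D.J) = (List.ofFn v₂ : Multiset D.J)
  · obtain ⟨σ, rfl⟩ := orb_of_multiset v₁ v₂ hm
    have hb := S.bc v₁ σ
    have hc := BD.Bc.Cl_iso (FExt_bc_symm hb) (orb_comp v₁ σ) e₂ e₁ π₂ hc₂
    have hH := BD.Bc.H_iso hb e₁ e₂ π₂
    refine ⟨i, ?_⟩
    letI := HasExt.standard (SmRep (GL (Fin N) F))
    rw [← not_subsingleton_iff_nontrivial] at hi ⊢
    intro hs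
    refine hi ((ext_riso (hi₂.trans hH.symm) hi₁ i).2 ?_)
    exact (BD.tr_re (S.B v₁) e₁ π₁ π₂ h₁ h₂ hc (BD.Cl.fin (S.B v₁) hc₁) i).1 hs
  · exfalso
    rw [← not_subsingleton_iff_nontrivial] at hi
    refine hi (sep (orb v₂) ?_ M₂ M₁ (fun w hw x => FExt_out (S.B v₂) _ M₂ hi₂ w hw x)
      (fun w hw x => FExt_out (S.B v₁) _ M₁ hi₁ w (fun hw1 => hm ?_) x) i)
    · rintro w ⟨σ, rfl⟩ r
      exact ⟨(sw n r).trans σ, rfl⟩
    · rw [multiset_of_orb v₁ w hw1, multiset_of_orb v₂ w hw]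

/-- orthogonality for a representation in the class -/
theorem FExt_orth {m n : ℕ} {v₁ : Wd D m} {v₂ : Wd D n} (B₁ : BD F D v₁) (B₂ : BD F D v₂)
    (ho : B₁.Orth B₂) {κ U : Type} [Fintype κ] [DecidableEq κ] [AddCommGroup U] [Module ℂ U]
    (π : Representation ℂ (GL κ F) U) (e₁ : κ ≃ B₁.κ) (e₂ : κ ≃ B₂.κ)
    (hc : B₁.Cl (reR F e₁.symm π)) (f : (B₂.H (reR F e₂.symm π)).V) : f = 0 := by
  obtain ⟨w, -, X, hX, p, -, hp, hpe⟩ := hc
  have hε : ∀ g : GL B₁.κ F, GLRep.glRe (F := F) e₂.symm (GLRep.glRe (e₁.symm.trans e₂) g) =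
      GLRep.glRe e₁.symm g := by
    intro g
    rw [glRe_trans', glRe_symm_l]
  have hf : ∀ (g : GL B₁.κ F) (u : U), f.1 (π (GLRep.glRe e₁.symm g) u) =
      B₂.W (GLRep.glRe (e₁.symm.trans e₂) g) (f.1 u) := by
    intro g u
    have h1 : f.1 (π (GLRep.glRe e₂.symm (GLRep.glRe (e₁.symm.trans e₂) g)) u) =
        B₂.W (GLRep.glRe (e₁.symm.trans e₂) g) (f.1 u) :=
      f.2 (GLRep.glRe (e₁.symm.trans e₂) g) u
    rw [hε] at h1
    exact h1
  have hX' : Stab (reR F (e₁.symm.trans e₂).symm B₁.W) X := fun g x hx => hX _ x hx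
  obtain ⟨Φ, hΦ, hΦX⟩ := B₂.inj B₁.V (reR F (e₁.symm.trans e₂).symm B₁.W)
    (reR_sm _ _ B₁.sm) X hX' (f.1 ∘ₗ p) (by
      intro g x
      have h1 : p (subRep B₁.W X hX (GLRep.glRe (e₁.symm.trans e₂).symm g) x) =
          π (GLRep.glRe e₁.symm (GLRep.glRe (e₁.symm.trans e₂).symm g)) (p x) :=
        hpe (GLRep.glRe (e₁.symm.trans e₂).symm g) x
      show f.1 (p (subRep B₁.W X hX (GLRep.glRe (e₁.symm.trans e₂).symm g) x)) =
        B₂.W g (f.1 (p x))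
      rw [h1, hf, glRe_symm'])
  have h0 : Φ = 0 := by
    refine ho (e₁.symm.trans e₂) Φ fun g x => ?_
    have h1 : Φ (B₁.W (GLRep.glRe (e₁.symm.trans e₂).symm
        (GLRep.glRe (e₁.symm.trans e₂) g)) x) =
        B₂.W (GLRep.glRe (e₁.symm.trans e₂) g) (Φ x) := hΦ (GLRep.glRe (e₁.symm.trans e₂) g) x
    rw [glRe_symm_l] at h1
    exact h1
  refine Subtype.ext (LinearMap.ext fun u => ?_)
  obtain ⟨x, rfl⟩ := hp u
  have h2 := hΦX x
  rw [h0, LinearMap.zero_apply, LinearMap.comp_apply] at h2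
  exact h2.symm

theorem FExt_id {G V : Type} [Group G] [TopologicalSpace G] [IsTopologicalGroup G]
    [AddCommGroup V] [Module ℂ V] (π : Representation ℂ G V) (h : IsSm π)
    (h0 : ∀ v : V, v = 0) : 𝟙 (ofSm π h) = 0 := by
  have h1 : 𝟙 (ofSm π h) = homSm π h π h LinearMap.id (fun _ _ => rfl) := rfl
  have h2 : (0 : ofSm π h ⟶ ofSm π h) = homSm π h π h 0 (fun g v => by
    rw [LinearMap.zero_apply, LinearMap.zero_apply, map_zero]) := rfl
  rw [h1, h2]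
  congr 1
  exact LinearMap.ext fun v => h0 v

theorem fext_wt (n₁ n₂ N : ℕ) (V₁ V₂ : Type) [AddCommGroup V₁] [Module ℂ V₁] [AddCommGroup V₂]
    [Module ℂ V₂] (π₁ : Representation ℂ (GL (Fin N) F) V₁)
    (π₂ : Representation ℂ (GL (Fin N) F) V₂) (h₁ : IsSm π₁) (h₂ : IsSm π₂)
    (M₁ : RMod D n₁) (M₂ : RMod D n₂)
    (hr₁ : RelS S n₁ ⟨Fin N, V₁, π₁⟩ M₁) (hr₂ : RelS S n₂ ⟨Fin N, V₂, π₂⟩ M₂)
    (h : letI := HasExt.standard (SmRep (GL (Fin N) F))
      ∃ i, Nontrivial (Ext.{1} (ofSm π₁ h₁) (ofSm π₂ h₂) i)) :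
    ∃ (w₁ : Wd D n₁) (w₂ : Wd D n₂),
      (∃ x : M₁.V, (ew w₁ : R D n₁) • x ≠ 0) ∧ (∃ x : M₂.V, (ew w₂ : R D n₂) • x ≠ 0) ∧
      (List.ofFn w₁ : Multiset D.J) = (List.ofFn w₂ : Multiset D.J) := by
  obtain ⟨v₁, e₁, hc₁, hi₁⟩ := hr₁
  obtain ⟨v₂, e₂, hc₂, hi₂⟩ := hr₂
  letI := HasExt.standard (SmRep (GL (Fin N) F))
  obtain ⟨i, hi⟩ := h
  rw [← not_subsingleton_iff_nontrivial] at hi
  have hm : (List.ofFn v₁ : Multiset D.J) = (List.ofFn v₂ : Multiset D.J) := by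
    by_contra hne
    have hz : ∀ f : ((S.B v₂).H (reR F e₂.symm π₁)).V, f = 0 := fun f =>
      FExt_orth (S.B v₁) (S.B v₂) (S.orth v₁ v₂ hne) π₁ e₁ e₂ hc₁ f
    have hs : Subsingleton ((S.B v₂).H (reR F e₂.symm π₁)).V := ⟨fun a b => by rw [hz a, hz b]⟩
    refine hi ((BD.tr_re (S.B v₂) e₂ π₁ π₂ h₁ h₂ hc₂ inferInstance i).2 ?_)
    refine FExt_zero_right ?_ i
    exact ModuleCat.hom_ext (LinearMap.ext fun f => hz f)
  have hV₁ : ∃ u : V₁, u ≠ 0 := by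
    by_contra hn
    push Not at hn
    exact hi (FExt_zero_left (FExt_id π₁ h₁ hn) i)
  have hV₂ : ∃ u : V₂, u ≠ 0 := by
    by_contra hn
    push Not at hn
    exact hi (FExt_zero_right (FExt_id π₂ h₂ hn) i)
  obtain ⟨w₁, hx₁, hm₁⟩ := FExt_pos (S.B v₁) _ hc₁ hV₁ M₁ hi₁
  obtain ⟨w₂, hx₂, hm₂⟩ := FExt_pos (S.B v₂) _ hc₂ hV₂ M₂ hi₂
  exact ⟨w₁, w₂, hx₁, hx₂, by rw [← hm₁, hm, hm₂]⟩

end

end Pool.Agent.Lib.MP_ca1492_al.L
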