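import Mathlib
import Pool.Agent.Lib.MP_ca1492_al.L5.Conj
import Pool.Agent.Lib.MP_ca1492_al.Mod.RectM

/-!
# MP_ca1492_al, L5/FLet: the fields letter and one of Link

* `r_one_iso`: two modules over R D n (n ≤ 1) of dimension one on which the idempotent `ew w` acts as 1 and
  all yk act by 0 are isomorphic: every element of R D n acts on both by the same scalar
  (`R_induction`; ps r = 0 since r + 1 < n is impossible, ew w' acts by 0 for w' ≠ w).
* `flet`: `Sys.letter`, `IsSoc.cl`; H(soc v) has dimension 1! = 1 (`soc_rank`), it is spanned by the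
  inclusion `socI`, ew v acts as 1 and yk by 0.
* `fone`: the same with `Sys.one`; v the empty word; a one-dimensional module over R D 0: the only
  idempotent `ew v` is 1 (`ew_facts`).
* `flet_dr`: DR S ⟨l,i,1,1⟩ 1 is one-dimensional, ew acts as 1 on the word (l,i), yk by 0: `rect_col`
  (see the use of DR for 1 × 1 rectangles in Mod/SubIso, Mod/RectM).
-/

set_option autoImplicit false

namespace Pool.Agent.Lib.MP_ca1492_al.L

open Topology Matrix TensorProduct ValuativeRel CA1492 CA1492.PA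
open CategoryTheory CategoryTheory.Abelian
open Pool.Agent.Lib.MP_ca1492_al.P Pool.Agent.Lib.MP_ca1492_al.Q

noncomputable section

variable {F : Type} [Field F] [ValuativeRel F] [TopologicalSpace F]
  [IsNonarchimedeanLocalField F]

theorem r_smul_comm {D : Dat} {n : ℕ} (M : RMod D n) (r : R D n) (c : ℂ) (x : M.V) :
    r • (c • x) = c • (r • x) := by
  rw [← algebraMap_smul (R D n) c x, ← algebraMap_smul (R D n) c (r • x), ← mul_smul, ← mul_smul,
    Algebra.commutes]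

theorem r_one_iso {D : Dat} {n : ℕ} (hn : n ≤ 1) (w : Wd D n) (M N : RMod D n)
    (hM : Module.finrank ℂ M.V = 1) (hN : Module.finrank ℂ N.V = 1)
    (hM1 : ∀ x : M.V, (ew w : R D n) • x = x) (hN1 : ∀ x : N.V, (ew w : R D n) • x = x)
    (hM2 : ∀ (k : Fin n) (x : M.V), (yk k : R D n) • x = 0)
    (hN2 : ∀ (k : Fin n) (x : N.V), (yk k : R D n) • x = 0) : RIso M N := by
  have key : ∀ r : R D n, ∃ c : ℂ, (∀ x : M.V, r • x = c • x) ∧ (∀ x : N.V, r • x = c • x) := by
    intro r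
    refine R_induction (p := fun r => ∃ c : ℂ, (∀ x : M.V, r • x = c • x) ∧
      (∀ x : N.V, r • x = c • x)) ?_ ?_ ?_ ?_ ?_ ?_ r
    · intro c
      exact ⟨c, fun x => algebraMap_smul _ c x, fun x => algebraMap_smul _ c x⟩
    · intro w'
      by_cases h : w' = w
      · subst h
        exact ⟨1, fun x => by rw [hM1, one_smul], fun x => by rw [hN1, one_smul]⟩
      · refine ⟨0, fun x => ?_, fun x => ?_⟩
        · rw [← hM1 x, ← mul_smul, ew_facts.1, if_neg h, zero_smul, zero_smul]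
        · rw [← hN1 x, ← mul_smul, ew_facts.1, if_neg h, zero_smul, zero_smul]
    · intro k
      exact ⟨0, fun x => by rw [hM2, zero_smul], fun x => by rw [hN2, zero_smul]⟩
    · intro r
      have h0 : (ps r : R D n) = 0 := (isRep_R D n).S_out r (by omega)
      exact ⟨0, fun x => by rw [h0, zero_smul, zero_smul], fun x => by rw [h0, zero_smul, zero_smul]⟩
    · rintro a b ⟨c, h1, h2⟩ ⟨d, h3, h4⟩
      exact ⟨c + d, fun x => by rw [add_smul, h1, h3, add_smul],
        fun x => by rw [add_smul, h2, h4, add_smul]⟩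
    · rintro a b ⟨c, h1, h2⟩ ⟨d, h3, h4⟩
      exact ⟨c * d, fun x => by rw [mul_smul, h3, h1, mul_smul],
        fun x => by rw [mul_smul, h4, h2, mul_smul]⟩
  haveI := Module.finite_of_finrank_pos (R := ℂ) (M := M.V) (by omega)
  haveI := Module.finite_of_finrank_pos (R := ℂ) (M := N.V) (by omega)
  let e : M.V ≃ₗ[ℂ] N.V := LinearEquiv.ofFinrankEq M.V N.V (by rw [hM, hN])
  exact ⟨{ e.toAddEquiv with
    map_smul' := fun r x => by
      obtain ⟨c, h1, h2⟩ := key r
      show e (r • x) = r • e x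
      rw [h1, h2, map_smul] }⟩

namespace BD

variable {D : Dat} {n : ℕ} {v : Wd D n} (B : BD F D v)

/-- for n ≤ 1 the space of the equivariant maps from the socle is spanned by the inclusion -/
theorem soc_one (hn : n ≤ 1) (w : Wd D n) (hw : w ∈ orb v) :
    Module.finrank ℂ (B.H (B.socR w)).V = 1 ∧
      ∀ f : (B.H (B.socR w)).V, ∃ c : ℂ, f = c • B.socI w := by
  obtain ⟨h1, h2⟩ := B.soc_rank w hw
  have h3 : Module.finrank ℂ (B.H (B.socR w)).V = 1 := by
    rw [h2]
    interval_cases n <;> rfl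
  refine ⟨h3, ?_⟩
  have h4 : B.socI w ≠ 0 := by
    intro h5
    have h6 : ∀ f : (B.H (B.socR w)).V, f = 0 := by
      intro f
      apply Subtype.ext
      apply LinearMap.ext
      intro x
      have h7 : (B.socI w).1 x = 0 := by rw [h5]; rfl
      have h8 : x = 0 := Subtype.ext h7
      rw [h8, map_zero]
      exact (map_zero _).symm
    haveI : Subsingleton (B.H (B.socR w)).V := ⟨fun a b => (h6 a).trans (h6 b).symm⟩
    rw [Module.finrank_zero_of_subsingleton] at h3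
    exact zero_ne_one h3
  intro f
  obtain ⟨c, hc⟩ := (finrank_eq_one_iff_of_nonzero' (B.socI w) h4).1 h3 f
  exact ⟨c, hc.symm⟩

theorem ew_socI (w : Wd D n) : (ew w : R D n) • B.socI w = B.socI w :=
  Subtype.ext (LinearMap.ext fun x => x.2.1)

theorem yk_socI (w : Wd D n) (k : Fin n) : (yk k : R D n) • B.socI w = 0 :=
  Subtype.ext (LinearMap.ext fun x => x.2.2 k)

/-- a one-dimensional module is the module of the socle -/
theorem soc_one_iso (hn : n ≤ 1) (w : Wd D n) (hw : w ∈ orb v) (M : RMod D n)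
    (hM : Module.finrank ℂ M.V = 1)
    (hM1 : ∀ x : M.V, (ew w : R D n) • x = x)
    (hM2 : ∀ (k : Fin n) (x : M.V), (yk k : R D n) • x = 0) : RIso M (B.H (B.socR w)) := by
  obtain ⟨h1, h2⟩ := B.soc_one hn w hw
  refine r_one_iso hn w M _ hM h1 hM1 ?_ hM2 ?_
  · intro f
    obtain ⟨c, rfl⟩ := h2 f
    rw [r_smul_comm, ew_socI]
  · intro k f
    obtain ⟨c, rfl⟩ := h2 f
    rw [r_smul_comm, yk_socI, smul_zero]

end BD

theorem flet {D : Dat} {ρ : D.J → GLRep F} (S : Sys D ρ) (j : D.J) (M : RMod D 1)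
    (hM : Module.finrank ℂ M.V = 1)
    (hM1 : ∀ x : M.V, (ew (fun _ => j : Wd D 1) : R D 1) • x = x)
    (hM2 : ∀ (k : Fin 1) (x : M.V), (yk k : R D 1) • x = 0) : RelS S 1 (ρ j) M := by
  obtain ⟨e, hc, T, hT⟩ := (S.letter j).cl
  refine ⟨fun _ => j, e, hc, ?_⟩
  exact ((S.B (fun _ => j : Wd D 1)).soc_one_iso le_rfl _ (orb_self _) M hM hM1 hM2).trans
    ((S.B (fun _ => j : Wd D 1)).H_iso _ _ T hT).symm

theorem fone {D : Dat} {ρ : D.J → GLRep F} (S : Sys D ρ) (M : RMod D 0)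
    (hM : Module.finrank ℂ M.V = 1) : RelS S 0 GLRep.one M := by
  have v : Wd D 0 := Fin.elim0
  obtain ⟨e, hc, T, hT⟩ := (S.one v).cl
  refine ⟨v, e, hc, ?_⟩
  refine ((S.B v).soc_one_iso (by omega) v (orb_self _) M hM ?_ fun k => k.elim0).trans
    ((S.B v).H_iso _ _ T hT).symm
  intro x
  have h1 : (ew v : R D 0) = 1 := by
    rw [← ew_facts.2.1]
    symm
    apply Finset.sum_eq_single v
    · intro b _ hb
      exact absurd (Subsingleton.elim b v) hb
    · intro hb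
      exact absurd (Finset.mem_univ v) hb
  rw [h1, one_smul]

theorem flet_dr {Λ : Type} [DecidableEq Λ] (S : Finset (Λ × ℤ)) (l : Λ) (i : ℤ)
    (h : (l, i) ∈ S) :
    Module.finrank ℂ (DR S ⟨l, i, 1, 1⟩ 1).V = 1 ∧
    (∀ x : (DR S ⟨l, i, 1, 1⟩ 1).V,
      (ew (fun _ => ⟨(l, i), h⟩ : Wd (datS S) 1) : R (datS S) 1) • x = x) ∧
    (∀ (k : Fin 1) (x : (DR S ⟨l, i, 1, 1⟩ 1).V), (yk k : R (datS S) 1) • x = 0) := by
  classical
  let w : Wd (datS S) 1 := fun _ => ⟨(l, i), h⟩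
  let H := rectH S ⟨l, i, 1, 1⟩ 1
  have hW : ∀ u : Wd (datS S) 1, u ∈ H.W ↔ u = w := by
    intro u
    refine ((mem_rectH ⟨l, i, 1, 1⟩ u).trans (rect_col l i 1 (wl u))).trans ?_
    have h1 : (List.ofFn (fun j : Fin 1 => (l, i - (j.val : ℤ)))) = wl w := by
      unfold wl
      congr 1
      funext j
      rw [Subsingleton.elim j 0]
      show (l, i - ((0 : ℕ) : ℤ)) = (l, i)
      rw [Nat.cast_zero, sub_zero]
    rw [h1]
    exact ⟨fun e => wl_injective e, fun e => by rw [e]⟩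
  have hwm : w ∈ H.W := (hW w).2 rfl
  have huniq : ∀ u : H.W, u = ⟨w, hwm⟩ := fun u => Subtype.ext ((hW u.1).1 u.2)
  obtain ⟨f1, -, f3, -⟩ := hd_facts H ⟨w, hwm⟩
  have hd1 : hd H ⟨w, hwm⟩ ⟨w, hwm⟩ = (1 : ℂ) := by
    unfold hd
    exact if_pos rfl
  have hf : ∀ f : HV H, f = f ⟨w, hwm⟩ • hd H ⟨w, hwm⟩ := by
    intro f
    funext u
    rw [huniq u]
    change f ⟨w, hwm⟩ = f ⟨w, hwm⟩ * (hd H ⟨w, hwm⟩ ⟨w, hwm⟩)
    rw [hd1, mul_one]
  refine ⟨?_, fun x => (f1 x).trans (hf x).symm, fun k x => f3 k x⟩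
  have hne : hd H ⟨w, hwm⟩ ≠ (0 : HV H) := by
    intro h0
    have h2 : hd H ⟨w, hwm⟩ ⟨w, hwm⟩ = (0 : ℂ) := by rw [h0]; rfl
    rw [hd1] at h2
    exact one_ne_zero h2
  exact (finrank_eq_one_iff_of_nonzero' (K := ℂ) (V := HV H) (hd H ⟨w, hwm⟩) hne).2
    fun f => ⟨f ⟨w, hwm⟩, (hf f).symm⟩

end

end Pool.Agent.Lib.MP_ca1492_al.L
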