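import Mathlib
import Pool.Agent.Lib.MP_ca1492_al.L5.Conj

/-!
# MP_ca1492_al, L5/FIso: the fields iso, quot, irred of Link

* `fiso`: A.Isom B gives eAB, T; e' = eAB.symm.trans e; T is an isomorphism of reR e.symm A.π with
  reR e'.symm B.π (`Cl_iso`, `H_iso`).
* `fquot`: the same with a surjection (`Cl.quo`, `Hmap`, `Hmap_inj`).
* `firr`: `Cl.simple`, `reR_irr`, transport of simplicity by the isomorphism.
-/

set_option autoImplicit false

namespace Pool.Agent.Lib.MP_ca1492_al.L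

open Topology Matrix TensorProduct ValuativeRel CA1492 CA1492.PA
open CategoryTheory CategoryTheory.Abelian
open Pool.Agent.Lib.MP_ca1492_al.P Pool.Agent.Lib.MP_ca1492_al.Q

noncomputable section

variable {F : Type} [Field F] [ValuativeRel F] [TopologicalSpace F]
  [IsNonarchimedeanLocalField F]

variable {D : Dat} {ρ : D.J → GLRep F} (S : Sys D ρ) {n : ℕ}

theorem FIso_equi {A B : GLRep F} {κ : Type} [Fintype κ] [DecidableEq κ] (eAB : A.κ ≃ B.κ)
    (f : A.V →ₗ[ℂ] B.V)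
    (hf : ∀ (g : GL A.κ F) (v : A.V), f (A.π g v) = B.π (GLRep.glRe eAB g) (f v))
    (e : A.κ ≃ κ) :
    Equi (reR F e.symm A.π) (reR F (eAB.symm.trans e).symm B.π) f := by
  intro g x
  rw [reR_apply, reR_apply, hf]
  have h1 : GLRep.glRe (eAB.symm.trans e).symm g = GLRep.glRe eAB (GLRep.glRe e.symm g) :=
    glRe_trans' e.symm eAB g
  rw [h1]

theorem fiso {A B : GLRep F} {M N : RMod D n} (h : RelS S n A M) (hAB : A.Isom B)
    (hMN : RIso M N) : RelS S n B N := by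
  obtain ⟨v, e, hCl, hM⟩ := h
  obtain ⟨eAB, T, hT⟩ := hAB
  have hE := FIso_equi eAB (T : A.V →ₗ[ℂ] B.V) hT e
  exact ⟨v, eAB.symm.trans e, (S.B v).Cl_iso _ _ T hE hCl,
    (hMN.symm.trans hM).trans ((S.B v).H_iso _ _ T hE)⟩

theorem fquot {A B : GLRep F} {M : RMod D n} (h : RelS S n A M) (hAB : A.Quot B) :
    ∃ N : RMod D n, RelS S n B N ∧ ∃ f : N.V →ₗ[R D n] M.V, Function.Injective f := by
  obtain ⟨v, e, hCl, ⟨φ⟩⟩ := h
  obtain ⟨eAB, f, hfs, hf⟩ := hAB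
  have hE := FIso_equi eAB f hf e
  refine ⟨(S.B v).H (reR F (eAB.symm.trans e).symm B.π),
    ⟨v, eAB.symm.trans e, BD.Cl.quo (S.B v) hCl f hE hfs, RIso.refl _⟩, ?_⟩
  refine ⟨(φ.symm : ((S.B v).H (reR F e.symm A.π)).V →ₗ[R D n] M.V) ∘ₗ
    (S.B v).Hmap _ _ f hE, ?_⟩
  rw [LinearMap.coe_comp]
  exact φ.symm.injective.comp ((S.B v).Hmap_inj _ _ f hE hfs)

theorem firr {A : GLRep F} {M : RMod D n} (h : RelS S n A M) (hA : A.Irred) :
    IsSimpleModule (R D n) M.V := by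
  obtain ⟨v, e, hCl, ⟨φ⟩⟩ := h
  haveI := BD.Cl.simple (S.B v) hCl (reR_irr e.symm A.π hA)
  exact IsSimpleModule.congr φ

end

end Pool.Agent.Lib.MP_ca1492_al.L
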