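import Mathlib
import Pool.Agent.Lib.MP_ca1492_al.Mod.RMod

/-!
# MP_ca1492_al, L5/IndEx: the induction of modules over the KLR algebras is functorial and exact
-/

set_option autoImplicit false

namespace CA1492

open TensorProduct

noncomputable section

variable {D : Dat} {m k n : ℕ}

/-- the ℂ-linear map underlying an `R`-linear map -/
def RMod.linC {M N : RMod D n} (f : M.V →ₗ[R D n] N.V) : M.V →ₗ[ℂ] N.V where
  toFun := f
  map_add' := map_add f
  map_smul' c v := R_lin_C M N f c v

@[simp] theorem RMod.linC_apply {M N : RMod D n} (f : M.V →ₗ[R D n] N.V) (v : M.V) :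
    RMod.linC f v = f v := rfl

variable {M M' M'' : RMod D m} {N N' N'' : RMod D k}

theorem RMod.tens_map (f : M.V →ₗ[R D m] M'.V) (g : N.V →ₗ[R D k] N'.V)
    (z : R D m ⊗[ℂ] R D k) (t : M.V ⊗[ℂ] N.V) :
    TensorProduct.map (RMod.linC f) (RMod.linC g) (tens M.V N.V z t) =
      tens M'.V N'.V z (TensorProduct.map (RMod.linC f) (RMod.linC g) t) := by
  induction z using TensorProduct.induction_on with
  | zero => rw [map_zero, map_zero, LinearMap.zero_apply, LinearMap.zero_apply, map_zero]
  | add z z' hz hz' =>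
    rw [map_add, map_add, LinearMap.add_apply, LinearMap.add_apply, map_add, hz, hz']
  | tmul x y =>
    induction t using TensorProduct.induction_on with
    | zero => rw [map_zero, map_zero, map_zero]
    | add t t' ht ht' => rw [map_add, map_add, map_add, map_add, ht, ht']
    | tmul a b =>
      rw [tens_tmul, TensorProduct.map_tmul, TensorProduct.map_tmul, tens_tmul,
        RMod.linC_apply, RMod.linC_apply, RMod.linC_apply, RMod.linC_apply, map_smul, map_smul]

/-- functoriality of the induction -/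
def RMod.indMap (f : M.V →ₗ[R D m] M'.V) (g : N.V →ₗ[R D k] N'.V) :
    (M.ind N).V →ₗ[R D (m + k)] (M'.ind N').V where
  toFun := fun (X : IndV D m k M.V N.V) => ((fun p => TensorProduct.map (RMod.linC f)
    (RMod.linC g) (X p) : Shf m k → M'.V ⊗[ℂ] N'.V) : IndV D m k M'.V N'.V)
  map_add' X Y := by
    funext p
    exact map_add (TensorProduct.map (RMod.linC f) (RMod.linC g)) (X p) (Y p)
  map_smul' x X := by
    funext p
    change TensorProduct.map (RMod.linC f) (RMod.linC g)
        (∑ q, tens M.V N.V (theta D m k x p q) (X q)) =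
      ∑ q, tens M'.V N'.V (theta D m k x p q)
        (TensorProduct.map (RMod.linC f) (RMod.linC g) (X q))
    rw [map_sum]
    exact Finset.sum_congr rfl fun q _ => RMod.tens_map f g _ _

theorem RMod.indMap_apply (f : M.V →ₗ[R D m] M'.V) (g : N.V →ₗ[R D k] N'.V)
    (X : IndV D m k M.V N.V) (p : Shf m k) :
    (RMod.indMap f g X : IndV D m k M'.V N'.V) p =
      TensorProduct.map (RMod.linC f) (RMod.linC g) (X p) := rfl

theorem RMod.indMap_in (f : M.V →ₗ[R D m] M'.V) (g : N.V →ₗ[R D k] N'.V)
    (t : M.V ⊗[ℂ] N.V) :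
    RMod.indMap f g (indIn M.V N.V t : IndV D m k M.V N.V) =
      (indIn M'.V N'.V (TensorProduct.map (RMod.linC f) (RMod.linC g) t) :
        IndV D m k M'.V N'.V) := by
  funext p
  by_cases h : p = shfId m k
  · subst h
    rw [RMod.indMap_apply]
    rw [IndA_indIn_same, IndA_indIn_same]
  · rw [RMod.indMap_apply]
    rw [IndA_indIn_ne _ _ _ h, IndA_indIn_ne _ _ _ h, map_zero]

theorem RMod.indMap_surj (f : M.V →ₗ[R D m] M'.V) (g : N.V →ₗ[R D k] N'.V)
    (hf : Function.Surjective f) (hg : Function.Surjective g) :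
    Function.Surjective (RMod.indMap f g) := by
  have hT : Function.Surjective (TensorProduct.map (RMod.linC f) (RMod.linC g)) :=
    TensorProduct.map_surjective hf hg
  intro Y
  choose x hx using hT
  exact ⟨(fun p => x ((Y : IndV D m k M'.V N'.V) p) : Shf m k → M.V ⊗[ℂ] N.V),
    funext fun p => hx _⟩

theorem RMod.indMap_inj (f : M.V →ₗ[R D m] M'.V) (g : N.V →ₗ[R D k] N'.V)
    (hf : Function.Injective f) (hg : Function.Injective g) :
    Function.Injective (RMod.indMap f g) := by
  have hT : Function.Injective (TensorProduct.map (RMod.linC f) (RMod.linC g)) :=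
    TensorProduct.map_injective_of_flat_flat _ _ hf hg
  intro X Y h
  funext p
  exact hT (congrFun h p)

theorem RMod.indMap_exact₁ (i : M'.V →ₗ[R D m] M.V) (p : M.V →ₗ[R D m] M''.V)
    (hex : ∀ u, p u = 0 ↔ ∃ u', i u' = u) (X : (M.ind N).V) :
    RMod.indMap p (LinearMap.id : N.V →ₗ[R D k] N.V) X = 0 ↔
      ∃ Y, RMod.indMap i (LinearMap.id : N.V →ₗ[R D k] N.V) Y = X := by
  have hE : Function.Exact (RMod.linC i) (RMod.linC p) := fun u => hex u
  have hT : Function.Exact ((RMod.linC i).rTensor N.V) ((RMod.linC p).rTensor N.V) :=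
    Module.Flat.rTensor_exact N.V hE
  constructor
  · intro h0
    have h1 : ∀ q : Shf m k, ∃ y, (RMod.linC i).rTensor N.V y = (X : IndV D m k M.V N.V) q :=
      fun q => (hT _).1 (congrFun h0 q)
    choose y hy using h1
    exact ⟨(y : Shf m k → M'.V ⊗[ℂ] N.V), funext fun q => hy q⟩
  · rintro ⟨Y, rfl⟩
    exact funext fun q => (hT _).2 ⟨(Y : IndV D m k M'.V N.V) q, rfl⟩

theorem RMod.indMap_exact₂ (i : N'.V →ₗ[R D k] N.V) (p : N.V →ₗ[R D k] N''.V)
    (hex : ∀ u, p u = 0 ↔ ∃ u', i u' = u) (X : (M.ind N).V) :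
    RMod.indMap (LinearMap.id : M.V →ₗ[R D m] M.V) p X = 0 ↔
      ∃ Y, RMod.indMap (LinearMap.id : M.V →ₗ[R D m] M.V) i Y = X := by
  have hE : Function.Exact (RMod.linC i) (RMod.linC p) := fun u => hex u
  have hT : Function.Exact ((RMod.linC i).lTensor M.V) ((RMod.linC p).lTensor M.V) :=
    Module.Flat.lTensor_exact M.V hE
  constructor
  · intro h0
    have h1 : ∀ q : Shf m k, ∃ y, (RMod.linC i).lTensor M.V y = (X : IndV D m k M.V N.V) q :=
      fun q => (hT _).1 (congrFun h0 q)
    choose y hy using h1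
    exact ⟨(y : Shf m k → M.V ⊗[ℂ] N'.V), funext fun q => hy q⟩
  · rintro ⟨Y, rfl⟩
    exact funext fun q => (hT _).2 ⟨(Y : IndV D m k M.V N'.V) q, rfl⟩

theorem RMod.ind_finite [Module.Finite ℂ M.V] [Module.Finite ℂ N.V] :
    Module.Finite ℂ (M.ind N).V :=
  inferInstanceAs (Module.Finite ℂ (Shf m k → M.V ⊗[ℂ] N.V))

theorem RMod.ind_finrank [Module.Finite ℂ M.V] [Module.Finite ℂ N.V] :
    Module.finrank ℂ (M.ind N).V =
      (m + k).choose k * (Module.finrank ℂ M.V * Module.finrank ℂ N.V) := by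
  have h1 : Module.finrank ℂ (Shf m k → M.V ⊗[ℂ] N.V) =
      (m + k).choose k * (Module.finrank ℂ M.V * Module.finrank ℂ N.V) := by
    rw [Module.finrank_pi_fintype]
    simp [Module.finrank_tensorProduct, card_shf]
  exact h1

theorem RMod.ind_fact : (m + k).choose k * (m.factorial * k.factorial) = (m + k).factorial := by
  have h := Nat.add_choose_mul_factorial_mul_factorial m k
  rw [← h]
  ring

/-- extensionality for maps on an induced module -/
theorem RMod.ind_ext {P : RMod D (m + k)} (a b : (M.ind N).V →ₗ[R D (m + k)] P.V)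
    (h : ∀ (x : M.V) (y : N.V), a (indIn M.V N.V (x ⊗ₜ[ℂ] y) : IndV D m k M.V N.V) =
      b (indIn M.V N.V (x ⊗ₜ[ℂ] y) : IndV D m k M.V N.V)) : a = b := by
  have h1 : ∀ t : M.V ⊗[ℂ] N.V, a (indIn M.V N.V t : IndV D m k M.V N.V) =
      b (indIn M.V N.V t : IndV D m k M.V N.V) := by
    intro t
    induction t using TensorProduct.induction_on with
    | zero =>
      rw [map_zero]
      exact (map_zero a).trans (map_zero b).symm
    | add s t hs ht =>
      rw [map_add]
      exact (map_add a _ _).trans ((congrArg₂ (· + ·) hs ht).trans (map_add b _ _).symm)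
    | tmul x y => exact h x y
  refine LinearMap.ext fun X => ?_
  have h2 : ∀ F : IndV D m k M.V N.V, F = ∑ p : Shf m k,
      (CS m k (shf p) : R D (m + k)) • (indIn M.V N.V (F p) : IndV D m k M.V N.V) :=
    (indIn_facts M.V N.V).2
  rw [h2 X]
  refine (map_sum a _ _).trans (Eq.trans ?_ (map_sum b _ _).symm)
  refine Finset.sum_congr rfl fun p _ => ?_
  refine (map_smul a _ _).trans (Eq.trans ?_ (map_smul b _ _).symm)
  rw [h1]

end

end CA1492
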