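import Mathlib
import Pool.Agent.Lib.MP_ca1492_al.Cmp.ProdM
import Pool.Agent.Lib.MP_ca1492_al.L5.Defs

/-!
# MP_ca1492_al, L5/MulMap: functoriality and exactness of the product of representations
-/

set_option autoImplicit false

namespace Pool.Agent.Lib.MP_ca1492_al.L

open Topology Matrix TensorProduct ValuativeRel CA1492 CA1492.PA
open Pool.Agent.Lib.MP_ca1492_al.P Pool.Agent.Lib.MP_ca1492_al.Q

noncomputable section

variable {F : Type} [Field F] [ValuativeRel F] [TopologicalSpace F]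
  [IsNonarchimedeanLocalField F]

section

variable {κ κ' V V' : Type} [Fintype κ] [DecidableEq κ] [Fintype κ'] [DecidableEq κ']
  [AddCommGroup V] [Module ℂ V] [AddCommGroup V'] [Module ℂ V']

theorem MulMap_reR_sm (e : κ ≃ κ') (π : Representation ℂ (GL κ' F) V) (h : IsSm π) :
    IsSm (reR F e π) := by
  intro v
  exact (h v).preimage (glRe_cont e)

theorem MulMap_reR_equi (e : κ ≃ κ') (π : Representation ℂ (GL κ' F) V)
    (π' : Representation ℂ (GL κ' F) V') (f : V →ₗ[ℂ] V') (hf : Equi π π' f) :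
    Equi (reR F e π) (reR F e π') f := by
  intro g v
  exact hf _ v

theorem MulMap_glRe (e : κ ≃ κ') (g : GL κ' F) :
    GLRep.glRe (F := F) e (GLRep.glRe e.symm g) = g := by
  rw [← glRe_symm, MulEquiv.apply_symm_apply]

end

section

variable {κ₁ κ₂ : Type} [Fintype κ₁] [DecidableEq κ₁] [Fintype κ₂] [DecidableEq κ₂]
variable {V₁ V₂ V₁' V₂' V₁'' V₂'' : Type} [AddCommGroup V₁] [Module ℂ V₁] [AddCommGroup V₂]
  [Module ℂ V₂] [AddCommGroup V₁'] [Module ℂ V₁'] [AddCommGroup V₂'] [Module ℂ V₂']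
  [AddCommGroup V₁''] [Module ℂ V₁''] [AddCommGroup V₂''] [Module ℂ V₂'']
  (π₁ : Representation ℂ (GL κ₁ F) V₁) (π₁' : Representation ℂ (GL κ₁ F) V₁')
  (π₁'' : Representation ℂ (GL κ₁ F) V₁'')
  (π₂ : Representation ℂ (GL κ₂ F) V₂) (π₂' : Representation ℂ (GL κ₂ F) V₂')
  (π₂'' : Representation ℂ (GL κ₂ F) V₂'')

/-- the product is smooth -/
theorem mulR_sm : IsSm (mulR π₁ π₂) := by
  intro x
  obtain ⟨-, U, hU, h2⟩ := x.2
  refine SmBasic_isOpen (mulR π₁ π₂) x U hU ?_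
  intro u hu
  exact Subtype.ext (funext fun g => h2 g u hu)

variable (f : V₁ →ₗ[ℂ] V₁') (hf : Equi π₁ π₁' f) (g : V₂ →ₗ[ℂ] V₂') (hg : Equi π₂ π₂' g)

theorem mulMap_equi : Equi (mulR π₁ π₂) (mulR π₁' π₂') (mulMap π₁ π₁' π₂ π₂' f hf g hg) :=
  fun _ _ => rfl

theorem mulMap_inj (hi : Function.Injective f) (hj : Function.Injective g) :
    Function.Injective (mulMap π₁ π₁' π₂ π₂' f hf g hg) :=
  prMap_inj π₁ π₂ π₁' π₂' f g hf hg hi hj

theorem mulMap_surj (h₁ : IsSm π₁) (h₂ : IsSm π₂) (hi : Function.Surjective f)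
    (hj : Function.Surjective g) :
    Function.Surjective (mulMap π₁ π₁' π₂ π₂' f hf g hg) :=
  prMap_surj π₁ π₂ π₁' π₂' f g hf hg hi hj h₁ h₂

theorem mulMap_comp (f' : V₁' →ₗ[ℂ] V₁'') (hf' : Equi π₁' π₁'' f') (g' : V₂' →ₗ[ℂ] V₂'')
    (hg' : Equi π₂' π₂'' g') (hff : Equi π₁ π₁'' (f' ∘ₗ f)) (hgg : Equi π₂ π₂'' (g' ∘ₗ g))
    (x : mulSp π₁ π₂) :
    mulMap π₁' π₁'' π₂' π₂'' f' hf' g' hg' (mulMap π₁ π₁' π₂ π₂' f hf g hg x) =
      mulMap π₁ π₁'' π₂ π₂'' (f' ∘ₗ f) hff (g' ∘ₗ g) hgg x := by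
  refine Subtype.ext (funext fun h => ?_)
  rw [mulMap_apply, mulMap_apply, mulMap_apply, ← LinearMap.comp_apply,
    ← TensorProduct.map_comp]

/-- a function with values in the image of an injective tensor product comes from a function -/
theorem mulMap_lift (hi : Function.Injective f) (hj : Function.Injective g)
    (x : mulSp π₁' π₂')
    (hx : ∀ h, ∃ t, TensorProduct.map f g t = x.1 h) :
    ∃ y, mulMap π₁ π₁' π₂ π₂' f hf g hg y = x := by
  have hinj : Function.Injective (TensorProduct.map f g) :=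
    TensorProduct.map_injective_of_flat_flat f g hi hj
  choose y hy using hx
  obtain ⟨h1, U, hU, h2⟩ := x.2
  refine ⟨⟨y, fun g₁ g₂ u h => ?_, U, hU, fun h u hu => ?_⟩, ?_⟩
  · apply hinj
    rw [hy, h1, mulMap_aux π₁ π₁' π₂ π₂' f hf g hg g₁ g₂ (GLRep.sqmod g₁ g₂ : ℂ) _ (y h) rfl, hy]
  · apply hinj
    rw [hy, hy]
    exact h2 h u hu
  · exact Subtype.ext (funext fun h => hy h)

/-- exactness in the first variable -/
theorem mulMap_exact₁ (i : V₁' →ₗ[ℂ] V₁) (hi : Equi π₁' π₁ i) (hii : Function.Injective i)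
    (p : V₁ →ₗ[ℂ] V₁'') (hp : Equi π₁ π₁'' p) (hex : ∀ u, p u = 0 ↔ ∃ u', i u' = u)
    (x : mulSp π₁ π₂) :
    mulMap π₁ π₁'' π₂ π₂ p hp LinearMap.id (fun _ _ => rfl) x = 0 ↔
      ∃ y, mulMap π₁' π₁ π₂ π₂ i hi LinearMap.id (fun _ _ => rfl) y = x := by
  have hE : Function.Exact i p := fun u => hex u
  have hT : Function.Exact (i.rTensor V₂) (p.rTensor V₂) := Module.Flat.rTensor_exact V₂ hE
  constructor
  · intro h0
    refine mulMap_lift π₁' π₁ π₂ π₂ i hi LinearMap.id _ hii Function.injective_id x fun h => ?_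
    exact (hT (x.1 h)).1 (congrFun (congrArg Subtype.val h0) h)
  · rintro ⟨y, rfl⟩
    refine Subtype.ext (funext fun h => ?_)
    exact (hT _).2 ⟨y.1 h, rfl⟩

/-- exactness in the second variable -/
theorem mulMap_exact₂ (i : V₂' →ₗ[ℂ] V₂) (hi : Equi π₂' π₂ i) (hii : Function.Injective i)
    (p : V₂ →ₗ[ℂ] V₂'') (hp : Equi π₂ π₂'' p) (hex : ∀ u, p u = 0 ↔ ∃ u', i u' = u)
    (x : mulSp π₁ π₂) :
    mulMap π₁ π₁ π₂ π₂'' LinearMap.id (fun _ _ => rfl) p hp x = 0 ↔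
      ∃ y, mulMap π₁ π₁ π₂' π₂ LinearMap.id (fun _ _ => rfl) i hi y = x := by
  have hE : Function.Exact i p := fun u => hex u
  have hT : Function.Exact (i.lTensor V₁) (p.lTensor V₁) := Module.Flat.lTensor_exact V₁ hE
  constructor
  · intro h0
    refine mulMap_lift π₁ π₁ π₂' π₂ LinearMap.id _ i hi Function.injective_id hii x fun h => ?_
    exact (hT (x.1 h)).1 (congrFun (congrArg Subtype.val h0) h)
  · rintro ⟨y, rfl⟩
    refine Subtype.ext (funext fun h => ?_)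
    exact (hT _).2 ⟨y.1 h, rfl⟩

end

end

end Pool.Agent.Lib.MP_ca1492_al.L
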