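import Mathlib
import Pool.Agent.Lib.MP_ca1492_al.L5.HFun
import Pool.Agent.Lib.MP_ca1492_al.L5.IndEx
import Pool.Agent.Lib.MP_ca1492_al.L5.MulMap

/-!
# MP_ca1492_al, L5/Eta: the natural map Ind(Hom(π₁, W) ⊗ Hom(π₂, W')) → Hom(π₁ × π₂, W'')
-/

set_option autoImplicit false

namespace Pool.Agent.Lib.MP_ca1492_al.L

open Topology Matrix TensorProduct ValuativeRel CA1492 CA1492.PA
open Pool.Agent.Lib.MP_ca1492_al.P Pool.Agent.Lib.MP_ca1492_al.Q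

noncomputable section

variable {F : Type} [Field F] [ValuativeRel F] [TopologicalSpace F]
  [IsNonarchimedeanLocalField F]

section mulMapLin

variable {κ₁ κ₂ : Type} [Fintype κ₁] [DecidableEq κ₁] [Fintype κ₂] [DecidableEq κ₂]
variable {V₁ V₂ V₁' V₂' : Type} [AddCommGroup V₁] [Module ℂ V₁] [AddCommGroup V₂]
  [Module ℂ V₂] [AddCommGroup V₁'] [Module ℂ V₁'] [AddCommGroup V₂'] [Module ℂ V₂']
  (π₁ : Representation ℂ (GL κ₁ F) V₁) (π₁' : Representation ℂ (GL κ₁ F) V₁')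
  (π₂ : Representation ℂ (GL κ₂ F) V₂) (π₂' : Representation ℂ (GL κ₂ F) V₂')

/-- `mulMap` as a bilinear map -/
def mulMapB : homG π₁ π₁' →ₗ[ℂ] homG π₂ π₂' →ₗ[ℂ] (mulSp π₁ π₂ →ₗ[ℂ] mulSp π₁' π₂') :=
  LinearMap.mk₂ ℂ (fun f g => mulMap π₁ π₁' π₂ π₂' f.1 f.2 g.1 g.2)
    (fun f f' g => LinearMap.ext fun x => Subtype.ext (funext fun h => by
      show TensorProduct.map (f.1 + f'.1) g.1 (x.1 h) = _
      rw [TensorProduct.map_add_left]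
      rfl))
    (fun c f g => LinearMap.ext fun x => Subtype.ext (funext fun h => by
      show TensorProduct.map (c • f.1) g.1 (x.1 h) = _
      rw [TensorProduct.map_smul_left]
      rfl))
    (fun f g g' => LinearMap.ext fun x => Subtype.ext (funext fun h => by
      show TensorProduct.map f.1 (g.1 + g'.1) (x.1 h) = _
      rw [TensorProduct.map_add_right]
      rfl))
    (fun c f g => LinearMap.ext fun x => Subtype.ext (funext fun h => by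
      show TensorProduct.map f.1 (c • g.1) (x.1 h) = _
      rw [TensorProduct.map_smul_right]
      rfl))

theorem mulMapB_apply (f : homG π₁ π₁') (g : homG π₂ π₂') :
    mulMapB π₁ π₁' π₂ π₂' f g = mulMap π₁ π₁' π₂ π₂' f.1 f.2 g.1 g.2 := rfl

end mulMapLin

namespace BD

variable {D : Dat} {m k : ℕ} {v : Wd D m} {v' : Wd D k} {v'' : Wd D (m + k)}
  (B : BD F D v) (B' : BD F D v') (B'' : BD F D v'') (e : B.κ ⊕ B'.κ ≃ B''.κ)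
  (Ξ : mulSp B.W B'.W →ₗ[ℂ] B''.V) (hΞ : B.IsXi B' B'' e Ξ)
variable {U₁ U₂ U₁' U₂' : Type} [AddCommGroup U₁] [Module ℂ U₁] [AddCommGroup U₂] [Module ℂ U₂]
  [AddCommGroup U₁'] [Module ℂ U₁'] [AddCommGroup U₂'] [Module ℂ U₂']

/-- the product as a representation of `GL B''.κ F` -/
abbrev mulE (π₁ : Representation ℂ (GL B.κ F) U₁) (π₂ : Representation ℂ (GL B'.κ F) U₂) :
    Representation ℂ (GL B''.κ F) (mulSp π₁ π₂) := reR F e.symm (mulR π₁ π₂)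

variable (π₁ : Representation ℂ (GL B.κ F) U₁) (π₂ : Representation ℂ (GL B'.κ F) U₂)
  (π₁' : Representation ℂ (GL B.κ F) U₁') (π₂' : Representation ℂ (GL B'.κ F) U₂')

include hΞ in
theorem xi_equi (f : homG π₁ B.W) (g : homG π₂ B'.W) :
    Equi (B.mulE B' B'' e π₁ π₂) B''.W (Ξ ∘ₗ mulMap π₁ B.W π₂ B'.W f.1 f.2 g.1 g.2) := by
  intro a x
  have h1 : mulMap π₁ B.W π₂ B'.W f.1 f.2 g.1 g.2 (B.mulE B' B'' e π₁ π₂ a x) =
      mulR B.W B'.W (GLRep.glRe e.symm a) (mulMap π₁ B.W π₂ B'.W f.1 f.2 g.1 g.2 x) :=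
    mulMap_equi π₁ B.W π₂ B'.W f.1 f.2 g.1 g.2 (GLRep.glRe e.symm a) x
  rw [LinearMap.comp_apply, LinearMap.comp_apply, h1, hΞ.equi, MulMap_glRe]

/-- the bilinear map f, g ↦ Ξ ∘ (f × g) -/
def xiB : homG π₁ B.W →ₗ[ℂ] homG π₂ B'.W →ₗ[ℂ] homG (B.mulE B' B'' e π₁ π₂) B''.W :=
  LinearMap.mk₂ ℂ (fun f g => (⟨Ξ ∘ₗ mulMap π₁ B.W π₂ B'.W f.1 f.2 g.1 g.2,
      B.xi_equi B' B'' e Ξ hΞ π₁ π₂ f g⟩ : homG (B.mulE B' B'' e π₁ π₂) B''.W))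
    (fun f f' g => Subtype.ext (by
      show Ξ ∘ₗ (mulMapB π₁ B.W π₂ B'.W (f + f') g) = _
      rw [map_add, LinearMap.add_apply, LinearMap.comp_add]
      rfl))
    (fun c f g => Subtype.ext (by
      show Ξ ∘ₗ (mulMapB π₁ B.W π₂ B'.W (c • f) g) = _
      rw [map_smul, LinearMap.smul_apply, LinearMap.comp_smul]
      rfl))
    (fun f g g' => Subtype.ext (by
      show Ξ ∘ₗ (mulMapB π₁ B.W π₂ B'.W f (g + g')) = _
      rw [map_add, LinearMap.comp_add]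
      rfl))
    (fun c f g => Subtype.ext (by
      show Ξ ∘ₗ (mulMapB π₁ B.W π₂ B'.W f (c • g)) = _
      rw [map_smul, LinearMap.comp_smul]
      rfl))

/-- the map on the tensor product -/
def xiT : (B.H π₁).V ⊗[ℂ] (B'.H π₂).V →ₗ[ℂ] (B''.H (B.mulE B' B'' e π₁ π₂)).V :=
  TensorProduct.lift (B.xiB B' B'' e Ξ hΞ π₁ π₂)

theorem xiT_tmul (f : (B.H π₁).V) (g : (B'.H π₂).V) :
    (B.xiT B' B'' e Ξ hΞ π₁ π₂ (f ⊗ₜ[ℂ] g)).1 =
      Ξ ∘ₗ mulMap π₁ B.W π₂ B'.W f.1 f.2 g.1 g.2 := rfl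

theorem xiT_tens (z : R D m ⊗[ℂ] R D k) (t : (B.H π₁).V ⊗[ℂ] (B'.H π₂).V) :
    B.xiT B' B'' e Ξ hΞ π₁ π₂ (tens (B.H π₁).V (B'.H π₂).V z t) =
      iota D m k z • B.xiT B' B'' e Ξ hΞ π₁ π₂ t := by
  induction z using TensorProduct.induction_on with
  | zero =>
    rw [map_zero, LinearMap.zero_apply, map_zero, map_zero, zero_smul]
  | add z z' hz hz' =>
    rw [map_add, LinearMap.add_apply, map_add, map_add, hz, hz', add_smul]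
  | tmul a b =>
    induction t using TensorProduct.induction_on with
    | zero => rw [map_zero, map_zero, smul_zero]
    | add t t' ht ht' => rw [map_add, map_add, map_add, ht, ht', smul_add]
    | tmul f g =>
      rw [tens_tmul]
      refine Subtype.ext (LinearMap.ext fun x => ?_)
      show Ξ (mulMap π₁ B.W π₂ B'.W ((B.φ a).1 ∘ₗ f.1) _ ((B'.φ b).1 ∘ₗ g.1) _ x) =
        (B''.φ (iota D m k (a ⊗ₜ[ℂ] b))).1 (Ξ (mulMap π₁ B.W π₂ B'.W f.1 f.2 g.1 g.2 x))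
      rw [← hΞ.act]
      exact congrArg Ξ (mulMap_comp π₁ B.W B.W π₂ B'.W B'.W f.1 f.2 g.1 g.2 (B.φ a).1
        (B.φ_equi a) (B'.φ b).1 (B'.φ_equi b) _ _ x).symm

/-- the natural map -/
theorem exists_eta : ∃ η : ((B.H π₁).ind (B'.H π₂)).V →ₗ[R D (m + k)]
      (B''.H (B.mulE B' B'' e π₁ π₂)).V,
    ∀ t : (B.H π₁).V ⊗[ℂ] (B'.H π₂).V,
      η (indIn (B.H π₁).V (B'.H π₂).V t : IndV D m k (B.H π₁).V (B'.H π₂).V) =
        B.xiT B' B'' e Ξ hΞ π₁ π₂ t := by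
  obtain ⟨η, hη, -⟩ := ind_universal (B.H π₁).V (B'.H π₂).V
    (B''.H (B.mulE B' B'' e π₁ π₂)).V (B.xiT B' B'' e Ξ hΞ π₁ π₂)
    (B.xiT_tens B' B'' e Ξ hΞ π₁ π₂)
  exact ⟨η, hη⟩

/-- the natural map -/
def eta : ((B.H π₁).ind (B'.H π₂)).V →ₗ[R D (m + k)] (B''.H (B.mulE B' B'' e π₁ π₂)).V :=
  Classical.choose (B.exists_eta B' B'' e Ξ hΞ π₁ π₂)

theorem eta_in (t : (B.H π₁).V ⊗[ℂ] (B'.H π₂).V) :
    B.eta B' B'' e Ξ hΞ π₁ π₂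
      (indIn (B.H π₁).V (B'.H π₂).V t : IndV D m k (B.H π₁).V (B'.H π₂).V) =
        B.xiT B' B'' e Ξ hΞ π₁ π₂ t :=
  Classical.choose_spec (B.exists_eta B' B'' e Ξ hΞ π₁ π₂) t

/-- the natural map is natural -/
theorem eta_nat (f : U₁ →ₗ[ℂ] U₁') (hf : Equi π₁ π₁' f) (g : U₂ →ₗ[ℂ] U₂')
    (hg : Equi π₂ π₂' g) (X : ((B.H π₁').ind (B'.H π₂')).V) :
    B.eta B' B'' e Ξ hΞ π₁ π₂
        (RMod.indMap (B.Hmap π₁ π₁' f hf) (B'.Hmap π₂ π₂' g hg) X) =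
      B''.Hmap (B.mulE B' B'' e π₁ π₂) (B.mulE B' B'' e π₁' π₂')
        (mulMap π₁ π₁' π₂ π₂' f hf g hg)
        (MulMap_reR_equi e.symm _ _ _ (mulMap_equi π₁ π₁' π₂ π₂' f hf g hg))
        (B.eta B' B'' e Ξ hΞ π₁' π₂' X) := by
  have h := RMod.ind_ext (M := B.H π₁') (N := B'.H π₂')
    (P := B''.H (B.mulE B' B'' e π₁ π₂))
    (B.eta B' B'' e Ξ hΞ π₁ π₂ ∘ₗ RMod.indMap (B.Hmap π₁ π₁' f hf) (B'.Hmap π₂ π₂' g hg))
    (B''.Hmap (B.mulE B' B'' e π₁ π₂) (B.mulE B' B'' e π₁' π₂')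
        (mulMap π₁ π₁' π₂ π₂' f hf g hg)
        (MulMap_reR_equi e.symm _ _ _ (mulMap_equi π₁ π₁' π₂ π₂' f hf g hg)) ∘ₗ
      B.eta B' B'' e Ξ hΞ π₁' π₂') (by
    intro x y
    refine (congrArg (B.eta B' B'' e Ξ hΞ π₁ π₂)
      (RMod.indMap_in (B.Hmap π₁ π₁' f hf) (B'.Hmap π₂ π₂' g hg) (x ⊗ₜ[ℂ] y))).trans ?_
    refine (B.eta_in B' B'' e Ξ hΞ π₁ π₂ _).trans ?_
    refine Eq.trans ?_ (congrArg (B''.Hmap (B.mulE B' B'' e π₁ π₂) (B.mulE B' B'' e π₁' π₂')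
        (mulMap π₁ π₁' π₂ π₂' f hf g hg)
        (MulMap_reR_equi e.symm _ _ _ (mulMap_equi π₁ π₁' π₂ π₂' f hf g hg)))
      (B.eta_in B' B'' e Ξ hΞ π₁' π₂' (x ⊗ₜ[ℂ] y)).symm)
    refine Subtype.ext (LinearMap.ext fun z => ?_)
    show Ξ (mulMap π₁ B.W π₂ B'.W (x.1 ∘ₗ f) _ (y.1 ∘ₗ g) _ z) =
      Ξ (mulMap π₁' B.W π₂' B'.W x.1 x.2 y.1 y.2 (mulMap π₁ π₁' π₂ π₂' f hf g hg z))
    exact congrArg Ξ (mulMap_comp π₁ π₁' B.W π₂ π₂' B'.W f hf g hg x.1 x.2 y.1 y.2 _ _ z).symm)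
  exact LinearMap.congr_fun h X

end BD

end

end Pool.Agent.Lib.MP_ca1492_al.L
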