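import Mathlib
import Pool.Agent.Lib.MP_ca1492_al.L5.MulMap
import Pool.Agent.Lib.MP_ca1492_al.L5.Soc

/-!
# MP_ca1492_al, L5/P2A: the product of the socles of two words
-/

set_option autoImplicit false

namespace Pool.Agent.Lib.MP_ca1492_al.L

open Topology Matrix TensorProduct ValuativeRel CA1492 CA1492.PA
open Pool.Agent.Lib.MP_ca1492_al.P Pool.Agent.Lib.MP_ca1492_al.Q

noncomputable section

variable {F : Type} [Field F] [ValuativeRel F] [TopologicalSpace F]
  [IsNonarchimedeanLocalField F]

theorem append_orb {D : Dat} {m k : ℕ} {v w : Wd D m} {v' w' : Wd D k} (h : w ∈ orb v)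
    (h' : w' ∈ orb v') : (Fin.append w w' : Wd D (m + k)) ∈ orb (Fin.append v v' : Wd D (m + k)) := by
  obtain ⟨σ, rfl⟩ := h
  obtain ⟨σ', rfl⟩ := h'
  refine ⟨finSumFinEquiv.permCongr (Equiv.sumCongr σ σ'), funext fun i => ?_⟩
  refine Fin.addCases (fun j => ?_) (fun j => ?_) i
  · rw [Fin.append_left, Function.comp_apply, Function.comp_apply, Equiv.permCongr_apply]
    simp
  · rw [Fin.append_right, Function.comp_apply, Function.comp_apply, Equiv.permCongr_apply]
    simp

/-- linear algebra: tensors killed by two families of maps -/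
theorem tens_ker {V V' ι ι' : Type} [AddCommGroup V] [Module ℂ V] [AddCommGroup V'] [Module ℂ V']
    (S : Submodule ℂ V) (S' : Submodule ℂ V') (α : V →ₗ[ℂ] (ι → V)) (α' : V' →ₗ[ℂ] (ι' → V'))
    [Finite ι] [Finite ι']
    (hS : ∀ x, x ∈ S ↔ α x = 0) (hS' : ∀ x, x ∈ S' ↔ α' x = 0) (t : V ⊗[ℂ] V')
    (h : ∀ i, (LinearMap.proj i ∘ₗ α).rTensor V' t = 0)
    (h' : ∀ i, (LinearMap.proj i ∘ₗ α').lTensor V t = 0) :
    ∃ s : S ⊗[ℂ] S', TensorProduct.map S.subtype S'.subtype s = t := by
  classical
  haveI := Fintype.ofFinite ι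
  haveI := Fintype.ofFinite ι'
  have e1 : Function.Exact S.subtype α := by
    intro x
    rw [← hS]
    constructor
    · intro hx
      exact ⟨⟨x, hx⟩, rfl⟩
    · rintro ⟨y, rfl⟩
      exact y.2
  have e2 : Function.Exact S'.subtype α' := by
    intro x
    rw [← hS']
    constructor
    · intro hx
      exact ⟨⟨x, hx⟩, rfl⟩
    · rintro ⟨y, rfl⟩
      exact y.2
  have f1 : Function.Exact (S.subtype.rTensor V') (α.rTensor V') :=
    Module.Flat.rTensor_exact V' e1
  have f2 : Function.Exact (S'.subtype.lTensor S) (α'.lTensor S) :=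
    Module.Flat.lTensor_exact S e2
  have z1 : ∀ u : V ⊗[ℂ] V', (∀ i, (LinearMap.proj i ∘ₗ α).rTensor V' u = 0) →
      α.rTensor V' u = 0 := by
    intro u hu
    have hid : (∑ i, (LinearMap.single ℂ (fun _ : ι => V) i) ∘ₗ (LinearMap.proj i ∘ₗ α)) = α := by
      refine LinearMap.ext fun x => ?_
      rw [LinearMap.sum_apply]
      funext j
      rw [Finset.sum_apply, Finset.sum_eq_single j]
      · simp
      · intro i _ hij
        simp [Pi.single_apply, hij.symm]
      · intro hj
        exact absurd (Finset.mem_univ j) hj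
    rw [← hid]
    have : ∀ s : Finset ι, (∑ i ∈ s, (LinearMap.single ℂ (fun _ : ι => V) i) ∘ₗ
        (LinearMap.proj i ∘ₗ α)).rTensor V' u = 0 := by
      intro s
      induction s using Finset.induction_on with
      | empty => simp
      | insert a s ha ih =>
        rw [Finset.sum_insert ha, LinearMap.rTensor_add, LinearMap.add_apply, ih, add_zero,
          LinearMap.rTensor_comp, LinearMap.comp_apply, hu a, map_zero]
    exact this Finset.univ
  obtain ⟨s, rfl⟩ := (f1 t).1 (z1 t h)
  have z2 : (LinearMap.lTensor V α') (S.subtype.rTensor V' s) = 0 := by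
    have hid : (∑ i, (LinearMap.single ℂ (fun _ : ι' => V') i) ∘ₗ (LinearMap.proj i ∘ₗ α')) =
        α' := by
      refine LinearMap.ext fun x => ?_
      rw [LinearMap.sum_apply]
      funext j
      rw [Finset.sum_apply, Finset.sum_eq_single j]
      · simp
      · intro i _ hij
        simp [Pi.single_apply, hij.symm]
      · intro hj
        exact absurd (Finset.mem_univ j) hj
    rw [← hid]
    have : ∀ s' : Finset ι', (∑ i ∈ s', (LinearMap.single ℂ (fun _ : ι' => V') i) ∘ₗ
        (LinearMap.proj i ∘ₗ α')).lTensor V (S.subtype.rTensor V' s) = 0 := by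
      intro s'
      induction s' using Finset.induction_on with
      | empty => simp
      | insert a s' ha ih =>
        rw [Finset.sum_insert ha, LinearMap.lTensor_add, LinearMap.add_apply, ih, add_zero,
          LinearMap.lTensor_comp, LinearMap.comp_apply, h' a, map_zero]
    exact this Finset.univ
  have z3 : (S.subtype.rTensor (ι' → V')) (α'.lTensor S s) = 0 := by
    have hc : (S.subtype.rTensor (ι' → V')) (α'.lTensor S s) =
        (LinearMap.lTensor V α') (S.subtype.rTensor V' s) := by
      rw [← LinearMap.comp_apply, ← LinearMap.comp_apply, LinearMap.rTensor_comp_lTensor,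
        LinearMap.lTensor_comp_rTensor]
    rw [hc, z2]
  have hinj : Function.Injective (S.subtype.rTensor (ι' → V')) :=
    Module.Flat.rTensor_preserves_injective_linearMap S.subtype Subtype.val_injective
  have z4 : α'.lTensor S s = 0 := hinj (by rw [z3, map_zero])
  obtain ⟨s', rfl⟩ := (f2 s).1 z4
  refine ⟨s', ?_⟩
  rw [← LinearMap.comp_apply, LinearMap.rTensor_comp_lTensor]

namespace BD

variable {D : Dat} {m k : ℕ} {v : Wd D m} {v' : Wd D k} {v'' : Wd D (m + k)}
  (B : BD F D v) (B' : BD F D v') (B'' : BD F D v'') (e : B.κ ⊕ B'.κ ≃ B''.κ)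
  (Ξ : mulSp B.W B'.W →ₗ[ℂ] B''.V) (hΞ : B.IsXi B' B'' e Ξ)

/-- the action of two elements on a product -/
def act₂ (a : R D m) (b : R D k) : mulSp B.W B'.W →ₗ[ℂ] mulSp B.W B'.W :=
  mulMap B.W B.W B'.W B'.W (B.φ a).1 (B.φ_equi a) (B'.φ b).1 (B'.φ_equi b)

theorem act₂_apply (a : R D m) (b : R D k) (x : mulSp B.W B'.W) (h : GL (B.κ ⊕ B'.κ) F) :
    (B.act₂ B' a b x).1 h = TensorProduct.map (B.φ a).1 (B'.φ b).1 (x.1 h) := rfl

include hΞ in
theorem xi_act (a : R D m) (b : R D k) (x : mulSp B.W B'.W) :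
    Ξ (B.act₂ B' a b x) = (B''.φ (iota D m k (a ⊗ₜ[ℂ] b))).1 (Ξ x) := hΞ.act a b x

theorem iota_yk₁ (j : Fin m) : iota D m k (yk j ⊗ₜ[ℂ] 1) = yk (Fin.castAdd k j) := by
  rw [iota, Algebra.TensorProduct.lift_tmul, map_one, mul_one, (iotaL_spec D m k).2.1]

theorem iota_yk₂ (j : Fin k) : iota D m k (1 ⊗ₜ[ℂ] yk j) = yk (Fin.natAdd m j) := by
  rw [iota, Algebra.TensorProduct.lift_tmul, map_one, one_mul, (iotaR_spec D m k).2.1]

/-- the inclusion of the product of two socles -/
def socM (w : Wd D m) (w' : Wd D k) : mulSp (B.socR w) (B'.socR w') →ₗ[ℂ] mulSp B.W B'.W :=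
  mulMap (B.socR w) B.W (B'.socR w') B'.W (B.soc w).subtype (fun _ _ => rfl)
    (B'.soc w').subtype (fun _ _ => rfl)

theorem socM_inj (w : Wd D m) (w' : Wd D k) : Function.Injective (B.socM B' w w') :=
  mulMap_inj _ _ _ _ _ _ _ _ Subtype.val_injective Subtype.val_injective

theorem act₂_socM (w : Wd D m) (w' : Wd D k) (a : R D m) (b : R D k) (c c' : ℂ)
    (ha : ∀ x ∈ B.soc w, (B.φ a).1 x = c • x) (hb : ∀ x ∈ B'.soc w', (B'.φ b).1 x = c' • x)
    (x : mulSp (B.socR w) (B'.socR w')) :
    B.act₂ B' a b (B.socM B' w w' x) = (c * c') • B.socM B' w w' x := by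
  refine Subtype.ext (funext fun h => ?_)
  show TensorProduct.map (B.φ a).1 (B'.φ b).1
    (TensorProduct.map (B.soc w).subtype (B'.soc w').subtype (x.1 h)) =
      (c * c') • TensorProduct.map (B.soc w).subtype (B'.soc w').subtype (x.1 h)
  generalize (x.1 h : (B.soc w) ⊗[ℂ] (B'.soc w')) = t
  induction t using TensorProduct.induction_on with
  | zero => simp only [map_zero, smul_zero]
  | add s t hs ht => simp only [map_add, smul_add, hs, ht]
  | tmul p q =>
    rw [TensorProduct.map_tmul, TensorProduct.map_tmul]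
    show (B.φ a).1 p.1 ⊗ₜ[ℂ] (B'.φ b).1 q.1 = (c * c') • (p.1 ⊗ₜ[ℂ] q.1)
    rw [ha _ p.2, hb _ q.2, TensorProduct.smul_tmul_smul]

include hΞ in
theorem socM_mem (w : Wd D m) (w' : Wd D k) (x : mulSp (B.socR w) (B'.socR w')) :
    Ξ (B.socM B' w w' x) ∈ B''.soc (Fin.append w w') := by
  refine ⟨?_, fun j => ?_⟩
  · rw [← iota_ew', ← xi_act B B' B'' e Ξ hΞ, act₂_socM B B' w w' _ _ 1 1
      (fun y hy => by rw [hy.1, one_smul]) (fun y hy => by rw [hy.1, one_smul]), one_mul, one_smul]
  · refine Fin.addCases (fun i => ?_) (fun i => ?_) j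
    · rw [← iota_yk₁, ← xi_act B B' B'' e Ξ hΞ, act₂_socM B B' w w' _ _ 0 1
        (fun y hy => by rw [hy.2, zero_smul])
        (fun y hy => by rw [map_one, one_smul]; rfl), zero_mul, zero_smul, map_zero]
    · rw [← iota_yk₂, ← xi_act B B' B'' e Ξ hΞ, act₂_socM B B' w w' _ _ 1 0
        (fun y hy => by rw [map_one, one_smul]; rfl)
        (fun y hy => by rw [hy.2, zero_smul]), mul_zero, zero_smul, map_zero]

include hΞ in
theorem socM_surj (w : Wd D m) (hw : w ∈ orb v) (w' : Wd D k) (hw' : w' ∈ orb v') (z : B''.V)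
    (hz : z ∈ B''.soc (Fin.append w w')) :
    ∃ x, Ξ (B.socM B' w w' x) = z := by
  obtain ⟨y, rfl⟩ := hΞ.surj w hw w' hw' z hz.1
  obtain ⟨hz1, hz2⟩ := hz
  have k1 : B.act₂ B' (ew w) (ew w') y = y := by
    apply hΞ.inj
    rw [xi_act B B' B'' e Ξ hΞ, iota_ew', hz1]
  have k2 : ∀ j : Fin m, B.act₂ B' (yk j) 1 y = 0 := by
    intro j
    apply hΞ.inj
    rw [xi_act B B' B'' e Ξ hΞ, iota_yk₁, hz2, map_zero]
  have k3 : ∀ j : Fin k, B.act₂ B' 1 (yk j) y = 0 := by
    intro j
    apply hΞ.inj
    rw [xi_act B B' B'' e Ξ hΞ, iota_yk₂, hz2, map_zero]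
  have k4 : B.act₂ B' (ew w - 1) 1 y = 0 := by
    apply hΞ.inj
    rw [xi_act B B' B'' e Ξ hΞ]
    have h1 : iota D m k ((ew w - 1 : R D m) ⊗ₜ[ℂ] (1 : R D k)) * ew (Fin.append w w') = 0 := by
      rw [← iota_ew', ← map_mul, Algebra.TensorProduct.tmul_mul_tmul, sub_mul, one_mul, one_mul,
        (isRep_R D m).E_mul, if_pos rfl, sub_self, TensorProduct.zero_tmul, map_zero]
    rw [← hz1]
    have h2 := congrArg (fun r => (B''.φ r).1 (Ξ y)) h1
    simp only [map_mul, map_zero] at h2
    rw [map_zero]
    exact h2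
  have k5 : B.act₂ B' 1 (ew w' - 1) y = 0 := by
    apply hΞ.inj
    rw [xi_act B B' B'' e Ξ hΞ]
    have h1 : iota D m k ((1 : R D m) ⊗ₜ[ℂ] (ew w' - 1 : R D k)) * ew (Fin.append w w') = 0 := by
      rw [← iota_ew', ← map_mul, Algebra.TensorProduct.tmul_mul_tmul, sub_mul, one_mul, one_mul,
        (isRep_R D k).E_mul, if_pos rfl, sub_self, TensorProduct.tmul_zero, map_zero]
    rw [← hz1]
    have h2 := congrArg (fun r => (B''.φ r).1 (Ξ y)) h1
    simp only [map_mul, map_zero] at h2
    rw [map_zero]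
    exact h2
  obtain ⟨x, hx⟩ := mulMap_lift (B.socR w) B.W (B'.socR w') B'.W (B.soc w).subtype
    (fun _ _ => rfl) (B'.soc w').subtype (fun _ _ => rfl) Subtype.val_injective
    Subtype.val_injective y (fun h => by
      refine tens_ker (ι := Option (Fin m)) (ι' := Option (Fin k)) (B.soc w) (B'.soc w')
        (LinearMap.pi fun o => o.elim (B.φ (ew w - 1)).1 fun j => (B.φ (yk j)).1)
        (LinearMap.pi fun o => o.elim (B'.φ (ew w' - 1)).1 fun j => (B'.φ (yk j)).1)
        ?_ ?_ (y.1 h) ?_ ?_
      · intro x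
        constructor
        · rintro ⟨h1, h2⟩
          funext o
          cases o with
          | none =>
            show (B.φ (ew w - 1)).1 x = 0
            rw [map_sub, map_one]
            show (B.φ (ew w)).1 x - x = 0
            rw [h1, sub_self]
          | some j => exact h2 j
        · intro h0
          refine ⟨?_, fun j => congrFun h0 (some j)⟩
          have h1 : (B.φ (ew w - 1)).1 x = 0 := congrFun h0 none
          rw [map_sub, map_one] at h1
          exact sub_eq_zero.1 h1
      · intro x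
        constructor
        · rintro ⟨h1, h2⟩
          funext o
          cases o with
          | none =>
            show (B'.φ (ew w' - 1)).1 x = 0
            rw [map_sub, map_one]
            show (B'.φ (ew w')).1 x - x = 0
            rw [h1, sub_self]
          | some j => exact h2 j
        · intro h0
          refine ⟨?_, fun j => congrFun h0 (some j)⟩
          have h1 : (B'.φ (ew w' - 1)).1 x = 0 := congrFun h0 none
          rw [map_sub, map_one] at h1
          exact sub_eq_zero.1 h1
      · intro o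
        cases o with
        | none =>
          have h1 := congrFun (congrArg Subtype.val k4) h
          rw [act₂_apply, map_one] at h1
          exact h1
        | some j =>
          have h1 := congrFun (congrArg Subtype.val (k2 j)) h
          rw [act₂_apply, map_one] at h1
          exact h1
      · intro o
        cases o with
        | none =>
          have h1 := congrFun (congrArg Subtype.val k5) h
          rw [act₂_apply, map_one] at h1
          exact h1
        | some j =>
          have h1 := congrFun (congrArg Subtype.val (k3 j)) h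
          rw [act₂_apply, map_one] at h1
          exact h1)
  exact ⟨x, congrArg Ξ hx⟩

end BD

end

end Pool.Agent.Lib.MP_ca1492_al.L
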