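import Mathlib
import Pool.Agent.Lib.MP_ca1492_al.L5.ClB
import Pool.Agent.Lib.MP_ca1492_al.L5.Eta
import Pool.Agent.Lib.MP_ca1492_al.L5.P2A

/-!
# MP_ca1492_al, L5/P2B: surjectivity of the natural map
-/

set_option autoImplicit false

namespace Pool.Agent.Lib.MP_ca1492_al.L

open Topology Matrix TensorProduct ValuativeRel CA1492 CA1492.PA
open Pool.Agent.Lib.MP_ca1492_al.P Pool.Agent.Lib.MP_ca1492_al.Q

noncomputable section

variable {F : Type} [Field F] [ValuativeRel F] [TopologicalSpace F]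
  [IsNonarchimedeanLocalField F]

namespace BD

section

variable {D : Dat} {n : ℕ} {v : Wd D n} (B : BD F D v)
variable {U U' : Type} [AddCommGroup U] [Module ℂ U] [AddCommGroup U'] [Module ℂ U']

theorem Hmap_id (π : Representation ℂ (GL B.κ F) U) (h : Equi π π LinearMap.id) :
    B.Hmap π π LinearMap.id h = LinearMap.id := rfl

theorem Hmap_bij (π : Representation ℂ (GL B.κ F) U) (π' : Representation ℂ (GL B.κ F) U')
    (hπ' : IsSm π') (f : U →ₗ[ℂ] U') (hf : Equi π π' f) (hb : Function.Bijective f) :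
    Function.Bijective (B.Hmap π π' f hf) :=
  ⟨B.Hmap_inj π π' f hf hb.2, B.Hmap_surj π π' hπ' f hf hb.1⟩

theorem finrank_eq {M N : RMod D n} (f : M.V →ₗ[R D n] N.V) (hf : Function.Bijective f)
    [Module.Finite ℂ M.V] :
    Module.Finite ℂ N.V ∧ Module.finrank ℂ M.V = Module.finrank ℂ N.V := by
  let E := RMod_eC M N (LinearEquiv.ofBijective f hf)
  exact ⟨Module.Finite.equiv E, E.finrank_eq⟩

end

variable {D : Dat} {m k : ℕ} {v : Wd D m} {v' : Wd D k}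
  (B : BD F D v) (B' : BD F D v') (B'' : BD F D (Fin.append v v')) (e : B.κ ⊕ B'.κ ≃ B''.κ)
  (Ξ : mulSp B.W B'.W →ₗ[ℂ] B''.V) (hΞ : B.IsXi B' B'' e Ξ)

/-- the product of two socles -/
abbrev socE (w : Wd D m) (w' : Wd D k) :
    Representation ℂ (GL B''.κ F) (mulSp (B.socR w) (B'.socR w')) :=
  B.mulE B' B'' e (B.socR w) (B'.socR w')

include hΞ in
theorem soc_iso (w : Wd D m) (hw : w ∈ orb v) (w' : Wd D k) (hw' : w' ∈ orb v') :
    ∃ u : mulSp (B.socR w) (B'.socR w') →ₗ[ℂ] B''.soc (Fin.append w w'),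
      Equi (V := mulSp (B.socR w) (B'.socR w')) (B.socE B' B'' e w w')
        (B''.socR (Fin.append w w')) u ∧
      Function.Bijective u ∧ ∀ x, (u x).1 = Ξ (B.socM B' w w' x) := by
  refine ⟨(Ξ ∘ₗ B.socM B' w w').codRestrict (B''.soc (Fin.append w w'))
    (fun x => socM_mem B B' B'' e Ξ hΞ w w' x), ?_, ⟨?_, ?_⟩, fun _ => rfl⟩
  · intro g x
    refine Subtype.ext ?_
    exact B.xi_equi B' B'' e Ξ hΞ (B.socR w) (B'.socR w') (B.socI w) (B'.socI w') g x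
  · intro x y h
    have h1 : Ξ (B.socM B' w w' x) = Ξ (B.socM B' w w' y) := congrArg Subtype.val h
    exact socM_inj B B' w w' (hΞ.inj h1)
  · rintro ⟨z, hz⟩
    obtain ⟨x, hx⟩ := socM_surj B B' B'' e Ξ hΞ w hw w' hw' z hz
    exact ⟨x, Subtype.ext hx⟩

/-- the generator of the induced module -/
def socG (w : Wd D m) (w' : Wd D k) : ((B.H (B.socR w)).ind (B'.H (B'.socR w'))).V :=
  (indIn (B.H (B.socR w)).V (B'.H (B'.socR w')).V (B.socI w ⊗ₜ[ℂ] B'.socI w') :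
        IndV D m k (B.H (B.socR w)).V (B'.H (B'.socR w')).V)

/-- the natural map for two socles -/
def etaS (w : Wd D m) (w' : Wd D k) : ((B.H (B.socR w)).ind (B'.H (B'.socR w'))).V →ₗ[R D (m + k)]
    (B''.H (U := mulSp (B.socR w) (B'.socR w')) (B.socE B' B'' e w w')).V :=
  B.eta B' B'' e Ξ hΞ (B.socR w) (B'.socR w')

theorem etaS_socG (w : Wd D m) (w' : Wd D k) :
    (B.etaS B' B'' e Ξ hΞ w w' (B.socG B' w w')).1 = Ξ ∘ₗ B.socM B' w w' :=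
  congrArg Subtype.val (B.eta_in B' B'' e Ξ hΞ (B.socR w) (B'.socR w') _)

theorem eta_soc_surj (w : Wd D m) (hw : w ∈ orb v) (w' : Wd D k) (hw' : w' ∈ orb v') :
    Function.Surjective (B.etaS B' B'' e Ξ hΞ w w') := by
  obtain ⟨u, hu, hb, hux⟩ := soc_iso B B' B'' e Ξ hΞ w hw w' hw'
  intro f
  obtain ⟨g, hg⟩ := B''.Hmap_surj (U := mulSp (B.socR w) (B'.socR w'))
    (B.socE B' B'' e w w') (B''.socR (Fin.append w w'))
    (smooth_sub B''.W B''.sm _ (B''.soc_stab _)) u hu hb.1 f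
  obtain ⟨a, ha⟩ := B''.soc_cyc (Fin.append w w') (append_orb hw hw') g
  refine ⟨a • B.socG B' w w', ?_⟩
  rw [map_smul]
  refine Subtype.ext (LinearMap.ext fun x => ?_)
  have h1 : f.1 x = g.1 (u x) := by
    rw [← hg]
    rfl
  have h2 : g.1 (u x) = (B''.φ a).1 (u x).1 := by
    rw [ha]
    rfl
  have h3 : (a • B.etaS B' B'' e Ξ hΞ w w' (B.socG B' w w')).1 x =
      (B''.φ a).1 ((B.etaS B' B'' e Ξ hΞ w w' (B.socG B' w w')).1 x) := rfl
  rw [h3, etaS_socG, h1, h2, hux]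
  rfl

include hΞ in
theorem soc_prod_rank (w : Wd D m) (hw : w ∈ orb v) (w' : Wd D k) (hw' : w' ∈ orb v') :
    Module.Finite ℂ (B''.H (U := mulSp (B.socR w) (B'.socR w')) (B.socE B' B'' e w w')).V ∧
      Module.finrank ℂ (B''.H (U := mulSp (B.socR w) (B'.socR w')) (B.socE B' B'' e w w')).V =
        (m + k).factorial := by
  obtain ⟨u, hu, hb, -⟩ := soc_iso B B' B'' e Ξ hΞ w hw w' hw'
  obtain ⟨h1, h2⟩ := B''.soc_rank (Fin.append w w') (append_orb hw hw')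
  have h5 := B''.Hmap_bij (U := mulSp (B.socR w) (B'.socR w'))
    (B.socE B' B'' e w w') (B''.socR (Fin.append w w'))
    (smooth_sub B''.W B''.sm _ (B''.soc_stab _)) u hu hb
  obtain ⟨h3, h4⟩ := finrank_eq _ h5
  exact ⟨h3, h4.symm.trans h2⟩

section nat

variable {U₁ U₂ U₁' U₂' U₁'' U₂'' : Type} [AddCommGroup U₁] [Module ℂ U₁] [AddCommGroup U₂]
  [Module ℂ U₂] [AddCommGroup U₁'] [Module ℂ U₁'] [AddCommGroup U₂'] [Module ℂ U₂']
  [AddCommGroup U₁''] [Module ℂ U₁''] [AddCommGroup U₂''] [Module ℂ U₂'']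
  (π₁ : Representation ℂ (GL B.κ F) U₁) (π₂ : Representation ℂ (GL B'.κ F) U₂)
  (π₁' : Representation ℂ (GL B.κ F) U₁') (π₂' : Representation ℂ (GL B'.κ F) U₂')
  (π₁'' : Representation ℂ (GL B.κ F) U₁'') (π₂'' : Representation ℂ (GL B'.κ F) U₂'')

theorem mulE_sm : IsSm (B.mulE B' B'' e π₁ π₂) :=
  MulMap_reR_sm e.symm _ (mulR_sm π₁ π₂)

/-- surjectivity passes to subobjects -/
theorem eta_surj_sub (f : U₁ →ₗ[ℂ] U₁') (hf : Equi π₁ π₁' f)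
    (hfi : Function.Injective f) (g : U₂ →ₗ[ℂ] U₂') (hg : Equi π₂ π₂' g)
    (hgi : Function.Injective g)
    (h : Function.Surjective (B.eta B' B'' e Ξ hΞ π₁' π₂')) :
    Function.Surjective (B.eta B' B'' e Ξ hΞ π₁ π₂) := by
  intro y
  obtain ⟨z, rfl⟩ := B''.Hmap_surj (B.mulE B' B'' e π₁ π₂) (B.mulE B' B'' e π₁' π₂')
    (mulE_sm B B' B'' e π₁' π₂') (mulMap π₁ π₁' π₂ π₂' f hf g hg)
    (MulMap_reR_equi e.symm _ _ _ (mulMap_equi π₁ π₁' π₂ π₂' f hf g hg))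
    (mulMap_inj π₁ π₁' π₂ π₂' f hf g hg hfi hgi) y
  obtain ⟨X, rfl⟩ := h z
  exact ⟨_, B.eta_nat B' B'' e Ξ hΞ π₁ π₂ π₁' π₂' f hf g hg X⟩

/-- the four lemma, first variable -/
theorem eta_surj_ext₁ (h₁ : IsSm π₁) (h₂ : IsSm π₂) (i : U₁' →ₗ[ℂ] U₁) (hi : Equi π₁' π₁ i)
    (hii : Function.Injective i) (p : U₁ →ₗ[ℂ] U₁'') (hp : Equi π₁ π₁'' p)
    (hs : Function.Surjective p) (hex : ∀ u, p u = 0 ↔ ∃ u', i u' = u)
    (h' : Function.Surjective (B.eta B' B'' e Ξ hΞ π₁' π₂))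
    (h'' : Function.Surjective (B.eta B' B'' e Ξ hΞ π₁'' π₂)) :
    Function.Surjective (B.eta B' B'' e Ξ hΞ π₁ π₂) := by
  intro y
  have hI : Equi (B.mulE B' B'' e π₁' π₂) (B.mulE B' B'' e π₁ π₂)
      (mulMap π₁' π₁ π₂ π₂ i hi LinearMap.id (fun _ _ => rfl)) :=
    MulMap_reR_equi e.symm _ _ _ (mulMap_equi _ _ _ _ _ _ _ _)
  have hP : Equi (B.mulE B' B'' e π₁ π₂) (B.mulE B' B'' e π₁'' π₂)
      (mulMap π₁ π₁'' π₂ π₂ p hp LinearMap.id (fun _ _ => rfl)) :=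
    MulMap_reR_equi e.symm _ _ _ (mulMap_equi _ _ _ _ _ _ _ _)
  obtain ⟨z', hz'⟩ := h' (B''.Hmap _ _ _ hI y)
  obtain ⟨z, rfl⟩ := RMod.indMap_surj (B.Hmap π₁' π₁ i hi)
    (B'.Hmap π₂ π₂ LinearMap.id (fun _ _ => rfl)) (B.Hmap_surj π₁' π₁ h₁ i hi hii)
    (B'.Hmap_surj π₂ π₂ h₂ LinearMap.id (fun _ _ => rfl) Function.injective_id) z'
  rw [B.eta_nat B' B'' e Ξ hΞ π₁' π₂ π₁ π₂ i hi LinearMap.id (fun _ _ => rfl) z] at hz'
  have h0 : B''.Hmap _ _ _ hI (y - B.eta B' B'' e Ξ hΞ π₁ π₂ z) = 0 := by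
    rw [map_sub, sub_eq_zero]
    exact hz'.symm
  obtain ⟨q, hq⟩ := (B''.Hmap_exact (B.mulE B' B'' e π₁ π₂) (B.mulE B' B'' e π₁' π₂)
    (B.mulE B' B'' e π₁'' π₂) _ hI _ hP
    (mulMap_surj π₁ π₁'' π₂ π₂ p hp LinearMap.id (fun _ _ => rfl) h₁ h₂ hs
      Function.surjective_id)
    (fun x => mulMap_exact₁ π₁ π₁' π₁'' π₂ i hi hii p hp hex x) _).1 h0
  obtain ⟨t, rfl⟩ := h'' q
  refine ⟨z + RMod.indMap (B.Hmap π₁ π₁'' p hp) (B'.Hmap π₂ π₂ LinearMap.id (fun _ _ => rfl)) t,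
    ?_⟩
  rw [map_add, B.eta_nat B' B'' e Ξ hΞ π₁ π₂ π₁'' π₂ p hp LinearMap.id (fun _ _ => rfl) t]
  exact (congrArg (fun s => B.eta B' B'' e Ξ hΞ π₁ π₂ z + s) hq).trans (add_sub_cancel _ _)

/-- the four lemma, second variable -/
theorem eta_surj_ext₂ (h₁ : IsSm π₁) (h₂ : IsSm π₂) (i : U₂' →ₗ[ℂ] U₂) (hi : Equi π₂' π₂ i)
    (hii : Function.Injective i) (p : U₂ →ₗ[ℂ] U₂'') (hp : Equi π₂ π₂'' p)
    (hs : Function.Surjective p) (hex : ∀ u, p u = 0 ↔ ∃ u', i u' = u)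
    (h' : Function.Surjective (B.eta B' B'' e Ξ hΞ π₁ π₂'))
    (h'' : Function.Surjective (B.eta B' B'' e Ξ hΞ π₁ π₂'')) :
    Function.Surjective (B.eta B' B'' e Ξ hΞ π₁ π₂) := by
  intro y
  have hI : Equi (B.mulE B' B'' e π₁ π₂') (B.mulE B' B'' e π₁ π₂)
      (mulMap π₁ π₁ π₂' π₂ LinearMap.id (fun _ _ => rfl) i hi) :=
    MulMap_reR_equi e.symm _ _ _ (mulMap_equi _ _ _ _ _ _ _ _)
  have hP : Equi (B.mulE B' B'' e π₁ π₂) (B.mulE B' B'' e π₁ π₂'')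
      (mulMap π₁ π₁ π₂ π₂'' LinearMap.id (fun _ _ => rfl) p hp) :=
    MulMap_reR_equi e.symm _ _ _ (mulMap_equi _ _ _ _ _ _ _ _)
  obtain ⟨z', hz'⟩ := h' (B''.Hmap _ _ _ hI y)
  obtain ⟨z, rfl⟩ := RMod.indMap_surj (B.Hmap π₁ π₁ LinearMap.id (fun _ _ => rfl))
    (B'.Hmap π₂' π₂ i hi) (B.Hmap_surj π₁ π₁ h₁ LinearMap.id (fun _ _ => rfl)
      Function.injective_id) (B'.Hmap_surj π₂' π₂ h₂ i hi hii) z'
  rw [B.eta_nat B' B'' e Ξ hΞ π₁ π₂' π₁ π₂ LinearMap.id (fun _ _ => rfl) i hi z] at hz'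
  have h0 : B''.Hmap _ _ _ hI (y - B.eta B' B'' e Ξ hΞ π₁ π₂ z) = 0 := by
    rw [map_sub, sub_eq_zero]
    exact hz'.symm
  obtain ⟨q, hq⟩ := (B''.Hmap_exact (B.mulE B' B'' e π₁ π₂) (B.mulE B' B'' e π₁ π₂')
    (B.mulE B' B'' e π₁ π₂'') _ hI _ hP
    (mulMap_surj π₁ π₁ π₂ π₂'' LinearMap.id (fun _ _ => rfl) p hp h₁ h₂
      Function.surjective_id hs)
    (fun x => mulMap_exact₂ π₁ π₂ π₂' π₂'' i hi hii p hp hex x) _).1 h0
  obtain ⟨t, rfl⟩ := h'' q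
  refine ⟨z + RMod.indMap (B.Hmap π₁ π₁ LinearMap.id (fun _ _ => rfl)) (B'.Hmap π₂ π₂'' p hp) t,
    ?_⟩
  rw [map_add, B.eta_nat B' B'' e Ξ hΞ π₁ π₂ π₁ π₂'' LinearMap.id (fun _ _ => rfl) p hp t]
  exact (congrArg (fun s => B.eta B' B'' e Ξ hΞ π₁ π₂ z + s) hq).trans (add_sub_cancel _ _)

/-- the natural map is surjective if one of the factors is zero -/
theorem eta_surj_zero (h : (∀ u : U₁, u = 0) ∨ (∀ u : U₂, u = 0)) :
    Function.Surjective (B.eta B' B'' e Ξ hΞ π₁ π₂) := by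
  intro y
  refine ⟨0, ?_⟩
  rw [map_zero]
  have h0 : ∀ t : U₁ ⊗[ℂ] U₂, t = 0 := by
    intro t
    induction t using TensorProduct.induction_on with
    | zero => rfl
    | add a b ha hb => rw [ha, hb, add_zero]
    | tmul a b =>
      rcases h with h | h
      · rw [h a, TensorProduct.zero_tmul]
      · rw [h b, TensorProduct.tmul_zero]
  refine Subtype.ext (LinearMap.ext fun x => ?_)
  have hx : x = 0 := Subtype.ext (funext fun g => h0 _)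
  rw [hx]
  exact (map_zero _).trans (map_zero _).symm

end nat

theorem not_irr {G U : Type} [Group G] [AddCommGroup U] [Module ℂ U] (π : Representation ℂ G U)
    (h : ¬ Irr π) (h0 : ∃ u : U, u ≠ 0) :
    ∃ X : Submodule ℂ U, Stab π X ∧ X ≠ ⊥ ∧ X ≠ ⊤ := by
  by_contra hcon
  apply h
  refine ⟨h0, fun X hX => ?_⟩
  by_contra h1
  rw [not_or] at h1
  exact hcon ⟨X, hX, h1.1, h1.2⟩

theorem finrank_pos {n : ℕ} {w : Wd D n} (C : BD F D w) {U : Type} [AddCommGroup U] [Module ℂ U]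
    {π : Representation ℂ (GL C.κ F) U} (h : C.Cl π) (h0 : ∃ u : U, u ≠ 0) :
    0 < Module.finrank ℂ (C.H π).V := by
  haveI := Cl.fin C h
  obtain ⟨f, hf⟩ := Cl.pos C h h0
  haveI : Nontrivial (C.H π).V := ⟨⟨f, 0, hf⟩⟩
  exact Module.finrank_pos

/-- dévissage: a nonzero reducible representation of the class is an extension of two smaller ones -/
theorem devissage {n : ℕ} {w : Wd D n} (C : BD F D w) {U : Type} [AddCommGroup U] [Module ℂ U]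
    (π : Representation ℂ (GL C.κ F) U) (h : C.Cl π) (X : Submodule ℂ U) (hX : Stab π X)
    (hb : X ≠ ⊥) (ht : X ≠ ⊤) :
    Module.finrank ℂ (C.H (subRep π X hX)).V < Module.finrank ℂ (C.H π).V ∧
    Module.finrank ℂ (C.H (quoRep π X hX)).V < Module.finrank ℂ (C.H π).V := by
  haveI := Cl.fin C h
  have hs : C.Cl (subRep π X hX) := Cl.sub C h X.subtype (fun _ _ => rfl) Subtype.val_injective
  have hq : C.Cl (quoRep π X hX) := Cl.quo C h X.mkQ (fun _ _ => rfl) (Submodule.mkQ_surjective X)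
  obtain ⟨-, -, h1⟩ := C.H_rank π (subRep π X hX) (quoRep π X hX) (Cl.sm C h) X.subtype
    (fun _ _ => rfl) Subtype.val_injective X.mkQ (fun _ _ => rfl) (Submodule.mkQ_surjective X)
    (fun u => by
      rw [Submodule.mkQ_apply, Submodule.Quotient.mk_eq_zero]
      exact ⟨fun hu => ⟨⟨u, hu⟩, rfl⟩, fun ⟨u', hu'⟩ => hu' ▸ u'.2⟩)
  have h2 := C.finrank_pos hs (by
    obtain ⟨x, hx, hx0⟩ := (Submodule.ne_bot_iff X).1 hb
    exact ⟨⟨x, hx⟩, fun h => hx0 (congrArg Subtype.val h)⟩)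
  have h3 := C.finrank_pos hq (by
    obtain ⟨x, hx⟩ : ∃ x, x ∉ X := by
      by_contra hcon
      push Not at hcon
      exact ht (Submodule.eq_top_iff'.2 hcon)
    exact ⟨Submodule.Quotient.mk x, fun h => hx ((Submodule.Quotient.mk_eq_zero X).1 h)⟩)
  omega

theorem eta_surj_aux (N : ℕ) : ∀ (U₁ U₂ : Type) [AddCommGroup U₁] [Module ℂ U₁]
    [AddCommGroup U₂] [Module ℂ U₂] (π₁ : Representation ℂ (GL B.κ F) U₁)
    (π₂ : Representation ℂ (GL B'.κ F) U₂), B.Cl π₁ → B'.Cl π₂ →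
    Module.finrank ℂ (B.H π₁).V + Module.finrank ℂ (B'.H π₂).V ≤ N →
    Function.Surjective (B.eta B' B'' e Ξ hΞ π₁ π₂) := by
  induction N with
  | zero =>
    intro U₁ U₂ _ _ _ _ π₁ π₂ h₁ h₂ hN
    refine eta_surj_zero B B' B'' e Ξ hΞ π₁ π₂ (Or.inl ?_)
    by_contra hcon
    push Not at hcon
    have := B.finrank_pos h₁ hcon
    omega
  | succ N ih =>
    intro U₁ U₂ _ _ _ _ π₁ π₂ h₁ h₂ hN
    by_cases hz : (∀ u : U₁, u = 0) ∨ (∀ u : U₂, u = 0)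
    · exact eta_surj_zero B B' B'' e Ξ hΞ π₁ π₂ hz
    rw [not_or] at hz
    obtain ⟨hz1, hz2⟩ := hz
    push Not at hz1 hz2
    by_cases hi1 : Irr π₁
    · by_cases hi2 : Irr π₂
      · obtain ⟨w, hw, f, hf, hfi, hfs⟩ := Cl.emb B h₁ hi1
        obtain ⟨w', hw', f', hf', hfi', hfs'⟩ := Cl.emb B' h₂ hi2
        refine eta_surj_sub B B' B'' e Ξ hΞ π₁ π₂ (B.socR w) (B'.socR w')
          (f.codRestrict (B.soc w) hfs) (fun g u => Subtype.ext (hf g u))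
          (fun x y h => hfi (congrArg Subtype.val h))
          (f'.codRestrict (B'.soc w') hfs') (fun g u => Subtype.ext (hf' g u))
          (fun x y h => hfi' (congrArg Subtype.val h))
          (eta_soc_surj B B' B'' e Ξ hΞ w hw w' hw')
      · obtain ⟨X, hX, hb, ht⟩ := not_irr π₂ hi2 hz2
        obtain ⟨h3, h4⟩ := B'.devissage π₂ h₂ X hX hb ht
        refine eta_surj_ext₂ B B' B'' e Ξ hΞ π₁ π₂ (subRep π₂ X hX) (quoRep π₂ X hX) (Cl.sm B h₁)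
          (Cl.sm B' h₂)
          X.subtype (fun _ _ => rfl) Subtype.val_injective X.mkQ (fun _ _ => rfl)
          (Submodule.mkQ_surjective X) (fun u => by
            rw [Submodule.mkQ_apply, Submodule.Quotient.mk_eq_zero]
            exact ⟨fun hu => ⟨⟨u, hu⟩, rfl⟩, fun ⟨u', hu'⟩ => hu' ▸ u'.2⟩) ?_ ?_
        · exact ih _ _ π₁ (subRep π₂ X hX) h₁
            (Cl.sub B' h₂ X.subtype (fun _ _ => rfl) Subtype.val_injective) (by omega)
        · exact ih _ _ π₁ (quoRep π₂ X hX) h₁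
            (Cl.quo B' h₂ X.mkQ (fun _ _ => rfl) (Submodule.mkQ_surjective X)) (by omega)
    · obtain ⟨X, hX, hb, ht⟩ := not_irr π₁ hi1 hz1
      obtain ⟨h3, h4⟩ := B.devissage π₁ h₁ X hX hb ht
      refine eta_surj_ext₁ B B' B'' e Ξ hΞ π₁ π₂ (subRep π₁ X hX) (quoRep π₁ X hX) (Cl.sm B h₁)
          (Cl.sm B' h₂)
        X.subtype (fun _ _ => rfl) Subtype.val_injective X.mkQ (fun _ _ => rfl)
        (Submodule.mkQ_surjective X) (fun u => by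
          rw [Submodule.mkQ_apply, Submodule.Quotient.mk_eq_zero]
          exact ⟨fun hu => ⟨⟨u, hu⟩, rfl⟩, fun ⟨u', hu'⟩ => hu' ▸ u'.2⟩) ?_ ?_
      · exact ih _ _ (subRep π₁ X hX) π₂
          (Cl.sub B h₁ X.subtype (fun _ _ => rfl) Subtype.val_injective) h₂ (by omega)
      · exact ih _ _ (quoRep π₁ X hX) π₂
          (Cl.quo B h₁ X.mkQ (fun _ _ => rfl) (Submodule.mkQ_surjective X)) h₂ (by omega)

theorem eta_surj {U₁ U₂ : Type} [AddCommGroup U₁] [Module ℂ U₁]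
    [AddCommGroup U₂] [Module ℂ U₂] (π₁ : Representation ℂ (GL B.κ F) U₁)
    (π₂ : Representation ℂ (GL B'.κ F) U₂) (h₁ : B.Cl π₁) (h₂ : B'.Cl π₂) :
    Function.Surjective (B.eta B' B'' e Ξ hΞ π₁ π₂) :=
  eta_surj_aux B B' B'' e Ξ hΞ _ U₁ U₂ π₁ π₂ h₁ h₂ le_rfl

end BD

end

end Pool.Agent.Lib.MP_ca1492_al.L
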