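import Mathlib
import Pool.Agent.Lib.MP_ca1492_al.L5.P2B

/-!
# MP_ca1492_al, L5/P2 (helper31): the module of a product
-/

set_option autoImplicit false

namespace Pool.Agent.Lib.MP_ca1492_al.L

open Topology Matrix TensorProduct ValuativeRel CA1492 CA1492.PA
open CategoryTheory CategoryTheory.Abelian
open Pool.Agent.Lib.MP_ca1492_al.P Pool.Agent.Lib.MP_ca1492_al.Q

noncomputable section

variable {F : Type} [Field F] [ValuativeRel F] [TopologicalSpace F]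
  [IsNonarchimedeanLocalField F]

namespace BD

variable {D : Dat} {m k : ℕ} {v : Wd D m} {v' : Wd D k}
  (B : BD F D v) (B' : BD F D v') (B'' : BD F D (Fin.append v v')) (e : B.κ ⊕ B'.κ ≃ B''.κ)
  (Ξ : mulSp B.W B'.W →ₗ[ℂ] B''.V) (hΞ : B.IsXi B' B'' e Ξ)

section count

variable {U₁ U₂ U₁' U₂' U₁'' U₂'' : Type} [AddCommGroup U₁] [Module ℂ U₁] [AddCommGroup U₂]
  [Module ℂ U₂] [AddCommGroup U₁'] [Module ℂ U₁'] [AddCommGroup U₂'] [Module ℂ U₂']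
  [AddCommGroup U₁''] [Module ℂ U₁''] [AddCommGroup U₂''] [Module ℂ U₂'']
  (π₁ : Representation ℂ (GL B.κ F) U₁) (π₂ : Representation ℂ (GL B'.κ F) U₂)
  (π₁' : Representation ℂ (GL B.κ F) U₁') (π₂' : Representation ℂ (GL B'.κ F) U₂')
  (π₁'' : Representation ℂ (GL B.κ F) U₁'') (π₂'' : Representation ℂ (GL B'.κ F) U₂'')

/-- dimension of the induced module -/
abbrev dI : ℕ := Module.finrank ℂ ((B.H π₁).ind (B'.H π₂)).V

/-- dimension of the module of the product -/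
abbrev dH : ℕ := Module.finrank ℂ (B''.H (B.mulE B' B'' e π₁ π₂)).V

include hΞ in
theorem dH_facts (h₁ : B.Cl π₁) (h₂ : B'.Cl π₂) :
    Module.Finite ℂ (B''.H (B.mulE B' B'' e π₁ π₂)).V ∧
      B.dH B' B'' e π₁ π₂ ≤ B.dI B' π₁ π₂ := by
  haveI := Cl.fin B h₁
  haveI := Cl.fin B' h₂
  haveI : Module.Finite ℂ ((B.H π₁).ind (B'.H π₂)).V := RMod.ind_finite
  have hs : Function.Surjective (RMod.linC (B.eta B' B'' e Ξ hΞ π₁ π₂)) :=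
    eta_surj B B' B'' e Ξ hΞ π₁ π₂ h₁ h₂
  exact ⟨Module.Finite.of_surjective _ hs, LinearMap.finrank_le_finrank_of_surjective hs⟩

theorem dI_eq (h₁ : B.Cl π₁) (h₂ : B'.Cl π₂) :
    B.dI B' π₁ π₂ = (m + k).choose k *
      (Module.finrank ℂ (B.H π₁).V * Module.finrank ℂ (B'.H π₂).V) := by
  haveI := Cl.fin B h₁
  haveI := Cl.fin B' h₂
  exact RMod.ind_finrank

include hΞ in
theorem count₁ (h₁ : B.Cl π₁) (h₂ : B'.Cl π₂) (i : U₁' →ₗ[ℂ] U₁) (hi : Equi π₁' π₁ i)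
    (hii : Function.Injective i) (p : U₁ →ₗ[ℂ] U₁'') (hp : Equi π₁ π₁'' p)
    (hs : Function.Surjective p) (hex : ∀ u, p u = 0 ↔ ∃ u', i u' = u)
    (h : B.dI B' π₁ π₂ ≤ B.dH B' B'' e π₁ π₂) :
    B.dI B' π₁' π₂ ≤ B.dH B' B'' e π₁' π₂ ∧ B.dI B' π₁'' π₂ ≤ B.dH B' B'' e π₁'' π₂ := by
  have h₁' : B.Cl π₁' := Cl.sub B h₁ i hi hii
  have h₁'' : B.Cl π₁'' := Cl.quo B h₁ p hp hs
  obtain ⟨f1, g1⟩ := dH_facts B B' B'' e Ξ hΞ π₁ π₂ h₁ h₂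
  obtain ⟨-, g2⟩ := dH_facts B B' B'' e Ξ hΞ π₁' π₂ h₁' h₂
  obtain ⟨-, g3⟩ := dH_facts B B' B'' e Ξ hΞ π₁'' π₂ h₁'' h₂
  haveI := Cl.fin B h₁
  obtain ⟨-, -, r1⟩ := B.H_rank π₁ π₁' π₁'' (Cl.sm B h₁) i hi hii p hp hs hex
  have hI : Equi (B.mulE B' B'' e π₁' π₂) (B.mulE B' B'' e π₁ π₂)
      (mulMap π₁' π₁ π₂ π₂ i hi LinearMap.id (fun _ _ => rfl)) :=
    MulMap_reR_equi e.symm _ _ _ (mulMap_equi _ _ _ _ _ _ _ _)
  have hP : Equi (B.mulE B' B'' e π₁ π₂) (B.mulE B' B'' e π₁'' π₂)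
      (mulMap π₁ π₁'' π₂ π₂ p hp LinearMap.id (fun _ _ => rfl)) :=
    MulMap_reR_equi e.symm _ _ _ (mulMap_equi _ _ _ _ _ _ _ _)
  haveI := f1
  obtain ⟨-, -, r2⟩ := B''.H_rank (B.mulE B' B'' e π₁ π₂) (B.mulE B' B'' e π₁' π₂)
    (B.mulE B' B'' e π₁'' π₂) (mulE_sm B B' B'' e π₁ π₂) _ hI
    (mulMap_inj π₁' π₁ π₂ π₂ i hi LinearMap.id (fun _ _ => rfl) hii Function.injective_id) _ hP
    (mulMap_surj π₁ π₁'' π₂ π₂ p hp LinearMap.id (fun _ _ => rfl) (Cl.sm B h₁) (Cl.sm B' h₂) hs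
      Function.surjective_id)
    (fun x => mulMap_exact₁ π₁ π₁' π₁'' π₂ i hi hii p hp hex x)
  have e1 := dI_eq B B' π₁ π₂ h₁ h₂
  have e2 := dI_eq B B' π₁' π₂ h₁' h₂
  have e3 := dI_eq B B' π₁'' π₂ h₁'' h₂
  have e4 : B.dI B' π₁ π₂ = B.dI B' π₁' π₂ + B.dI B' π₁'' π₂ := by
    rw [e1, e2, e3, r1]
    ring
  have e5 : B.dH B' B'' e π₁ π₂ = B.dH B' B'' e π₁' π₂ + B.dH B' B'' e π₁'' π₂ := r2
  omega

include hΞ in
theorem count₂ (h₁ : B.Cl π₁) (h₂ : B'.Cl π₂) (i : U₂' →ₗ[ℂ] U₂) (hi : Equi π₂' π₂ i)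
    (hii : Function.Injective i) (p : U₂ →ₗ[ℂ] U₂'') (hp : Equi π₂ π₂'' p)
    (hs : Function.Surjective p) (hex : ∀ u, p u = 0 ↔ ∃ u', i u' = u)
    (h : B.dI B' π₁ π₂ ≤ B.dH B' B'' e π₁ π₂) :
    B.dI B' π₁ π₂' ≤ B.dH B' B'' e π₁ π₂' ∧ B.dI B' π₁ π₂'' ≤ B.dH B' B'' e π₁ π₂'' := by
  have h₂' : B'.Cl π₂' := Cl.sub B' h₂ i hi hii
  have h₂'' : B'.Cl π₂'' := Cl.quo B' h₂ p hp hs
  obtain ⟨f1, g1⟩ := dH_facts B B' B'' e Ξ hΞ π₁ π₂ h₁ h₂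
  obtain ⟨-, g2⟩ := dH_facts B B' B'' e Ξ hΞ π₁ π₂' h₁ h₂'
  obtain ⟨-, g3⟩ := dH_facts B B' B'' e Ξ hΞ π₁ π₂'' h₁ h₂''
  haveI := Cl.fin B' h₂
  obtain ⟨-, -, r1⟩ := B'.H_rank π₂ π₂' π₂'' (Cl.sm B' h₂) i hi hii p hp hs hex
  have hI : Equi (B.mulE B' B'' e π₁ π₂') (B.mulE B' B'' e π₁ π₂)
      (mulMap π₁ π₁ π₂' π₂ LinearMap.id (fun _ _ => rfl) i hi) :=
    MulMap_reR_equi e.symm _ _ _ (mulMap_equi _ _ _ _ _ _ _ _)
  have hP : Equi (B.mulE B' B'' e π₁ π₂) (B.mulE B' B'' e π₁ π₂'')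
      (mulMap π₁ π₁ π₂ π₂'' LinearMap.id (fun _ _ => rfl) p hp) :=
    MulMap_reR_equi e.symm _ _ _ (mulMap_equi _ _ _ _ _ _ _ _)
  haveI := f1
  obtain ⟨-, -, r2⟩ := B''.H_rank (B.mulE B' B'' e π₁ π₂) (B.mulE B' B'' e π₁ π₂')
    (B.mulE B' B'' e π₁ π₂'') (mulE_sm B B' B'' e π₁ π₂) _ hI
    (mulMap_inj π₁ π₁ π₂' π₂ LinearMap.id (fun _ _ => rfl) i hi Function.injective_id hii) _ hP
    (mulMap_surj π₁ π₁ π₂ π₂'' LinearMap.id (fun _ _ => rfl) p hp (Cl.sm B h₁) (Cl.sm B' h₂)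
      Function.surjective_id hs)
    (fun x => mulMap_exact₂ π₁ π₂ π₂' π₂'' i hi hii p hp hex x)
  have e1 := dI_eq B B' π₁ π₂ h₁ h₂
  have e2 := dI_eq B B' π₁ π₂' h₁ h₂'
  have e3 := dI_eq B B' π₁ π₂'' h₁ h₂''
  have e4 : B.dI B' π₁ π₂ = B.dI B' π₁ π₂' + B.dI B' π₁ π₂'' := by
    rw [e1, e2, e3, r1]
    ring
  have e5 : B.dH B' B'' e π₁ π₂ = B.dH B' B'' e π₁ π₂' + B.dH B' B'' e π₁ π₂'' := r2
  omega

end count

theorem ker_ex {V V' : Type} [AddCommGroup V] [Module ℂ V] [AddCommGroup V'] [Module ℂ V']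
    (p : V →ₗ[ℂ] V') (u : V) : p u = 0 ↔ ∃ u', (LinearMap.ker p).subtype u' = u :=
  ⟨fun h => ⟨⟨u, h⟩, rfl⟩, fun ⟨u', hu'⟩ => hu' ▸ u'.2⟩

theorem mkQ_ex {V V' : Type} [AddCommGroup V] [Module ℂ V] [AddCommGroup V'] [Module ℂ V']
    (i : V' →ₗ[ℂ] V) (u : V) : (LinearMap.range i).mkQ u = 0 ↔ ∃ u', i u' = u := by
  rw [Submodule.mkQ_apply, Submodule.Quotient.mk_eq_zero]
  rfl

section all

variable {U₁ U₂ : Type} [AddCommGroup U₁] [Module ℂ U₁] [AddCommGroup U₂] [Module ℂ U₂]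
  (π₁ : Representation ℂ (GL B.κ F) U₁) (π₂ : Representation ℂ (GL B'.κ F) U₂)

include hΞ in
theorem count_all (h₁ : B.Cl π₁) (h₂ : B'.Cl π₂) :
    B.dI B' π₁ π₂ ≤ B.dH B' B'' e π₁ π₂ := by
  obtain ⟨w, hw, X, hX, p, hXs, hps, hpe⟩ := id h₁
  obtain ⟨w', hw', X', hX', p', hXs', hps', hpe'⟩ := id h₂
  have c1 : B.Cl (B.socR w) := B.Cl_soc w hw
  have c2 : B'.Cl (B'.socR w') := B'.Cl_soc w' hw'
  have d1 : B.Cl (subRep B.W X hX) :=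
    Cl.sub B c1 (Submodule.inclusion hXs) (fun _ _ => rfl) (Submodule.inclusion_injective hXs)
  have d2 : B'.Cl (subRep B'.W X' hX') :=
    Cl.sub B' c2 (Submodule.inclusion hXs') (fun _ _ => rfl) (Submodule.inclusion_injective hXs')
  have s0 : B.dI B' (B.socR w) (B'.socR w') ≤
      Module.finrank ℂ (B''.H (U := mulSp (B.socR w) (B'.socR w')) (B.socE B' B'' e w w')).V := by
    rw [(soc_prod_rank B B' B'' e Ξ hΞ w hw w' hw').2, dI_eq B B' _ _ c1 c2,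
      (B.soc_rank w hw).2, (B'.soc_rank w' hw').2, RMod.ind_fact]
  have s1 := (count₁ B B' B'' e Ξ hΞ (B.socR w) (B'.socR w') (subRep B.W X hX)
    (quoRep (B.socR w) _ (range_stab (subRep B.W X hX) (B.socR w)
      (Submodule.inclusion hXs) (fun _ _ => rfl))) c1 c2
    (Submodule.inclusion hXs) (fun _ _ => rfl) (Submodule.inclusion_injective hXs)
    (LinearMap.range (Submodule.inclusion hXs)).mkQ
    (fun _ _ => rfl) (Submodule.mkQ_surjective _) (mkQ_ex _) s0).1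
  have s2 := (count₁ B B' B'' e Ξ hΞ (subRep B.W X hX) (B'.socR w')
    (subRep (subRep B.W X hX) _ (ker_stab (subRep B.W X hX) π₁ p hpe)) π₁ d1 c2
    (LinearMap.ker p).subtype (fun _ _ => rfl) Subtype.val_injective p hpe hps (ker_ex p) s1).2
  have s3 := (count₂ B B' B'' e Ξ hΞ π₁ (B'.socR w') (subRep B'.W X' hX')
    (quoRep (B'.socR w') _ (range_stab (subRep B'.W X' hX') (B'.socR w')
      (Submodule.inclusion hXs') (fun _ _ => rfl))) h₁ c2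
    (Submodule.inclusion hXs') (fun _ _ => rfl) (Submodule.inclusion_injective hXs')
    (LinearMap.range (Submodule.inclusion hXs')).mkQ
    (fun _ _ => rfl) (Submodule.mkQ_surjective _) (mkQ_ex _) s2).1
  exact (count₂ B B' B'' e Ξ hΞ π₁ (subRep B'.W X' hX')
    (subRep (subRep B'.W X' hX') _ (ker_stab (subRep B'.W X' hX') π₂ p' hpe')) π₂ h₁ d2
    (LinearMap.ker p').subtype (fun _ _ => rfl) Subtype.val_injective p' hpe' hps' (ker_ex p')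
    s3).2

include hΞ in
theorem eta_bij (h₁ : B.Cl π₁) (h₂ : B'.Cl π₂) :
    Function.Bijective (B.eta B' B'' e Ξ hΞ π₁ π₂) := by
  have hs := eta_surj B B' B'' e Ξ hΞ π₁ π₂ h₁ h₂
  obtain ⟨f1, g1⟩ := dH_facts B B' B'' e Ξ hΞ π₁ π₂ h₁ h₂
  have g2 := count_all B B' B'' e Ξ hΞ π₁ π₂ h₁ h₂
  haveI := Cl.fin B h₁
  haveI := Cl.fin B' h₂
  haveI : Module.Finite ℂ ((B.H π₁).ind (B'.H π₂)).V := RMod.ind_finite
  haveI := f1
  have hs' : Function.Surjective (RMod.linC (B.eta B' B'' e Ξ hΞ π₁ π₂)) := hs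
  have hi := (LinearMap.injective_iff_surjective_of_finrank_eq_finrank
    (le_antisymm g2 g1)).2 hs'
  exact ⟨hi, hs⟩

include hΞ in
theorem prod_cl (h₁ : B.Cl π₁) (h₂ : B'.Cl π₂) : B''.Cl (B.mulE B' B'' e π₁ π₂) := by
  obtain ⟨w, hw, X, hX, p, hXs, hps, hpe⟩ := h₁
  obtain ⟨w', hw', X', hX', p', hXs', hps', hpe'⟩ := h₂
  obtain ⟨u, hu, hb, -⟩ := soc_iso B B' B'' e Ξ hΞ w hw w' hw'
  have c0 : B''.Cl (B''.socR (Fin.append w w')) := B''.Cl_soc _ (append_orb hw hw')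
  have c1 : B''.Cl (U := mulSp (B.socR w) (B'.socR w')) (B.socE B' B'' e w w') :=
    Cl.sub B'' c0 (U' := mulSp (B.socR w) (B'.socR w')) u hu hb.1
  have c2 : B''.Cl (U := mulSp (subRep B.W X hX) (subRep B'.W X' hX'))
      (B.mulE B' B'' e (subRep B.W X hX) (subRep B'.W X' hX')) := by
    refine Cl.sub B'' (U := mulSp (B.socR w) (B'.socR w')) c1
      (mulMap (subRep B.W X hX) (B.socR w) (subRep B'.W X' hX') (B'.socR w')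
        (Submodule.inclusion hXs) (fun _ _ => rfl) (Submodule.inclusion hXs') (fun _ _ => rfl))
      (MulMap_reR_equi (V := mulSp (subRep B.W X hX) (subRep B'.W X' hX'))
        (V' := mulSp (B.socR w) (B'.socR w')) e.symm _ _ _ (mulMap_equi _ _ _ _ _ _ _ _))
      (mulMap_inj _ _ _ _ _ _ _ _ (Submodule.inclusion_injective hXs)
        (Submodule.inclusion_injective hXs'))
  refine Cl.quo B'' (U := mulSp (subRep B.W X hX) (subRep B'.W X' hX')) c2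
    (mulMap (subRep B.W X hX) π₁ (subRep B'.W X' hX') π₂ p hpe p' hpe')
    (MulMap_reR_equi (V := mulSp (subRep B.W X hX) (subRep B'.W X' hX'))
        (V' := mulSp π₁ π₂) e.symm _ _ _ (mulMap_equi _ _ _ _ _ _ _ _))
    (mulMap_surj _ _ _ _ _ _ _ _ (smooth_sub B.W B.sm _ hX) (smooth_sub B'.W B'.sm _ hX')
      hps hps')

end all

end BD

theorem p2 {D : Dat} {m k : ℕ} {v : Wd D m} {v' : Wd D k} (B : BD F D v) (B' : BD F D v')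
    (B'' : BD F D (Fin.append v v')) (e : B.κ ⊕ B'.κ ≃ B''.κ) (Ξ : mulSp B.W B'.W →ₗ[ℂ] B''.V)
    (hΞ : B.IsXi B' B'' e Ξ) {U₁ U₂ : Type} [AddCommGroup U₁] [Module ℂ U₁] [AddCommGroup U₂]
    [Module ℂ U₂] (π₁ : Representation ℂ (GL B.κ F) U₁) (π₂ : Representation ℂ (GL B'.κ F) U₂)
    (h₁ : B.Cl π₁) (h₂ : B'.Cl π₂) : B''.Cl (reR F e.symm (mulR π₁ π₂)) ∧
      RIso ((B.H π₁).ind (B'.H π₂)) (B''.H (reR F e.symm (mulR π₁ π₂))) :=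
  ⟨B.prod_cl B' B'' e Ξ hΞ π₁ π₂ h₁ h₂,
    ⟨LinearEquiv.ofBijective (B.eta B' B'' e Ξ hΞ π₁ π₂)
      (B.eta_bij B' B'' e Ξ hΞ π₁ π₂ h₁ h₂)⟩⟩

end

end Pool.Agent.Lib.MP_ca1492_al.L
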