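import Mathlib
import Pool.Agent.Lib.MP_ca1492_al.L5.FIso
import Pool.Agent.Lib.MP_ca1492_al.L5.P2

/-!
# MP_ca1492_al, L5/FMul: the field mul of Link

PROOF. RelS A M: v, e; RelS B N: v', e'. `Sys.prod` and `p2` for reR e.symm A.π and reR e'.symm B.π: RelS
for the GLRep on κ ⊕ κ' (κ = (S.B v).κ, κ' = (S.B v').κ) of the product mulR (reR e.symm A.π) (reR e'.symm B.π)
with the module M.ind N (`ind_congr`). This product is isomorphic to A.mul B: `Isom.mul` of P/GLRepB for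
the isomorphisms of A with ⟨κ, _, reR e.symm A.π⟩ and of B with ⟨κ', _, reR e'.symm B.π⟩. `fiso`.
-/

set_option autoImplicit false

namespace Pool.Agent.Lib.MP_ca1492_al.L

open Topology Matrix TensorProduct ValuativeRel CA1492 CA1492.PA
open CategoryTheory CategoryTheory.Abelian
open Pool.Agent.Lib.MP_ca1492_al.P Pool.Agent.Lib.MP_ca1492_al.Q

noncomputable section

variable {F : Type} [Field F] [ValuativeRel F] [TopologicalSpace F]
  [IsNonarchimedeanLocalField F]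

variable {D : Dat} {ρ : D.J → GLRep F} (S : Sys D ρ)

theorem FMul_isom {κ : Type} [Fintype κ] [DecidableEq κ] (A : GLRep F) (e : A.κ ≃ κ) :
    (⟨κ, A.V, reR F e.symm A.π⟩ : GLRep F).Isom A :=
  ⟨e.symm, LinearEquiv.refl ℂ A.V, fun _ _ => rfl⟩

theorem fmul {m k : ℕ} {A B : GLRep F} {M : RMod D m} {N : RMod D k} (h : RelS S m A M)
    (h' : RelS S k B N) : RelS S (m + k) (A.mul B) (M.ind N) := by
  obtain ⟨v, e, hc, hr⟩ := h
  obtain ⟨v', e', hc', hr'⟩ := h'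
  obtain ⟨e'', Ξ, hΞ⟩ := S.prod v v'
  obtain ⟨h1, h2⟩ := p2 (S.B v) (S.B v') (S.B (Fin.append v v')) e'' Ξ hΞ
    (reR F e.symm A.π) (reR F e'.symm B.π) hc hc'
  have h3 : RelS S (m + k) ((⟨(S.B v).κ, A.V, reR F e.symm A.π⟩ : GLRep F).mul
      ⟨(S.B v').κ, B.V, reR F e'.symm B.π⟩) (M.ind N) :=
    ⟨Fin.append v v', e'', h1, (ind_congr hr hr').trans h2⟩
  exact fiso S h3 (GLRep.Isom.mul (FMul_isom A e) (FMul_isom B e')) (RIso.refl _)

end

end Pool.Agent.Lib.MP_ca1492_al.L
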