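import Mathlib
import Pool.Agent.Lib.MP_ca1492_al.L5.FExt
import Pool.Agent.Lib.MP_ca1492_al.L5.FLet
import Pool.Agent.Lib.MP_ca1492_al.L5.FMul
import Pool.Agent.Lib.MP_ca1492_al.P.Link

/-!
# MP_ca1492_al, L5/Main: Link from a system of cogenerators
-/

set_option autoImplicit false

namespace Pool.Agent.Lib.MP_ca1492_al.L

open Topology Matrix TensorProduct ValuativeRel CA1492 CA1492.PA
open CategoryTheory CategoryTheory.Abelian
open Pool.Agent.Lib.MP_ca1492_al.P Pool.Agent.Lib.MP_ca1492_al.Q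

noncomputable section

variable {F : Type} [Field F] [ValuativeRel F] [TopologicalSpace F]
  [IsNonarchimedeanLocalField F]

/-- **Link from a system.** -/
def linkOfSys {Λ : Type} [DecidableEq Λ] (S : Finset (Λ × ℤ)) (c : Λ → GLRep F) (d : Λ → ℤ)
    (Y : Sys (datS S) (fun x : (datS S).J => (c (ltr x).1).tw (((ltr x).2 : ℝ) - (d (ltr x).1 : ℝ) / 2))) :
    Link F S c d where
  Rel n A M := RelS Y n A M
  letter l i h := by
    obtain ⟨h1, h2, h3⟩ := flet_dr S l i h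
    exact flet Y ⟨(l, i), h⟩ (DR S ⟨l, i, 1, 1⟩ 1) h1 h2 h3
  one M hM := fone Y M hM
  mul h h' := fmul Y h h'
  iso h h1 h2 := fiso Y h h1 h2
  quot h h' := fquot Y h h'
  irred h h' := firr Y h h'
  ext n N V₁ V₂ _ _ _ _ π₁ π₂ h₁ h₂ M₁ M₂ hr₁ hr₂ h :=
    fext Y n N V₁ V₂ π₁ π₂ h₁ h₂ M₁ M₂ hr₁ hr₂ h
  ext_wt n₁ n₂ N V₁ V₂ _ _ _ _ π₁ π₂ h₁ h₂ M₁ M₂ hr₁ hr₂ h := by
    obtain ⟨w₁, w₂, a, b, hw⟩ := fext_wt Y n₁ n₂ N V₁ V₂ π₁ π₂ h₁ h₂ M₁ M₂ hr₁ hr₂ h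
    refine ⟨w₁, w₂, a, b, ?_⟩
    have h1 := congrArg (Multiset.map ltr) hw
    rw [Multiset.map_coe, Multiset.map_coe, List.map_ofFn, List.map_ofFn] at h1
    exact h1

end

end Pool.Agent.Lib.MP_ca1492_al.L
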